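import Pool.Agent.CRk.Defs

set_option autoImplicit false

/-!
# LSQ: multiple recurrence for large sets (MP_cfac66_an): `μ A > 1/3`, and more generally
`lim (1/N) ∑ [μ(A ∩ T^{-n}A) + μ(A ∩ S^{-n}A) + μ(A ∩ R^{-n}A)] > μ A`, for arbitrary `T, S, R`.

Roles and times as in Ind3: role `0` is `R`, role `1` is `S`, role `2` is `T`;
`tm 2 y = 2 y 0 + y 1` (T), `tm 0 y = 2 y 2 - y 1` (R), `tm 1 y = y 0 + y 2` (S).
-/

open MeasureTheory Filter Topology Finset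

namespace Pool.Agent.LSQ

open Pool.Agent.FSP Pool.Agent.Ind3

universe u

/-! ## Sequences on `ℤ` -/

/-- Bohr set in `ℤ`. -/
def BZ {ι : Type} (z : ι → Circle) (ρ : ℝ) : Set ℤ := {k | ∀ l, ‖((z l ^ k : Circle) : ℂ) - 1‖ ≤ ρ}

/-- The frequencies generate a group without torsion. -/
def TF0 {ι : Type} [Fintype ι] (z : ι → Circle) : Prop :=
  ∀ (n : ι → ℤ) (m : ℕ), 1 ≤ m → (∏ l, z l ^ n l) ^ m = 1 → ∏ l, z l ^ n l = 1

/-- `F` has values in `[0,1]` and is almost periodic with error `ε` along `B`. -/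
def AZ (B : Set ℤ) (ε : ℝ) (F : ℤ → ℝ) : Prop :=
  (∀ a, 0 ≤ F a ∧ F a ≤ 1) ∧ ∀ a, ∀ k ∈ B, |F (a + k) - F a| ≤ ε

/-- Window mean. -/
noncomputable def mz (N : ℕ) (s : ℤ) (F : ℤ → ℝ) : ℝ := (N : ℝ)⁻¹ * ∑ n ∈ range N, F (s + n)

/-- The window means of `F` are, from some length on, within `ε` of `f`. -/
def UM (ε f : ℝ) (F : ℤ → ℝ) : Prop := ∃ N₀ : ℕ, ∀ N ≥ N₀, ∀ s : ℤ, |mz N s F - f| ≤ ε

/-- Double window mean of `F a * H c * G (a + c)`. -/
noncomputable def dz (N : ℕ) (s s' : ℤ) (F H G : ℤ → ℝ) : ℝ :=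
  mz N s fun a => mz N s' fun c => F a * H c * G (a + c)

/-- The double window means are, from some length on, at least `η`. -/
def LB (η : ℝ) (F H G : ℤ → ℝ) : Prop := ∃ N₀ : ℕ, ∀ N ≥ N₀, ∀ s s' : ℤ, η ≤ dz N s s' F H G

/-! ## Measure theory -/

section

variable {Ω : Type u} [MeasurableSpace Ω]

/-- Two-sided iterates; `Q'` is the inverse of `Q`. -/
def zit (Q Q' : Ω → Ω) (n : ℤ) (x : Ω) : Ω :=
  match n with
  | Int.ofNat k => Q^[k] x
  | Int.negSucc k => Q'^[k + 1] x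

/-- Conditional expectation of `f` on the invariant sets of `Q^j`. -/
noncomputable def ce (μ : Measure Ω) (Q : Ω → Ω) (j : ℕ) (f : Ω → ℝ) : Ω → ℝ :=
  μ[f | MeasurableSpace.invariants Q^[j]]

/-- Some multiple of the exponent kills the torsion of the group generated by the numbers `z l`. -/
def Kil {ι : Type} [Fintype ι] (z : ι → Circle) (k : ℕ) : Prop :=
  ∀ (n : ι → ℤ) (m : ℕ), 1 ≤ m → (∏ l, z l ^ n l) ^ m = 1 → (∏ l, z l ^ n l) ^ k = 1

/-- The limit of the averages of `μ (A ∩ Q^{-n} A)` over the three maps exceeds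
` (1 + θ) μ A` (along some subsequence). -/
def Big (μ : Measure Ω) (Q : Fin 3 → Ω → Ω) (A : Set Ω) (θ : ℝ) : Prop :=
  ∀ N₀ : ℕ, ∃ N ≥ N₀, (1 + θ) * μ.real A
    ≤ (N : ℝ)⁻¹ * ∑ n ∈ range N, ∑ l, μ.real (A ∩ (Q l)^[n] ⁻¹' A)

/-- The multipliers of the times of the three roles. -/
def jl (q : ℕ) (l : Fin 3) : ℕ := if l = 1 then q else 2 * q

end

end Pool.Agent.LSQ
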