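import Pool.Agent.LSQ.Targets
import Pool.Agent.Ind3.Final

set_option autoImplicit false

/-!
# LSQ, target APY: lists
-/

open MeasureTheory Filter Topology Finset

namespace Pool.Agent.LSQ

open Pool.Agent.FSP Pool.Agent.Ind3 Pool.Agent.CRk

universe u

namespace APY_

/-- The finite list `τ` continued by the constant `1`. -/
noncomputable def extl {Ω : Type u} {d : ℕ} (τ : Fin d → Ω → Circle) (j : ℕ) : Ω → Circle :=
  if h : j < d then τ ⟨j, h⟩ else fun _ => 1

theorem extl_lt {Ω : Type u} {d : ℕ} (τ : Fin d → Ω → Circle) (l : Fin d) : extl τ l = τ l := by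
  simp [extl]

end APY_

open APY_ in
/-- Target APY. -/
theorem p_APY : T_APY.{u} := by
  intro Ω _ μ _ Q hQ ε p hp
  obtain ⟨q, hq, ρ, hρ, d, τ, hτ, hAP⟩ := hp
  have h1 : ∀ j, Measurable (extl τ j) := fun j => by
    by_cases h : j < d
    · rw [show extl τ j = τ ⟨j, h⟩ by simp [extl, h]]
      exact (hτ ⟨j, h⟩).1
    · rw [show extl τ j = fun _ => 1 by simp [extl, h]]
      exact measurable_const
  have h2 : ∀ j x, extl τ j (Q x) = extl τ j x := fun j x => by
    by_cases h : j < d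
    · rw [show extl τ j = τ ⟨j, h⟩ by simp [extl, h]]
      exact (hτ ⟨j, h⟩).2 x
    · rw [show extl τ j = fun _ => 1 by simp [extl, h]]
  refine ⟨extl τ, h1, h2, f_APX Ω μ Q hQ (extl τ) h1 h2 ε p
    ⟨q, hq, ρ, hρ, d, τ, fun l => Or.inl ⟨l, extl_lt τ l⟩, hAP⟩⟩

end Pool.Agent.LSQ
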