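import Pool.Agent.LSQ.Targets

/-!
# LSQ: the target AVZ (triple mean from double mean)
-/

set_option autoImplicit false

open MeasureTheory Filter Topology Finset

namespace Pool.Agent.LSQ

open Pool.Agent.FSP Pool.Agent.Ind3

universe u

namespace AVZ_

lemma zit_nat {Ω : Type u} (Q Q' : Ω → Ω) (n : ℕ) (x : Ω) : zit Q Q' (n : ℤ) x = Q^[n] x := rfl

lemma avg3_eq (N : ℕ) (Φ : (Fin 3 → ℕ) → ℝ) :
    avg3 N Φ = (N : ℝ)⁻¹ * ∑ b ∈ range N, ((N : ℝ)⁻¹ * ∑ i ∈ range N,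
      ((N : ℝ)⁻¹ * ∑ k ∈ range N, Φ ![N + i, b, 3 * N + k])) := by
  have h : avg3 N Φ = (N : ℝ)⁻¹ * ∑ i ∈ range N, ((N : ℝ)⁻¹ * ∑ b ∈ range N,
      ((N : ℝ)⁻¹ * ∑ k ∈ range N, Φ ![N + i, 0 + b, 3 * N + k])) := rfl
  rw [h]
  simp only [zero_add, ← Finset.mul_sum]
  rw [Finset.sum_comm]

end AVZ_

open AVZ_ in
/-- the target AVZ -/
theorem p_AVZ : T_AVZ.{u} := by
  intro Ω Q Q' P hP q η x hη hLB
  obtain ⟨N₀, hN₀⟩ := hLB
  refine ⟨N₀ + 1, fun N hN => ?_⟩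
  have hN0 : (0 : ℝ) < N := by exact_mod_cast (by omega : 0 < N)
  obtain ⟨Φ, hΦ⟩ : ∃ Φ : (Fin 3 → ℕ) → ℝ, Φ = fun y => ∏ l, P l ((Q l)^[q * tm l y] x) :=
    ⟨_, rfl⟩
  rw [← hΦ, avg3_eq]
  obtain ⟨M, hM⟩ : ∃ M : ℕ → ℝ, M = fun b => (N : ℝ)⁻¹ * ∑ i ∈ range N,
      ((N : ℝ)⁻¹ * ∑ k ∈ range N, Φ ![N + i, b, 3 * N + k]) := ⟨_, rfl⟩
  have hM' : ∑ b ∈ range N, ((N : ℝ)⁻¹ * ∑ i ∈ range N,
      ((N : ℝ)⁻¹ * ∑ k ∈ range N, Φ ![N + i, b, 3 * N + k])) = ∑ b ∈ range N, M b := by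
    rw [hM]
  rw [hM']
  have hΦ0 : ∀ y, 0 ≤ Φ y := by
    intro y
    rw [hΦ]
    exact Finset.prod_nonneg fun l _ => hP l _
  have hM0 : ∀ b, 0 ≤ M b := by
    intro b
    rw [hM]
    exact mul_nonneg (by positivity) (Finset.sum_nonneg fun i _ => mul_nonneg (by positivity)
      (Finset.sum_nonneg fun k _ => hΦ0 _))
  have hev : ∀ e : ℕ, 2 * e < N → η ≤ M (2 * e) := by
    intro e he
    have h1 := hN₀ N (by omega) ((N : ℤ) + e) (3 * (N : ℤ) - e)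
    refine h1.trans (le_of_eq ?_)
    rw [hM]
    simp only [dz, mz]
    refine congrArg (fun t : ℝ => (N : ℝ)⁻¹ * t) (Finset.sum_congr rfl fun i hi => ?_)
    refine congrArg (fun t : ℝ => (N : ℝ)⁻¹ * t) (Finset.sum_congr rfl fun k hk => ?_)
    rw [hΦ]
    simp only [Fin.prod_univ_three]
    have e2 : ((2 * q : ℕ) : ℤ) * ((N : ℤ) + e + i) =
        ((q * tm 2 ![N + i, 2 * e, 3 * N + k] : ℕ) : ℤ) := by
      have : tm 2 ![N + i, 2 * e, 3 * N + k] = 2 * (N + i) + 2 * e := rfl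
      rw [this]
      push_cast
      ring
    have e0 : ((2 * q : ℕ) : ℤ) * (3 * (N : ℤ) - e + k) =
        ((q * tm 0 ![N + i, 2 * e, 3 * N + k] : ℕ) : ℤ) := by
      have : tm 0 ![N + i, 2 * e, 3 * N + k] = 2 * (3 * N + k) - 2 * e := rfl
      rw [this]
      rw [Nat.cast_mul q, Nat.cast_sub (by omega)]
      push_cast
      ring
    have e1 : ((q : ℕ) : ℤ) * ((N : ℤ) + e + i + (3 * (N : ℤ) - e + k)) =
        ((q * tm 1 ![N + i, 2 * e, 3 * N + k] : ℕ) : ℤ) := by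
      have : tm 1 ![N + i, 2 * e, 3 * N + k] = (N + i) + (3 * N + k) := rfl
      rw [this]
      push_cast
      ring
    rw [e2, e0, e1, zit_nat, zit_nat, zit_nat]
    ring
  have hcard : (N : ℝ) / 2 * η ≤ ∑ b ∈ range N, M b := by
    have hsub : (range ((N + 1) / 2)).image (fun e => 2 * e) ⊆ range N := by
      intro b hb
      rw [mem_image] at hb
      obtain ⟨e, he, rfl⟩ := hb
      rw [mem_range] at he ⊢
      omega
    have hinj : Set.InjOn (fun e : ℕ => 2 * e) (range ((N + 1) / 2) : Set ℕ) := by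
      intro a _ b _ h
      simp only at h
      omega
    calc (N : ℝ) / 2 * η ≤ (((N + 1) / 2 : ℕ) : ℝ) * η := by
          refine mul_le_mul_of_nonneg_right ?_ hη
          have h2 : N ≤ 2 * ((N + 1) / 2) := by omega
          have h3 : (N : ℝ) ≤ 2 * (((N + 1) / 2 : ℕ) : ℝ) := by exact_mod_cast h2
          linarith
      _ = ∑ e ∈ range ((N + 1) / 2), η := by
          rw [Finset.sum_const, Finset.card_range, nsmul_eq_mul]
      _ ≤ ∑ e ∈ range ((N + 1) / 2), M (2 * e) := by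
          refine Finset.sum_le_sum fun e he => hev e ?_
          rw [mem_range] at he
          omega
      _ = ∑ b ∈ (range ((N + 1) / 2)).image (fun e => 2 * e), M b := by
          rw [Finset.sum_image hinj]
      _ ≤ ∑ b ∈ range N, M b :=
          Finset.sum_le_sum_of_subset_of_nonneg hsub fun b _ _ => hM0 b
  calc η / 2 = (N : ℝ)⁻¹ * ((N : ℝ) / 2 * η) := by
        field_simp
    _ ≤ (N : ℝ)⁻¹ * ∑ b ∈ range N, M b := by
        gcongr

end Pool.Agent.LSQ
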