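import Pool.Agent.LSQ.Targets

set_option autoImplicit false

/-!
# LSQ, target BGS: the set where the conditional densities are large
-/

open MeasureTheory Filter Topology Finset

namespace Pool.Agent.LSQ

open Pool.Agent.FSP Pool.Agent.Ind3

universe u

namespace BGS_

variable {Ω : Type u} [MeasurableSpace Ω]

theorem ce_meas (μ : Measure Ω) (Q : Ω → Ω) (j : ℕ) (f : Ω → ℝ) : Measurable (ce μ Q j f) :=
  (stronglyMeasurable_condExp.mono (MeasurableSpace.invariants_le _)).measurable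

theorem one_int (μ : Measure Ω) [IsProbabilityMeasure μ] {A : Set Ω} (hA : MeasurableSet A) :
    Integrable (one A) μ := (integrable_const (1 : ℝ)).indicator hA

theorem ce_int (μ : Measure Ω) (Q : Ω → Ω) (j : ℕ) (f : Ω → ℝ) : Integrable (ce μ Q j f) μ :=
  integrable_condExp

theorem ce_le_one (μ : Measure Ω) [IsProbabilityMeasure μ] (Q : Ω → Ω) (j : ℕ) {A : Set Ω}
    (hA : MeasurableSet A) : ∀ᵐ x ∂μ, ce μ Q j (one A) x ≤ 1 := by
  have h1 : one A ≤ᵐ[μ] fun _ => (1 : ℝ) := Eventually.of_forall fun x => by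
    unfold one
    by_cases hx : x ∈ A
    · rw [Set.indicator_of_mem hx]
    · rw [Set.indicator_of_notMem hx]
      exact zero_le_one
  have h2 := condExp_mono (m := MeasurableSpace.invariants Q^[j]) (one_int μ hA)
    (integrable_const (1 : ℝ)) h1
  rw [condExp_const (MeasurableSpace.invariants_le _)] at h2
  exact h2

end BGS_

open BGS_ in
theorem p_BGS (hPJN : T_PJN.{u}) : T_BGS.{u} := by
  intro Ω _ μ _ Q hQ A hA θ κ hθ hκ hBig j
  have hP := fun l => hPJN Ω μ (Q l) (hQ l) A hA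
  -- the sum of the integrals
  have h1 : (1 + θ) * μ.real A ≤ ∑ l, ∫ x in A, ce μ (Q l) 1 (one A) x ∂μ := by
    have ht : Tendsto (fun N : ℕ => ∑ l, (N : ℝ)⁻¹ * ∑ n ∈ range N, μ.real (A ∩ (Q l)^[n] ⁻¹' A))
        atTop (𝓝 (∑ l, ∫ x in A, ce μ (Q l) 1 (one A) x ∂μ)) :=
      tendsto_finsetSum _ fun l _ => (hP l).2.1
    refine ge_of_tendsto_of_frequently ht (frequently_atTop.2 fun N₀ => ?_)
    obtain ⟨N, hN, h⟩ := hBig N₀
    refine ⟨N, hN, h.trans (le_of_eq ?_)⟩
    rw [Finset.sum_comm, Finset.mul_sum]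
  have h2 : ∑ l, ∫ x in A, ce μ (Q l) 1 (one A) x ∂μ ≤
      ∑ l, ∫ x in A, ce μ (Q l) (j l) (one A) x ∂μ :=
    Finset.sum_le_sum fun l _ => (hP l).1 (j l)
  have h3 : ∑ l, ∫ x in A, ce μ (Q l) (j l) (one A) x ∂μ =
      ∫ x in A, ∑ l, ce μ (Q l) (j l) (one A) x ∂μ :=
    (integral_finsetSum _ fun l _ => (ce_int μ (Q l) (j l) (one A)).integrableOn).symm
  have hsm : Measurable fun x => ∑ l, ce μ (Q l) (j l) (one A) x :=
    Finset.measurable_sum _ fun l _ => ce_meas μ (Q l) (j l) (one A)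
  have hYm : MeasurableSet {x | x ∈ A ∧ 1 + θ / 2 ≤ ∑ l, ce μ (Q l) (j l) (one A) x} :=
    hA.inter (measurableSet_le measurable_const hsm)
  obtain ⟨Y, hY⟩ : ∃ Y : Set Ω,
    Y = {x | x ∈ A ∧ 1 + θ / 2 ≤ ∑ l, ce μ (Q l) (j l) (one A) x} := ⟨_, rfl⟩
  rw [← hY] at hYm
  have hYA : Y ⊆ A := by
    rw [hY]
    exact fun x hx => hx.1
  -- the upper bound of the integral
  have h4 : ∫ x in A, ∑ l, ce μ (Q l) (j l) (one A) x ∂μ ≤
      (1 + θ / 2) * μ.real A + 2 * μ.real Y := by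
    have hle : ∀ᵐ x ∂μ, ∀ l, ce μ (Q l) (j l) (one A) x ≤ 1 :=
      ae_all_iff.2 fun l => ce_le_one μ (Q l) (j l) hA
    have h5 : ∫ x in A, ∑ l, ce μ (Q l) (j l) (one A) x ∂μ ≤
        ∫ x in A, ((1 + θ / 2) + Y.indicator (fun _ => (2 : ℝ)) x) ∂μ := by
      refine integral_mono_ae ?_ ?_ ?_
      · exact (integrable_finsetSum _ fun l _ => ce_int μ (Q l) (j l) (one A)).integrableOn
      · exact ((integrable_const _).add ((integrable_const _).indicator hYm)).integrableOn
      · refine (ae_restrict_iff' hA).2 ?_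
        filter_upwards [hle] with x hx hxA
        by_cases hxY : x ∈ Y
        · rw [Set.indicator_of_mem hxY]
          have h6 : ∑ l, ce μ (Q l) (j l) (one A) x ≤ ∑ _l : Fin 3, (1 : ℝ) :=
            Finset.sum_le_sum fun l _ => hx l
          have h7 : ∑ _l : Fin 3, (1 : ℝ) = 3 := by simp
          linarith
        · rw [Set.indicator_of_notMem hxY]
          have h6 : ¬ (1 + θ / 2 ≤ ∑ l, ce μ (Q l) (j l) (one A) x) := by
            intro h
            apply hxY
            rw [hY]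
            exact ⟨hxA, h⟩
          push Not at h6
          linarith
    refine h5.trans (le_of_eq ?_)
    rw [integral_add (integrable_const _).integrableOn
      ((integrable_const (2 : ℝ)).indicator hYm).integrableOn, setIntegral_const,
      integral_indicator hYm, Measure.restrict_restrict hYm, setIntegral_const,
      Set.inter_eq_left.2 hYA, smul_eq_mul, smul_eq_mul]
    ring
  have h5 : θ * μ.real A / 4 ≤ μ.real Y := by
    rw [h3] at h2
    nlinarith
  -- remove the three sets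
  have h6 : Y ⊆ {x | x ∈ A ∧ 1 + θ / 2 ≤ ∑ l, ce μ (Q l) (j l) (one A) x ∧
      ∀ l, κ ≤ ce μ (Q l) (j l) (one A) x} ∪
      ⋃ l, {x | x ∈ A ∧ ce μ (Q l) (j l) (one A) x < κ} := by
    intro x hx
    rw [hY] at hx
    by_cases h : ∀ l, κ ≤ ce μ (Q l) (j l) (one A) x
    · exact Or.inl ⟨hx.1, hx.2, h⟩
    · push Not at h
      obtain ⟨l, hl⟩ := h
      exact Or.inr (Set.mem_iUnion.2 ⟨l, hx.1, hl⟩)
  have h7 : μ.real (⋃ l, {x | x ∈ A ∧ ce μ (Q l) (j l) (one A) x < κ}) ≤ 3 * κ := by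
    refine (measureReal_iUnion_fintype_le _).trans ?_
    refine (Finset.sum_le_sum fun l _ => (hP l).2.2.1 (j l) κ hκ).trans (le_of_eq ?_)
    simp
  have h8 := (measureReal_mono h6 (measure_ne_top μ _)).trans (measureReal_union_le _ _)
  linarith

end Pool.Agent.LSQ
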