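import Pool.Agent.LSQ.Targets

set_option autoImplicit false

/-!
# LSQ-DTI: the iteration
-/

open MeasureTheory Filter Topology Finset

namespace Pool.Agent.LSQ

namespace DTI_

lemma mz_shift (N : ℕ) (s e : ℤ) (F : ℤ → ℝ) :
    mz N s (fun a => F (a + e)) = mz N (s + e) F := by
  unfold mz
  congr 1
  refine Finset.sum_congr rfl fun n _ => ?_
  show F (s + n + e) = F (s + e + n)
  congr 1
  ring

lemma mz_comb (N : ℕ) (s : ℤ) (F H P : ℤ → ℝ) :
    mz N s (fun a => F a + H a - P a) = mz N s F + mz N s H - mz N s P := by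
  unfold mz
  rw [Finset.sum_sub_distrib, Finset.sum_add_distrib]
  ring

lemma um_close {δ δ' f f' : ℝ} {F : ℤ → ℝ} (h : UM δ f F) (h' : UM δ' f' F) :
    |f' - f| ≤ δ + δ' := by
  obtain ⟨N, hN⟩ := h
  obtain ⟨N', hN'⟩ := h'
  have h1 := hN (max N N') (le_max_left _ _) 0
  have h2 := hN' (max N N') (le_max_right _ _) 0
  rw [abs_le] at h1 h2 ⊢
  constructor <;> linarith [h1.1, h1.2, h2.1, h2.2]

lemma um_mono {δ δ' f : ℝ} {F : ℤ → ℝ} (hd : δ ≤ δ') (h : UM δ f F) : UM δ' f F := by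
  obtain ⟨N, hN⟩ := h
  exact ⟨N, fun n hn s => (hN n hn s).trans hd⟩

lemma az_mono {B : Set ℤ} {ε ε' : ℝ} {F : ℤ → ℝ} (he : ε ≤ ε') (h : AZ B ε F) : AZ B ε' F :=
  ⟨h.1, fun a k hk => (h.2 a k hk).trans he⟩

lemma lb_mono {η η' : ℝ} {F H G : ℤ → ℝ} (he : η' ≤ η) (h : LB η F H G) : LB η' F H G := by
  obtain ⟨N, hN⟩ := h
  exact ⟨N, fun n hn s s' => he.trans (hN n hn s s')⟩

/-- differences of products -/
lemma prod_diff {a b c d ε : ℝ} (ha : 0 ≤ a) (ha1 : a ≤ 1) (hd : 0 ≤ d) (hd1 : d ≤ 1)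
    (h1 : |a - c| ≤ ε) (h2 : |b - d| ≤ ε) : |a * b - c * d| ≤ 2 * ε := by
  have e : a * b - c * d = a * (b - d) + (a - c) * d := by ring
  rw [e]
  refine (abs_add_le _ _).trans ?_
  rw [abs_mul, abs_mul, abs_of_nonneg ha, abs_of_nonneg hd]
  have m1 : a * |b - d| ≤ 1 * ε := mul_le_mul ha1 h2 (abs_nonneg _) (by norm_num)
  have m2 : |a - c| * d ≤ ε * 1 := mul_le_mul h1 hd1 hd ((abs_nonneg _).trans h1)
  linarith

lemma az_F {B : Set ℤ} {ε : ℝ} {F H : ℤ → ℝ} (hF : AZ B ε F) (hH : AZ B ε H) (e : ℤ) :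
    AZ B (2 * ε) (fun a => F a + H (a + e) - F a * H (a + e)) := by
  refine ⟨fun a => ?_, fun a k hk => ?_⟩
  · obtain ⟨f0, f1⟩ := hF.1 a
    obtain ⟨h0, h1⟩ := hH.1 (a + e)
    show 0 ≤ F a + H (a + e) - F a * H (a + e) ∧ F a + H (a + e) - F a * H (a + e) ≤ 1
    constructor
    · nlinarith
    · nlinarith [mul_nonneg (sub_nonneg.2 f1) (sub_nonneg.2 h1)]
  · show |(F (a + k) + H (a + k + e) - F (a + k) * H (a + k + e)) -
      (F a + H (a + e) - F a * H (a + e))| ≤ 2 * ε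
    have h1 := hF.2 a k hk
    have h2 := hH.2 (a + e) k hk
    have e1 : a + e + k = a + k + e := by ring
    rw [e1] at h2
    obtain ⟨f0, f1⟩ := hF.1 a
    obtain ⟨g0, g1⟩ := hH.1 (a + e)
    obtain ⟨f0', f1'⟩ := hF.1 (a + k)
    obtain ⟨g0', g1'⟩ := hH.1 (a + k + e)
    have h3 := prod_diff (a := 1 - F (a + k)) (b := 1 - H (a + k + e)) (c := 1 - F a)
      (d := 1 - H (a + e)) (ε := ε) (by linarith) (by linarith) (by linarith) (by linarith)
      (by
        have e2 : 1 - F (a + k) - (1 - F a) = -(F (a + k) - F a) := by ring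
        rw [e2, abs_neg]
        exact h1)
      (by
        have e2 : 1 - H (a + k + e) - (1 - H (a + e)) = -(H (a + k + e) - H (a + e)) := by ring
        rw [e2, abs_neg]
        exact h2)
    have e3 : (F (a + k) + H (a + k + e) - F (a + k) * H (a + k + e)) -
      (F a + H (a + e) - F a * H (a + e)) =
      -((1 - F (a + k)) * (1 - H (a + k + e)) - (1 - F a) * (1 - H (a + e))) := by ring
    rw [e3, abs_neg]
    exact h3

lemma az_H {B : Set ℤ} {ε : ℝ} {F H : ℤ → ℝ} (hF : AZ B ε F) (hH : AZ B ε H) (e : ℤ) :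
    AZ B (2 * ε) (fun c => H c * F (c - e)) := by
  refine ⟨fun a => ?_, fun a k hk => ?_⟩
  · obtain ⟨f0, f1⟩ := hF.1 (a - e)
    obtain ⟨h0, h1⟩ := hH.1 a
    exact ⟨mul_nonneg h0 f0, mul_le_one₀ h1 f0 f1⟩
  · show |H (a + k) * F (a + k - e) - H a * F (a - e)| ≤ 2 * ε
    have h1 := hH.2 a k hk
    have h2 := hF.2 (a - e) k hk
    have e1 : a - e + k = a + k - e := by ring
    rw [e1] at h2
    exact prod_diff (hH.1 _).1 (hH.1 _).2 (hF.1 _).1 (hF.1 _).2 h1 h2

end DTI_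

open DTI_

theorem p_DTI (hUME : T_UME) (hIVZ : T_IVZ) (hETZ : T_ETZ) (hFZE : T_FZE) : T_DTI := by
  intro κ θ₀ hκ hκ1 hθ₀ hθ₀1 n
  induction n with
  | zero =>
    intro φ ω θ hφ hω hθ
    refine ⟨ω / 2 * (κ / 4), min (ω / 6) (κ / 24), by positivity,
      lt_min (by positivity) (by positivity), ?_⟩
    intro ι _ z ρ ε F H G f h g hρ hε hεε hz hF hH hG hf hh hg hφf hf1 hωh hh1 hκg hg1 hsum hn
    rw [le_min_iff] at hεε
    obtain ⟨e1, e2⟩ := hεε
    rw [pow_zero, mul_one] at hn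
    have h1 := hFZE F H G (3 * ε) f h g (by linarith) hF.1 hH.1 hG.1 hf hh hg (by linarith)
      (by linarith)
    refine lb_mono ?_ h1
    exact mul_le_mul (by linarith) (by linarith) (by positivity) (by linarith)
  | succ n ih =>
    intro φ ω θ hφ hω hθ
    obtain ⟨η', ε', hη', hε', hih⟩ := ih (φ / 2) (φ * ω / 2) ((θ + θ₀) / 2) (by positivity)
      (by positivity) (by linarith)
    have hθθ : 0 < θ - θ₀ := by linarith
    refine ⟨min (ω / 2 * (κ / 4)) (min (ω / 2 * (θ₀ / 4)) (η' / 4)),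
      min (min (min (ω / 6) (κ / 24)) (min (θ₀ / 24) (φ / 64)))
        (min (min (φ * ω / 52) ((θ - θ₀) / 116)) (min (κ * θ₀ / 256) (min (ε' / 2) (η' / 10)))),
      by positivity, by positivity, ?_⟩
    intro ι _ z ρ ε F H G f h g hρ hε hεε hz hF hH hG hf hh hg hφf hf1 hωh hh1 hκg hg1 hsum hn
    simp only [le_min_iff] at hεε
    obtain ⟨⟨⟨e1, e2⟩, e3, e4⟩, ⟨e5, e6⟩, e7, e8, e9⟩ := hεε
    by_cases hA : 1 - f ≤ κ / 2
    · have h1 := hFZE F H G (3 * ε) f h g (by linarith) hF.1 hH.1 hG.1 hf hh hg (by linarith)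
        (by linarith)
      refine lb_mono ?_ h1
      refine (min_le_left _ _).trans ?_
      exact mul_le_mul (by linarith) (by linarith) (by positivity) (by linarith)
    by_cases hB : h ≤ θ₀ / 2
    · have h1 := hFZE F H G (3 * ε) f h g (by linarith) hF.1 hH.1 hG.1 hf hh hg (by linarith)
        (by linarith)
      refine lb_mono ?_ h1
      refine (min_le_right _ _).trans ((min_le_left _ _).trans ?_)
      exact mul_le_mul (by linarith) (by linarith) (by positivity) (by linarith)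
    push Not at hA hB
    obtain ⟨e, he⟩ := hIVZ ι z ρ ε F H f h hρ hε hz hF hH (by linarith) hf1 (by linarith) hh1 hf hh
    have hF' := az_F hF hH e
    have hH' := az_H hF hH e
    obtain ⟨f', hf'0, hf'1, hf'⟩ := hUME ι z ρ (2 * ε) _ hρ (by linarith) hF'
    obtain ⟨h', hh'0, hh'1, hh'⟩ := hUME ι z ρ (2 * ε) _ hρ (by linarith) hH'
    -- mean of F'
    have hm1 : UM (26 * ε) (f + h - f * h) (fun a => F a + H (a + e) - F a * H (a + e)) := by
      obtain ⟨N1, hN1⟩ := hf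
      obtain ⟨N2, hN2⟩ := hh
      obtain ⟨N3, hN3⟩ := he
      refine ⟨max N1 (max N2 N3), fun N hN s => ?_⟩
      have a1 := hN1 N ((le_max_left _ _).trans hN) s
      have a2 := hN2 N (((le_max_left _ _).trans (le_max_right _ _)).trans hN) (s + e)
      have a3 := hN3 N (((le_max_right _ _).trans (le_max_right _ _)).trans hN) s
      rw [mz_comb N s F (fun a => H (a + e)) (fun a => F a * H (a + e)), mz_shift]
      rw [abs_le] at a1 a2 a3 ⊢
      constructor <;> linarith [a1.1, a1.2, a2.1, a2.2, a3.1, a3.2]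
    have hm2 : UM (20 * ε) (f * h) (fun c => H c * F (c - e)) := by
      obtain ⟨N3, hN3⟩ := he
      refine ⟨N3, fun N hN s => ?_⟩
      have a3 := hN3 N hN (s - e)
      have e10 : mz N s (fun c => H c * F (c - e)) =
          mz N (s - e) (fun a => F a * H (a + e)) := by
        have := mz_shift N (s - e) e (fun c => H c * F (c - e))
        rw [sub_add_cancel] at this
        rw [← this]
        congr 1
        funext a
        rw [add_sub_cancel_right]
        ring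
      rw [e10]
      exact a3
    have c1 := um_close hm1 hf'
    have c2 := um_close hm2 hh'
    rw [abs_le] at c1 c2
    have fpos : 0 < f := hφ.trans_le hφf
    have hpos : 0 < h := hω.trans_le hωh
    have k1 : 0 ≤ h * (1 - f) := mul_nonneg hpos.le (by linarith)
    have k2 : φ * ω ≤ f * h := mul_le_mul hφf hωh hω.le fpos.le
    have k3 : (1 - f) * (θ₀ / 2) ≤ (1 - f) * h :=
      mul_le_mul_of_nonneg_left hB.le (by linarith)
    have k4 : κ / 2 * (θ₀ / 4) ≤ (1 - f) * (θ₀ / 4) :=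
      mul_le_mul_of_nonneg_right hA.le (by linarith)
    have p1 : φ / 2 ≤ f' := by nlinarith [c1.1]
    have p2 : φ * ω / 2 ≤ h' := by linarith [c2.1]
    have p3 : 1 + (θ + θ₀) / 2 ≤ f' + h' + g := by linarith [c1.1, c2.1]
    have p4 : 1 - f' ≤ (1 - f) * (1 - θ₀ / 4) := by
      have q1 : 1 - f' ≤ (1 - f) * (1 - h) + 32 * ε := by nlinarith [c1.1]
      have q2 : (1 - f) * (1 - h) ≤ (1 - f) * (1 - θ₀ / 2) := by nlinarith
      nlinarith
    have p5 : (1 - f') * (1 - θ₀ / 4) ^ n ≤ κ / 2 := by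
      refine le_trans ?_ hn
      rw [pow_succ, mul_comm ((1 - θ₀ / 4) ^ n), ← mul_assoc]
      exact mul_le_mul_of_nonneg_right p4 (pow_nonneg (by linarith) n)
    have hLB := hih ι z ρ (2 * ε) _ _ G f' h' g hρ (by linarith) (by linarith) hz hF' hH'
      (az_mono (by linarith) hG) hf' hh' (um_mono (by linarith) hg) p1 hf'1 p2 hh'1 hκg hg1 p3 p5
    have hfin := hETZ ι z ρ ε F H G e η' hρ hε hF hH hG hLB
    refine lb_mono ?_ hfin
    refine (min_le_right _ _).trans ((min_le_right _ _).trans ?_)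
    linarith

end Pool.Agent.LSQ
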