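import Pool.Agent.LSQ.Targets

set_option autoImplicit false

/-! # LSQ: DTL -/

open MeasureTheory Filter Topology Finset

namespace Pool.Agent.LSQ

open Pool.Agent.FSP Pool.Agent.Ind3 Pool.Agent.CRk

theorem p_DTL (hDTI : T_DTI) : T_DTL := by
  intro κ θ hκ hθ
  have hk0 : (0 : ℝ) < min κ 1 := lt_min hκ one_pos
  have ht0 : (0 : ℝ) < min θ 1 / 2 := half_pos (lt_min hθ one_pos)
  have ht1 : min θ 1 / 2 ≤ 1 := by
    have := min_le_right θ 1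
    linarith
  have ht2 : min θ 1 / 2 < θ := by
    have := min_le_left θ 1
    linarith
  have hb0 : (0 : ℝ) ≤ 1 - min θ 1 / 2 / 4 := by linarith
  have hb1 : 1 - min θ 1 / 2 / 4 < 1 := by linarith
  obtain ⟨n, hn⟩ := exists_pow_lt_of_lt_one (half_pos hk0) hb1
  obtain ⟨η, ε₀, hη, hε₀, key⟩ := hDTI (min κ 1) (min θ 1 / 2) hk0 (min_le_right _ _) ht0 ht1 n
    (min κ 1) (min κ 1) θ hk0 hk0 ht2
  refine ⟨η, ε₀, hη, hε₀, ?_⟩
  intro ι _ z ρ ε F H G f h g hρ hε hεε hTF hF hH hG uF uH uG hf hf1 hh hh1 hg hg1 hsum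
  refine key ι z ρ ε F H G f h g hρ hε hεε hTF hF hH hG uF uH uG
    ((min_le_left _ _).trans hf) hf1 ((min_le_left _ _).trans hh) hh1
    ((min_le_left _ _).trans hg) hg1 hsum ?_
  have hp0 : (0 : ℝ) ≤ (1 - min θ 1 / 2 / 4) ^ n := pow_nonneg hb0 n
  have h1 : (1 - f) * (1 - min θ 1 / 2 / 4) ^ n ≤ 1 * (1 - min θ 1 / 2 / 4) ^ n :=
    mul_le_mul_of_nonneg_right (by linarith) hp0
  linarith

end Pool.Agent.LSQ
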