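import Pool.Agent.LSQ.Targets

set_option autoImplicit false

/-!
# ETZ: the e-transform
-/

open MeasureTheory Filter Topology Finset

namespace Pool.Agent.LSQ

open Pool.Agent.FSP Pool.Agent.Ind3 Pool.Agent.CRk

namespace ETZ_

lemma mz_mono {N : ℕ} {s : ℤ} {F G : ℤ → ℝ} (h : ∀ a, F a ≤ G a) : mz N s F ≤ mz N s G := by
  unfold mz
  exact mul_le_mul_of_nonneg_left (sum_le_sum fun n _ => h _) (by positivity)

lemma mz_add (N : ℕ) (s : ℤ) (F G : ℤ → ℝ) :
    mz N s (fun a => F a + G a) = mz N s F + mz N s G := by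
  unfold mz
  rw [sum_add_distrib, mul_add]

lemma mz_shift (N : ℕ) (s e : ℤ) (F : ℤ → ℝ) :
    mz N s (fun a => F (a + e)) = mz N (s + e) F := by
  unfold mz
  refine congrArg (fun r : ℝ => (N : ℝ)⁻¹ * r) (sum_congr rfl fun n _ => ?_)
  show F (s + n + e) = F (s + e + n)
  rw [show s + n + e = s + e + n by ring]

lemma mz_comm (N : ℕ) (s t : ℤ) (K : ℤ → ℤ → ℝ) :
    mz N s (fun a => mz N t fun c => K a c) = mz N t (fun c => mz N s fun a => K a c) := by
  unfold mz
  rw [← mul_sum, ← mul_sum, sum_comm]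

/-- the double mean of the exchanged term -/
lemma swap (N : ℕ) (s t e : ℤ) (F H G : ℤ → ℝ) :
    mz N s (fun a => mz N t fun c => F (c - e) * H (a + e) * G (a + c)) =
      dz N (t - e) (s + e) F H G := by
  have h1 : ∀ a : ℤ, mz N t (fun c => F (c - e) * H (a + e) * G (a + c)) =
      mz N (t - e) (fun b => F b * H (a + e) * G (b + (a + e))) := by
    intro a
    rw [sub_eq_add_neg t e, ← mz_shift N t (-e) fun b => F b * H (a + e) * G (b + (a + e))]
    congr 1
    funext c
    rw [← sub_eq_add_neg, show c - e + (a + e) = a + c by ring]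
  simp only [h1]
  rw [mz_shift N s e fun c => mz N (t - e) fun b => F b * H c * G (b + c), mz_comm]
  rfl

end ETZ_

open ETZ_ in
theorem p_ETZ (hU : T_UWN) : T_ETZ := by
  intro ι _ z ρ ε F H G e η hρ hε hF hH hG hL
  obtain ⟨N₁, h1⟩ := hU ι z ρ ε F H G hρ hε hF hH hG
  obtain ⟨N₂, h2⟩ := hL
  refine ⟨max N₁ N₂, fun N hN s s' => ?_⟩
  have h3 := h2 N ((le_max_right _ _).trans hN) s s'
  have h4 := (abs_le.1 (h1 N ((le_max_left _ _).trans hN) (s' - e) (s + e) s s')).2
  have h5 : dz N s s' (fun a => F a + H (a + e) - F a * H (a + e))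
      (fun c => H c * F (c - e)) G ≤ dz N s s' F H G + dz N (s' - e) (s + e) F H G := by
    rw [← swap]
    unfold dz
    rw [← mz_add]
    refine mz_mono fun a => ?_
    rw [← mz_add]
    refine mz_mono fun c => ?_
    obtain ⟨hx0, hx1⟩ := hF.1 a
    obtain ⟨hy0, hy1⟩ := hH.1 (a + e)
    obtain ⟨hh0, hh1⟩ := hH.1 c
    obtain ⟨hw0, hw1⟩ := hF.1 (c - e)
    obtain ⟨hg0, hg1⟩ := hG.1 (a + c)
    have h6 : (F a + H (a + e) - F a * H (a + e)) * (H c * F (c - e)) ≤
        F a * H c + F (c - e) * H (a + e) := by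
      have e1 : F a * H c * F (c - e) ≤ F a * H c * 1 :=
        mul_le_mul_of_nonneg_left hw1 (by positivity)
      have e2 : H (a + e) * F (c - e) * H c ≤ H (a + e) * F (c - e) * 1 :=
        mul_le_mul_of_nonneg_left hh1 (by positivity)
      have e3 : 0 ≤ F a * H (a + e) * (H c * F (c - e)) := by positivity
      linarith
    have h7 := mul_le_mul_of_nonneg_right h6 hg0
    linarith
  linarith

end Pool.Agent.LSQ
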