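import Pool.Agent.LSQ.Targets

/-!
# LSQ, target FZE: the last step of the iteration
-/

set_option autoImplicit false

open Finset

namespace Pool.Agent.LSQ

namespace FZE_

theorem swap (N : ℕ) (s s' : ℤ) (F H G : ℤ → ℝ) :
    dz N s s' F H G = (N : ℝ)⁻¹ * ∑ m ∈ range N, H (s' + m) *
      ((N : ℝ)⁻¹ * ∑ n ∈ range N, F (s + n) * G (s + n + (s' + m))) := by
  unfold dz mz
  congr 1
  simp only [Finset.mul_sum]
  rw [Finset.sum_comm]
  refine Finset.sum_congr rfl fun m _ => Finset.sum_congr rfl fun n _ => ?_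
  ring

theorem inner_ge {N : ℕ} (hN : 1 ≤ N) (s r : ℤ) {F G : ℤ → ℝ}
    (hF : ∀ a, 0 ≤ F a ∧ F a ≤ 1) (hG : ∀ a, 0 ≤ G a ∧ G a ≤ 1) :
    mz N s F + mz N (s + r) G - 1 ≤ (N : ℝ)⁻¹ * ∑ n ∈ range N, F (s + n) * G (s + n + r) := by
  have hN0 : (0 : ℝ) < N := by exact_mod_cast hN
  have h1 : (1 : ℝ) = (N : ℝ)⁻¹ * ∑ n ∈ range N, (1 : ℝ) := by
    simp only [sum_const, card_range, nsmul_eq_mul, mul_one]
    rw [inv_mul_cancel₀ hN0.ne']
  have h2 : mz N s F + mz N (s + r) G - 1 =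
      (N : ℝ)⁻¹ * ∑ n ∈ range N, (F (s + n) + G (s + r + n) - 1) := by
    unfold mz
    rw [Finset.sum_sub_distrib, Finset.sum_add_distrib, mul_sub, mul_add, ← h1]
  rw [h2]
  apply mul_le_mul_of_nonneg_left _ (by positivity)
  refine Finset.sum_le_sum fun n _ => ?_
  have e : s + r + (n : ℤ) = s + n + r := by ring
  rw [e]
  have h3 := hF (s + n)
  have h4 := hG (s + n + r)
  nlinarith [mul_nonneg (sub_nonneg.2 h3.2) (sub_nonneg.2 h4.2)]

end FZE_

open FZE_ in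
theorem p_FZE : T_FZE := by
  intro F H G δ f h g hδ hF hH hG hf hh hg hδh hpos
  obtain ⟨N₁, h1⟩ := hf
  obtain ⟨N₂, h2⟩ := hh
  obtain ⟨N₃, h3⟩ := hg
  refine ⟨max (max N₁ N₂) (max N₃ 1), fun N hN s s' => ?_⟩
  have hN1 : N₁ ≤ N := le_trans (le_trans (le_max_left _ _) (le_max_left _ _)) hN
  have hN2 : N₂ ≤ N := le_trans (le_trans (le_max_right _ _) (le_max_left _ _)) hN
  have hN3 : N₃ ≤ N := le_trans (le_trans (le_max_left _ _) (le_max_right _ _)) hN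
  have hN4 : 1 ≤ N := le_trans (le_trans (le_max_right _ _) (le_max_right _ _)) hN
  have hN0 : (0 : ℝ) < N := by exact_mod_cast hN4
  rw [swap]
  have hin : ∀ m : ℕ, f + g - 1 - 2 * δ ≤
      (N : ℝ)⁻¹ * ∑ n ∈ range N, F (s + n) * G (s + n + (s' + m)) := by
    intro m
    refine le_trans ?_ (inner_ge hN4 s (s' + m) hF hG)
    have a1 := abs_le.1 (h1 N hN1 s)
    have a3 := abs_le.1 (h3 N hN3 (s + (s' + m)))
    linarith [a1.1, a3.1]
  have hHm := (abs_le.1 (h2 N hN2 s')).1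
  calc (h - δ) * (f + g - 1 - 2 * δ) ≤ mz N s' H * (f + g - 1 - 2 * δ) :=
        mul_le_mul_of_nonneg_right (by linarith) hpos
    _ = (N : ℝ)⁻¹ * ∑ m ∈ range N, H (s' + m) * (f + g - 1 - 2 * δ) := by
        unfold mz
        rw [← Finset.sum_mul, mul_assoc]
    _ ≤ _ := by
        apply mul_le_mul_of_nonneg_left _ (by positivity)
        refine Finset.sum_le_sum fun m _ => ?_
        exact mul_le_mul_of_nonneg_left (hin m) (hH _).1

end Pool.Agent.LSQ
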