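import Pool.Agent.LSQ.Targets

/-!
# LSQ, GAP: Bohr sets have bounded gaps
-/

set_option autoImplicit false

open MeasureTheory Filter Topology Finset

namespace Pool.Agent.LSQ

/-- powers of a unimodular number -/
theorem GAP_.norm_sub (z : Circle) (n m : ℤ) :
    ‖((z ^ (n - m) : Circle) : ℂ) - 1‖ = dist (z ^ n) (z ^ m) := by
  have h1 : ((z ^ n : Circle) : ℂ) - ((z ^ m : Circle) : ℂ) =
      (((z ^ (n - m) : Circle) : ℂ) - 1) * ((z ^ m : Circle) : ℂ) := by
    have h2 : (z ^ n : Circle) = z ^ (n - m) * z ^ m := by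
      rw [← zpow_add, sub_add_cancel]
    rw [h2, Circle.coe_mul]
    ring
  have h3 : dist (z ^ n) (z ^ m) = dist ((z ^ n : Circle) : ℂ) ((z ^ m : Circle) : ℂ) := rfl
  rw [h3, dist_eq_norm, h1, norm_mul, Circle.norm_coe, mul_one]

theorem p_GAP : T_GAP := by
  intro ι _ z ρ hρ
  have htb : TotallyBounded (Set.range fun (n : ℤ) (l : ι) => z l ^ n) :=
    (isCompact_univ.totallyBounded).subset (Set.subset_univ _)
  obtain ⟨t, hts, htf, hcov⟩ := htb.exists_subset (Metric.dist_mem_uniformity hρ)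
  have hg0 : ∀ y : ι → Circle, ∃ n : ℤ, y ∈ t → (fun l => z l ^ n) = y := by
    intro y
    by_cases hy : y ∈ t
    · obtain ⟨n, hn⟩ := hts hy
      exact ⟨n, fun _ => hn⟩
    · exact ⟨0, fun h => absurd h hy⟩
  choose g hg using hg0
  obtain ⟨L, hL⟩ : ∃ L : ℕ, ∀ y ∈ t, |g y| ≤ (L : ℤ) := by
    obtain ⟨L, hL⟩ := (htf.image (fun y => (g y).natAbs)).bddAbove
    refine ⟨L, fun y hy => ?_⟩
    have := hL (Set.mem_image_of_mem _ hy)
    rw [Int.abs_eq_natAbs]
    exact_mod_cast this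
  refine ⟨L, fun n => ?_⟩
  have h1 := hcov (Set.mem_range_self n)
  simp only [Set.mem_iUnion] at h1
  obtain ⟨y, hy, h2⟩ := h1
  refine ⟨n - g y, fun l => ?_, ?_⟩
  · rw [GAP_.norm_sub]
    have h3 : dist (fun l => z l ^ n) y < ρ := h2
    rw [← hg y hy] at h3
    exact (dist_le_pi_dist (fun l => z l ^ n) (fun l => z l ^ g y) l).trans h3.le
  · rw [sub_sub_cancel]
    exact hL y hy

end Pool.Agent.LSQ
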