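import Pool.Agent.LSQ.Targets
import Pool.Agent.Ind3.Final

set_option autoImplicit false

/-!
# LSQ-GNR: without torsion the Bohr sets generate `ℤ`
-/

open MeasureTheory Filter Topology Finset

namespace Pool.Agent.LSQ

open Pool.Agent.FSP Pool.Agent.Ind3 Pool.Agent.CRk

/-- Distance of the vector of the powers to `1`. -/
noncomputable def GNR_D {ι : Type} [Fintype ι] (z : ι → Circle) (y : ℕ) : ℝ :=
  ‖fun l : ι => (z l : ℂ) ^ y - 1‖

theorem GNR_D_nonneg {ι : Type} [Fintype ι] (z : ι → Circle) (y : ℕ) : 0 ≤ GNR_D z y :=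
  norm_nonneg _

theorem GNR_D_le {ι : Type} [Fintype ι] (z : ι → Circle) (y : ℕ) (r : ℝ) (hr : 0 ≤ r) :
    GNR_D z y ≤ r ↔ ∀ l, ‖(z l : ℂ) ^ y - 1‖ ≤ r :=
  pi_norm_le_iff_of_nonneg hr

theorem GNR_D_add {ι : Type} [Fintype ι] (z : ι → Circle) (y h : ℕ) :
    |GNR_D z (y + h) - GNR_D z y| ≤ GNR_D z h := by
  unfold GNR_D
  refine le_trans (abs_norm_sub_norm_le _ _) ?_
  rw [pi_norm_le_iff_of_nonneg (norm_nonneg _)]
  intro l
  have h1 : ((fun l : ι => (z l : ℂ) ^ (y + h) - 1) - fun l : ι => (z l : ℂ) ^ y - 1) l =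
      (z l : ℂ) ^ y * ((z l : ℂ) ^ h - 1) := by
    rw [Pi.sub_apply]; ring
  rw [h1, norm_mul, norm_pow, Circle.norm_coe, one_pow, one_mul]
  exact norm_le_pi_norm (fun l : ι => (z l : ℂ) ^ h - 1) l

/-- The bump. -/
noncomputable def GNR_p {ι : Type} [Fintype ι] (z : ι → Circle) (ρ : ℝ) (y : ℕ) : ℝ :=
  max 0 (1 - (2 / ρ) * GNR_D z y)

theorem GNR_p_nonneg {ι : Type} [Fintype ι] (z : ι → Circle) (ρ : ℝ) (y : ℕ) :
    0 ≤ GNR_p z ρ y := le_max_left _ _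

theorem GNR_p_le {ι : Type} [Fintype ι] (z : ι → Circle) (ρ : ℝ) (hρ : 0 < ρ) (y : ℕ) :
    |GNR_p z ρ y| ≤ 1 := by
  rw [abs_of_nonneg (GNR_p_nonneg z ρ y)]
  refine max_le zero_le_one ?_
  have : 0 ≤ (2 / ρ) * GNR_D z y := mul_nonneg (by positivity) (GNR_D_nonneg z y)
  linarith

theorem GNR_p_add {ι : Type} [Fintype ι] (z : ι → Circle) (ρ : ℝ) (hρ : 0 < ρ) (y h : ℕ) :
    |GNR_p z ρ (y + h) - GNR_p z ρ y| ≤ (2 / ρ) * GNR_D z h := by
  unfold GNR_p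
  have h1 : |max 0 (1 - (2 / ρ) * GNR_D z (y + h)) - max 0 (1 - (2 / ρ) * GNR_D z y)| ≤
      |(1 - (2 / ρ) * GNR_D z (y + h)) - (1 - (2 / ρ) * GNR_D z y)| := by
    rw [max_comm 0, max_comm 0]
    exact abs_max_sub_max_le_abs _ _ 0
  refine le_trans h1 ?_
  have h2 : (1 - (2 / ρ) * GNR_D z (y + h)) - (1 - (2 / ρ) * GNR_D z y) =
      -((2 / ρ) * (GNR_D z (y + h) - GNR_D z y)) := by ring
  rw [h2, abs_neg, abs_mul, abs_of_pos (by positivity : 0 < 2 / ρ)]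
  exact mul_le_mul_of_nonneg_left (GNR_D_add z y h) (by positivity)

theorem GNR_p_supp {ι : Type} [Fintype ι] (z : ι → Circle) (ρ : ℝ) (hρ : 0 < ρ) (y : ℕ)
    (h : GNR_p z ρ y ≠ 0) : (y : ℤ) ∈ BZ z ρ := by
  have h1 : 0 < 1 - (2 / ρ) * GNR_D z y := by
    by_contra hc
    exact h (max_eq_left (not_lt.mp hc))
  have h2 : GNR_D z y ≤ ρ := by
    have h3 : (2 / ρ) * GNR_D z y < 1 := by linarith
    rw [div_mul_eq_mul_div, div_lt_one hρ] at h3
    have := GNR_D_nonneg z y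
    linarith
  intro l
  have h3 := (GNR_D_le z y ρ hρ.le).mp h2 l
  rw [zpow_natCast]
  rwa [Circle.coe_pow]

theorem GNR_p_half {ι : Type} [Fintype ι] (z : ι → Circle) (ρ : ℝ) (hρ : 0 < ρ) (y : ℕ)
    (h : (y : ℤ) ∈ BZ z (ρ / 4)) : 1 / 2 ≤ GNR_p z ρ y := by
  have h2 : GNR_D z y ≤ ρ / 4 := by
    rw [GNR_D_le z y (ρ / 4) (by positivity)]
    intro l
    have h3 := h l
    rw [zpow_natCast] at h3
    rwa [Circle.coe_pow] at h3
  refine le_trans ?_ (le_max_right _ _)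
  have h3 : (2 / ρ) * GNR_D z y ≤ (2 / ρ) * (ρ / 4) :=
    mul_le_mul_of_nonneg_left h2 (by positivity)
  have h4 : (2 / ρ) * (ρ / 4) = 1 / 2 := by field_simp; norm_num
  linarith

theorem GNR_sum {ι : Type} [Fintype ι] (z : ι → Circle) (ρ : ℝ) (hρ : 0 < ρ) (L : ℕ)
    (hL : ∀ n : ℤ, ∃ k ∈ BZ z (ρ / 4), |n - k| ≤ (L : ℤ)) (M : ℕ) :
    (M : ℝ) / 2 ≤ ∑ n ∈ range ((2 * L + 1) * M), GNR_p z ρ n := by
  induction M with
  | zero => simp
  | succ M ih =>
      rw [Nat.mul_succ, Finset.sum_range_add]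
      obtain ⟨k, hk, hk'⟩ := hL ((((2 * L + 1) * M + L : ℕ)) : ℤ)
      rw [abs_le] at hk'
      obtain ⟨i, hi⟩ : ∃ i : ℕ, k = (((2 * L + 1) * M + i : ℕ) : ℤ) := by
        refine ⟨(k - ((2 * L + 1) * M : ℕ)).toNat, ?_⟩
        have h1 : 0 ≤ k - ((2 * L + 1) * M : ℕ) := by
          have := hk'.2
          push_cast at this ⊢
          linarith
        rw [Nat.cast_add, Int.toNat_of_nonneg h1]
        ring
      have hi' : i < 2 * L + 1 := by
        have := hk'.1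
        rw [hi] at this
        push_cast at this
        have h2 : (i : ℤ) < 2 * L + 1 := by linarith
        exact_mod_cast h2
      have h3 : GNR_p z ρ ((2 * L + 1) * M + i) ≤
          ∑ n ∈ range (2 * L + 1), GNR_p z ρ ((2 * L + 1) * M + n) :=
        Finset.single_le_sum (f := fun n => GNR_p z ρ ((2 * L + 1) * M + n))
          (fun n _ => GNR_p_nonneg z ρ _) (Finset.mem_range.mpr hi')
      have h4 : 1 / 2 ≤ GNR_p z ρ ((2 * L + 1) * M + i) := by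
        apply GNR_p_half z ρ hρ
        rw [← hi]
        exact hk
      push_cast
      linarith

theorem GNR_core {ι : Type} [Fintype ι] (z : ι → Circle) (ρ : ℝ) (hρ : 0 < ρ) (hT : TF0 z)
    (hG : ∀ r : ℝ, 0 < r → ∃ L : ℕ, ∀ n : ℤ, ∃ k ∈ BZ z r, |n - k| ≤ (L : ℤ)) (m : ℕ)
    (hm : 2 ≤ m) (hd : ∀ y : ℕ, (y : ℤ) ∈ BZ z ρ → m ∣ y) : False := by
  classical
  have hm0 : (m : ℝ) ≠ 0 := by
    have : m ≠ 0 := by omega
    exact_mod_cast this
  set χ : Circle := Circle.exp (2 * Real.pi / m) with hχ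
  have hχm : χ ^ m = 1 := by
    have h1 : (χ : ℂ) ^ m = 1 := by
      rw [hχ, Circle.coe_exp, ← Complex.exp_nat_mul]
      have h2 : (m : ℂ) ≠ 0 := by exact_mod_cast hm0
      have h3 : (m : ℂ) * (((2 * Real.pi / m : ℝ) : ℂ) * Complex.I) =
          2 * Real.pi * Complex.I := by
        push_cast
        field_simp
      rw [h3, Complex.exp_two_pi_mul_I]
    apply Circle.ext
    rw [Circle.coe_pow, h1, Circle.coe_one]
  have hχ1 : χ ≠ 1 := by
    intro h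
    rw [hχ, Circle.exp_eq_one] at h
    obtain ⟨n, hn⟩ := h
    have hpi := Real.pi_pos
    have h1 : (1 : ℝ) = n * m := by
      field_simp at hn
      nlinarith
    have h2 : (1 : ℤ) = n * m := by exact_mod_cast h1
    have h3 : (m : ℤ) ∣ 1 := ⟨n, by rw [h2]; ring⟩
    have h4 := Int.le_of_dvd one_pos h3
    omega
  have hχc : χ ∉ Subgroup.closure ((Finset.univ.image z : Finset Circle) : Set Circle) := by
    intro h
    rw [Finset.coe_image, Finset.coe_univ, Set.image_univ] at h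
    obtain ⟨a, ha⟩ := Subgroup.exists_of_mem_closure_range z χ h
    have h1 := hT a m (by omega) (by rw [← ha]; exact hχm)
    exact hχ1 (by rw [ha]; exact h1)
  obtain ⟨L, hL⟩ := hG (ρ / 4) (by positivity)
  set c : ℝ := 1 / (2 * (2 * L + 1)) with hc
  have hcpos : 0 < c := by positivity
  obtain ⟨N₀, hN₀⟩ := f_DE1 χ 1 (ρ * (c / 4) / 2) (Finset.univ.image z) le_rfl (by positivity)
    (by rw [pow_one]; exact hχc) (c / 4) (by positivity)
  have hM : N₀ ≤ (2 * L + 1) * (N₀ + 1) := by nlinarith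
  have h1 := hN₀ _ hM 0 (GNR_p z ρ) (c / 4) (by positivity) (by
    refine ⟨GNR_p_le z ρ hρ, fun y h _ hh => ?_⟩
    rw [one_mul]
    refine le_trans (GNR_p_add z ρ hρ y h) ?_
    have h2 : GNR_D z h ≤ ρ * (c / 4) / 2 := by
      rw [GNR_D_le z h _ (by positivity)]
      intro l
      exact hh _ (Finset.mem_image_of_mem z (Finset.mem_univ l))
    calc (2 / ρ) * GNR_D z h ≤ (2 / ρ) * (ρ * (c / 4) / 2) :=
          mul_le_mul_of_nonneg_left h2 (by positivity)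
      _ = c / 4 := by field_simp)
  have h2 : ∀ n : ℕ, (χ : ℂ) ^ (0 + n) * ((GNR_p z ρ (0 + n) : ℝ) : ℂ) =
      ((GNR_p z ρ n : ℝ) : ℂ) := by
    intro n
    rw [zero_add]
    by_cases hn : GNR_p z ρ n = 0
    · rw [hn]; simp
    · obtain ⟨t, ht⟩ := hd n (GNR_p_supp z ρ hρ n hn)
      have h3 : (χ : ℂ) ^ n = 1 := by
        rw [ht, pow_mul, ← Circle.coe_pow, hχm, Circle.coe_one, one_pow]
      rw [h3, one_mul]
  rw [Finset.sum_congr rfl fun n _ => h2 n, ← Complex.ofReal_sum, norm_mul, norm_inv,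
    Complex.norm_natCast, Complex.norm_real, Real.norm_eq_abs,
    abs_of_nonneg (Finset.sum_nonneg fun n _ => GNR_p_nonneg z ρ n)] at h1
  have h3 := GNR_sum z ρ hρ L hL (N₀ + 1)
  set S := ∑ n ∈ range ((2 * L + 1) * (N₀ + 1)), GNR_p z ρ n
  have hMpos : (0 : ℝ) < (((2 * L + 1) * (N₀ + 1) : ℕ) : ℝ) := by positivity
  rw [inv_mul_le_iff₀ hMpos] at h1
  have h4 : (((2 * L + 1) * (N₀ + 1) : ℕ) : ℝ) * (c / 4 + c / 4) = ((N₀ + 1 : ℕ) : ℝ) / 4 := by
    rw [hc]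
    push_cast
    field_simp
    ring
  rw [h4] at h1
  have h5 : (0 : ℝ) < ((N₀ + 1 : ℕ) : ℝ) := by positivity
  linarith

theorem p_GNR (hGAP : T_GAP) : T_GNR := by
  intro ι _ z ρ hρ hT
  obtain ⟨a, ha⟩ := Int.subgroup_cyclic (AddSubgroup.closure (BZ z ρ))
  have hd : ∀ k ∈ BZ z ρ, a ∣ k := by
    intro k hk
    have h1 : k ∈ AddSubgroup.closure (BZ z ρ) := AddSubgroup.subset_closure hk
    rw [ha, AddSubgroup.mem_closure_singleton] at h1
    obtain ⟨n, hn⟩ := h1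
    exact ⟨n, by rw [← hn, smul_eq_mul]; ring⟩
  have ha0 : a ≠ 0 := by
    intro h0
    obtain ⟨L, hL⟩ := hGAP ι z ρ hρ
    obtain ⟨k, hk, hk'⟩ := hL (L + 1)
    have h1 := hd k hk
    rw [h0, zero_dvd_iff] at h1
    rw [h1, sub_zero, abs_of_nonneg (by positivity)] at hk'
    omega
  rcases Nat.lt_or_ge a.natAbs 2 with h | h
  · have h1 : a = 1 ∨ a = -1 := by omega
    rw [ha, eq_top_iff]
    intro x _
    rw [AddSubgroup.mem_closure_singleton]
    rcases h1 with h1 | h1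
    · exact ⟨x, by rw [h1]; simp⟩
    · exact ⟨-x, by rw [h1]; simp⟩
  · exact (GNR_core z ρ hρ hT (fun r hr => hGAP ι z r hr) a.natAbs h (fun y hy => by
      have := hd _ hy
      rwa [← Int.natAbs_dvd_natAbs, Int.natAbs_natCast] at this)).elim

end Pool.Agent.LSQ
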