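import Pool.Agent.LSQ.Targets
import Pool.Agent.CRk.P_GTM

set_option autoImplicit false

/-!
# LSQ, target GTL: a relatively weakly mixing function does not contribute.
-/

open MeasureTheory Filter Topology Finset

namespace Pool.Agent.LSQ

open Pool.Agent.FSP Pool.Agent.Ind3 Pool.Agent.CRk

universe u

namespace GTL_

variable {Ω : Type u} [MeasurableSpace Ω]

theorem integrable_avg3 {μ : Measure Ω} (N : ℕ) (F : (Fin 3 → ℕ) → Ω → ℝ)
    (hF : ∀ y, Integrable (F y) μ) : Integrable (fun x => avg3 N (fun y => F y x)) μ := by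
  unfold avg3 mean
  refine (integrable_finsetSum _ fun a _ => ?_).const_mul _
  refine (integrable_finsetSum _ fun b _ => ?_).const_mul _
  exact (integrable_finsetSum _ fun c _ => hF _).const_mul _

/-- The estimate for one role `l`, from the van der Corput estimate for `(Q l)^[q]`. -/
theorem core {μ : Measure Ω} [IsProbabilityMeasure μ] {Q : Fin 3 → Ω → Ω}
    (X : Set Ω) (hQ : ∀ l, Measurable (Q l)) (q : ℕ) (f : Fin 3 → Ω → ℝ)
    (hf : ∀ l, Measurable (f l)) (hf1 : ∀ l x, |f l x| ≤ 1) (l i j : Fin 3)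
    (hp : ∀ G : Fin 3 → ℝ, ∏ k, G k = G l * G i * G j) (ti tj : ℕ → ℕ → ℕ)
    (hti : ∀ y, tm i y = ti (y l) (y j)) (htj : ∀ y, tm j y = tj (y l) (y i))
    (hG : GW μ (Q l)^[q] l i j (f l)) (ε : ℝ) (hε : 0 < ε) :
    ∃ H : ℕ, 0 < H ∧ ∃ L₀ : ℕ, ∀ L ≥ L₀,
      |∫ x in X, avg3 (H * L) (fun y => ∏ k, f k ((Q k)^[q * tm k y] x)) ∂μ| ≤ ε := by
  obtain ⟨H, hH, L₀, hL⟩ := hG 1 ε hε
  refine ⟨H, hH, L₀, fun L hLL => ?_⟩
  have key := hL L hLL (fun a b x => f j ((Q j)^[q * tj a b] x))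
    (fun a c x => f i ((Q i)^[q * ti a c] x))
    (fun a b => (hf j).comp ((hQ j).iterate _)) (fun a c => (hf i).comp ((hQ i).iterate _))
    (fun a b x => hf1 j _) (fun a c x => hf1 i _)
  have hE : ∀ (x : Ω) (y : Fin 3 → ℕ), ∏ k, f k ((Q k)^[q * tm k y] x) =
      f j ((Q j)^[q * tj (y l) (y i)] x) * f i ((Q i)^[q * ti (y l) (y j)] x) *
        f l (((Q l)^[q])^[tm l y] x) := by
    intro x y
    rw [hp, hti y, htj y, Function.iterate_mul (Q l) q]
    ring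
  simp only [← hE] at key
  have hI : Integrable (fun x => avg3 (H * L)
      (fun y => ∏ k, f k ((Q k)^[q * tm k y] x))) μ := by
    refine integrable_avg3 (H * L) (fun y x => ∏ k, f k ((Q k)^[q * tm k y] x)) fun y => ?_
    refine Integrable.of_bound (Measurable.aestronglyMeasurable
      (Finset.measurable_prod _ fun k _ => (hf k).comp ((hQ k).iterate _))) 1
      (ae_of_all _ fun x => ?_)
    rw [Real.norm_eq_abs, Finset.abs_prod]
    exact Finset.prod_le_one (fun k _ => abs_nonneg _) fun k _ => hf1 k _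
  exact (abs_integral_le_integral_abs.trans
    (setIntegral_le_integral hI.abs (ae_of_all _ fun x => abs_nonneg _))).trans key

theorem gv_iter {μ : Measure Ω} {B P : Ω → Ω} {g : Ω → ℝ} (h : GV μ B P g) (q : ℕ)
    (hq : 1 ≤ q) : GV μ B^[q] P^[q] g := by
  intro q' W ε hq' hε
  obtain ⟨H, hH, L₀, hL⟩ := h (q * q') W ε (Nat.mul_pos hq hq') hε
  refine ⟨H, hH, L₀, fun L hLL s s' u v hu hv hu1 hv1 => ?_⟩
  have h1 := hL L hLL s s' u v hu hv hu1 hv1
  simpa only [← Function.iterate_mul, ← mul_assoc] using h1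

omit [MeasurableSpace Ω] in
theorem two_iter (Q : Ω → Ω) (n : ℕ) : (Q ∘ Q)^[n] = Q^[n] ∘ Q^[n] := by
  have h : (Q ∘ Q)^[n] = Q^[2 * n] := by
    rw [Function.iterate_mul]
    rfl
  rw [h, two_mul, Function.iterate_add]

omit [MeasurableSpace Ω] in
theorem id2 (Q : Ω → Ω) (q a b : ℕ) (x : Ω) :
    (Q^[q])^[2 * a + b] x = ((Q ∘ Q)^[q])^[a] ((Q^[q])^[b] x) := by
  rw [two_iter Q q, two_iter (Q^[q]) a, Function.iterate_add_apply, two_mul,
    Function.iterate_add_apply]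
  rfl

omit [MeasurableSpace Ω] in
theorem id0 (Q Q' : Ω → Ω) (h : ∀ x, Q (Q' x) = x) (q a b : ℕ) (hab : b ≤ 2 * a) (x : Ω) :
    (Q^[q])^[2 * a - b] x = ((Q ∘ Q)^[q])^[a] ((Q'^[q])^[b] x) := by
  have h0 : Function.LeftInverse Q^[q] Q'^[q] := Function.LeftInverse.iterate h q
  have h1 : Function.LeftInverse (Q^[q])^[b] (Q'^[q])^[b] := Function.LeftInverse.iterate h0 b
  obtain ⟨c, hc⟩ := Nat.exists_eq_add_of_le hab
  have h2 : ((Q ∘ Q)^[q])^[a] ((Q'^[q])^[b] x) = (Q^[q])^[2 * a] ((Q'^[q])^[b] x) :=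
    (id2 Q q a 0 _).symm
  rw [h2, hc, Nat.add_sub_cancel_left, Nat.add_comm b c, Function.iterate_add_apply, h1 x]

end GTL_

/-- Target GTL. -/
theorem p_GTL : T_GTL.{u} := by
  intro Ω _ μ _ Q Q' hQ hQ' hl hr X _ q hq f hf hf1 l hR ε hε
  have hQm : ∀ k, Measurable (Q k) := fun k => (hQ k).measurable
  have hQm' : ∀ k, Measurable (Q' k) := fun k => (hQ' k).measurable
  have hl3 : l = 0 ∨ l = 1 ∨ l = 2 := by
    fin_cases l <;> simp
  rcases hl3 with rfl | rfl | rfl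
  · refine GTL_.core X hQm q f hf hf1 0 2 1 (fun G => ?_)
      (fun a b => 2 * a + b) (fun a b => a + b) (fun y => rfl) (fun y => rfl)
      (p_GTM Ω μ (Q 0)^[q] (Q 0 ∘ Q 0)^[q] (Q' 0)^[q] ((hQm 0).iterate q)
        (((hQm 0).comp (hQm 0)).iterate q) ((hQm' 0).iterate q) 0 2 1
        (by decide) (by decide) (by decide) (f 0) (hf 0) (hf1 0) (fun y hy x => ?_)
        (GTL_.gv_iter (f_GVQ Ω μ (Q 0) (Q' 0) _ _ (hQ 0) (hQ' 0) (hl 0) (hr 0)
          (Or.inr (Or.inl ⟨rfl, rfl⟩)) (f 0) (hf 0) (hf1 0) hR) q hq)) ε hε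
    · rw [Fin.prod_univ_three]
      ring
    · exact GTL_.id0 (Q 0) (Q' 0) (hr 0) q (y 2) (y 1) hy x
  · refine GTL_.core X hQm q f hf hf1 1 0 2 (fun G => ?_)
      (fun a b => 2 * b - a) (fun a b => 2 * b + a) (fun y => rfl) (fun y => rfl)
      (p_GTM Ω μ (Q 1)^[q] (Q 1)^[q] (Q 1)^[q] ((hQm 1).iterate q)
        ((hQm 1).iterate q) ((hQm 1).iterate q) 1 0 2
        (by decide) (by decide) (by decide) (f 1) (hf 1) (hf1 1) (fun y hy x => ?_)
        (GTL_.gv_iter (f_GVQ Ω μ (Q 1) (Q' 1) _ _ (hQ 1) (hQ' 1) (hl 1) (hr 1)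
          (Or.inl ⟨rfl, rfl⟩) (f 1) (hf 1) (hf1 1) hR) q hq)) ε hε
    · rw [Fin.prod_univ_three]
      ring
    · exact Function.iterate_add_apply (Q 1)^[q] (y 0) (y 2) x
  · refine GTL_.core X hQm q f hf hf1 2 0 1 (fun G => ?_)
      (fun a b => 2 * a - b) (fun a b => b + a) (fun y => rfl) (fun y => rfl)
      (p_GTM Ω μ (Q 2)^[q] (Q 2 ∘ Q 2)^[q] (Q 2)^[q] ((hQm 2).iterate q)
        (((hQm 2).comp (hQm 2)).iterate q) ((hQm 2).iterate q) 2 0 1
        (by decide) (by decide) (by decide) (f 2) (hf 2) (hf1 2) (fun y hy x => ?_)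
        (GTL_.gv_iter (f_GVQ Ω μ (Q 2) (Q' 2) _ _ (hQ 2) (hQ' 2) (hl 2) (hr 2)
          (Or.inr (Or.inr ⟨rfl, rfl⟩)) (f 2) (hf 2) (hf1 2) hR) q hq)) ε hε
    · rw [Fin.prod_univ_three]
      ring
    · exact GTL_.id2 (Q 2) q (y 0) (y 1) x

end Pool.Agent.LSQ
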