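import Pool.Agent.LSQ.Targets

set_option autoImplicit false

/-!
# LSQ, target IVZ: intermediate values
-/

open MeasureTheory Filter Topology Finset

namespace Pool.Agent.LSQ

namespace IVZ_

theorem mz_sub {N : ℕ} {s : ℤ} {F G : ℤ → ℝ} {δ : ℝ} (hδ : 0 ≤ δ)
    (h : ∀ a, |F a - G a| ≤ δ) : |mz N s F - mz N s G| ≤ δ := by
  unfold mz
  rw [← mul_sub, ← Finset.sum_sub_distrib, abs_mul, abs_of_nonneg (by positivity)]
  have h1 : |∑ n ∈ range N, (F (s + n) - G (s + n))| ≤ N * δ := by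
    refine (Finset.abs_sum_le_sum_abs _ _).trans ?_
    refine (Finset.sum_le_card_nsmul _ _ δ (fun n _ => h _)).trans ?_
    simp
  rcases Nat.eq_zero_or_pos N with h0 | h0
  · subst h0
    simpa using hδ
  · have hN : (0 : ℝ) < N := by exact_mod_cast h0
    calc (N : ℝ)⁻¹ * |∑ n ∈ range N, (F (s + n) - G (s + n))| ≤ (N : ℝ)⁻¹ * (N * δ) := by
          gcongr
      _ = δ := by field_simp

theorem mz_smul (N : ℕ) (s : ℤ) (F : ℤ → ℝ) (h : ℝ) :
    mz N s (fun a => F a * h) = mz N s F * h := by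
  unfold mz
  rw [← Finset.sum_mul, mul_assoc]

theorem mean_mz (N E : ℕ) (s : ℤ) (F H : ℤ → ℝ) :
    (E : ℝ)⁻¹ * ∑ e ∈ range E, mz N s (fun a => F a * H (a + (e : ℕ))) =
      mz N s (fun a => F a * mz E a H) := by
  unfold mz
  rw [← Finset.mul_sum, Finset.sum_comm, ← mul_assoc, mul_comm (E : ℝ)⁻¹ (N : ℝ)⁻¹, mul_assoc,
    Finset.mul_sum]
  congr 1
  refine Finset.sum_congr rfl fun n _ => ?_
  rw [← Finset.mul_sum]
  ring

/-- the products are almost periodic -/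
theorem prod_AZ {B : Set ℤ} {ε : ℝ} {F H : ℤ → ℝ} (hF : AZ B ε F) (hH : AZ B ε H) (e : ℤ) :
    AZ B (2 * ε) (fun a => F a * H (a + e)) := by
  obtain ⟨f1, f2⟩ := hF
  obtain ⟨h1, h2⟩ := hH
  refine ⟨fun a => ⟨mul_nonneg (f1 a).1 (h1 _).1, mul_le_one₀ (f1 a).2 (h1 _).1 (h1 _).2⟩,
    fun a k hk => ?_⟩
  have e1 := f2 a k hk
  have e2 := h2 (a + e) k hk
  have e3 : a + k + e = a + e + k := by ring
  show |F (a + k) * H (a + k + e) - F a * H (a + e)| ≤ 2 * ε
  rw [e3]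
  have e4 : F (a + k) * H (a + e + k) - F a * H (a + e) =
      (F (a + k) - F a) * H (a + e + k) + F a * (H (a + e + k) - H (a + e)) := by ring
  rw [e4]
  refine (abs_add_le _ _).trans ?_
  rw [abs_mul, abs_mul, abs_of_nonneg (h1 _).1, abs_of_nonneg (f1 a).1]
  have i1 : |F (a + k) - F a| * H (a + e + k) ≤ ε * 1 :=
    mul_le_mul e1 (h1 _).2 (h1 _).1 ((abs_nonneg _).trans e1)
  have i2 : F a * |H (a + e + k) - H (a + e)| ≤ 1 * ε :=
    mul_le_mul (f1 a).2 e2 (abs_nonneg _) zero_le_one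
  linarith

/-- one step changes the value by at most `13 ε` -/
theorem step {B : Set ℤ} {ε : ℝ} (hε : 0 < ε) {F H : ℤ → ℝ} (hF : AZ B ε F) (hH : AZ B ε H)
    {φ : ℤ → ℝ} (hφ : ∀ e, UM (6 * ε) (φ e) (fun a => F a * H (a + e))) (e k : ℤ) (hk : k ∈ B) :
    |φ (e + k) - φ e| ≤ 13 * ε := by
  obtain ⟨N1, h1⟩ := hφ (e + k)
  obtain ⟨N2, h2⟩ := hφ e
  have a1 := h1 (max N1 N2) (le_max_left _ _) 0
  have a2 := h2 (max N1 N2) (le_max_right _ _) 0
  have a3 : |mz (max N1 N2) 0 (fun a => F a * H (a + (e + k))) -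
      mz (max N1 N2) 0 (fun a => F a * H (a + e))| ≤ ε := by
    refine mz_sub hε.le fun a => ?_
    rw [← mul_sub, abs_mul, abs_of_nonneg (hF.1 a).1, ← add_assoc]
    have := hH.2 (a + e) k hk
    have i2 : F a * |H (a + e + k) - H (a + e)| ≤ 1 * ε :=
      mul_le_mul (hF.1 a).2 this (abs_nonneg _) zero_le_one
    linarith
  rw [abs_le] at a1 a2 a3 ⊢
  constructor <;> linarith [a1.1, a1.2, a2.1, a2.2, a3.1, a3.2]

/-- the mean of the values over `e < E` -/
theorem mean_close {B : Set ℤ} {ε : ℝ} (hε : 0 < ε) {F H : ℤ → ℝ} (hF : AZ B ε F)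
    {f h : ℝ} (h0 : 0 ≤ h) (h1 : h ≤ 1) (hf : UM (3 * ε) f F) (hh : UM (3 * ε) h H)
    {φ : ℤ → ℝ} (hφ : ∀ e, UM (6 * ε) (φ e) (fun a => F a * H (a + e))) :
    ∃ E : ℕ, 0 < E ∧ |(E : ℝ)⁻¹ * ∑ e ∈ range E, φ (e : ℕ) - f * h| ≤ 12 * ε := by
  obtain ⟨E0, hE⟩ := hh
  obtain ⟨Nf, hNf⟩ := hf
  choose N0 hN0 using hφ
  set E := max E0 1 with hEdef
  have hEpos : 0 < E := lt_of_lt_of_le one_pos (le_max_right _ _)
  have hEr : (0 : ℝ) < E := by exact_mod_cast hEpos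
  set N := max Nf (∑ e ∈ range E, N0 (e : ℕ)) with hNdef
  have hN1 : ∀ e ∈ range E, N0 ((e : ℕ) : ℤ) ≤ N := by
    intro e he
    refine le_trans ?_ (le_max_right _ _)
    exact Finset.single_le_sum (f := fun e : ℕ => N0 ((e : ℕ) : ℤ)) (fun _ _ => Nat.zero_le _) he
  have b1 : |mz N 0 F - f| ≤ 3 * ε := hNf N (le_max_left _ _) 0
  have b2 : |mz N 0 (fun a => F a * mz E a H) - mz N 0 (fun a => F a * h)| ≤ 3 * ε := by
    refine mz_sub (by linarith) fun a => ?_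
    rw [← mul_sub, abs_mul, abs_of_nonneg (hF.1 a).1]
    have := hE E (le_max_left _ _) a
    have i2 : F a * |mz E a H - h| ≤ 1 * (3 * ε) :=
      mul_le_mul (hF.1 a).2 this (abs_nonneg _) zero_le_one
    linarith
  have b3 : |mz N 0 (fun a => F a * h) - f * h| ≤ 3 * ε := by
    rw [mz_smul, ← sub_mul, abs_mul, abs_of_nonneg h0]
    have i2 : |mz N 0 F - f| * h ≤ (3 * ε) * 1 := mul_le_mul b1 h1 h0 (by linarith)
    linarith
  have b4 : |(E : ℝ)⁻¹ * ∑ e ∈ range E, φ (e : ℕ) -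
      (E : ℝ)⁻¹ * ∑ e ∈ range E, mz N 0 (fun a => F a * H (a + (e : ℕ)))| ≤ 6 * ε := by
    rw [← mul_sub, ← Finset.sum_sub_distrib, abs_mul, abs_of_nonneg (by positivity)]
    have c1 : |∑ e ∈ range E, (φ (e : ℕ) - mz N 0 (fun a => F a * H (a + (e : ℕ))))| ≤
        E * (6 * ε) := by
      refine (Finset.abs_sum_le_sum_abs _ _).trans ?_
      refine (Finset.sum_le_card_nsmul _ _ (6 * ε) (fun e he => ?_)).trans ?_
      · rw [abs_sub_comm]
        exact hN0 _ N (hN1 e he) 0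
      · simp
    calc (E : ℝ)⁻¹ * |∑ e ∈ range E, (φ (e : ℕ) - mz N 0 (fun a => F a * H (a + (e : ℕ))))|
        ≤ (E : ℝ)⁻¹ * (E * (6 * ε)) := by gcongr
      _ = 6 * ε := by field_simp
  rw [mean_mz] at b4
  refine ⟨E, hEpos, ?_⟩
  rw [abs_le] at b2 b3 b4 ⊢
  constructor <;> linarith [b2.1, b2.2, b3.1, b3.2, b4.1, b4.2]

/-- some value is at most the mean and some value is at least the mean -/
theorem exists_le_mean (E : ℕ) (hE : 0 < E) (φ : ℤ → ℝ) (m δ : ℝ)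
    (h : |(E : ℝ)⁻¹ * ∑ e ∈ range E, φ (e : ℕ) - m| ≤ δ) :
    (∃ e : ℤ, φ e ≤ m + δ) ∧ ∃ e : ℤ, m - δ ≤ φ e := by
  have hEr : (0 : ℝ) < E := by exact_mod_cast hE
  rw [abs_le] at h
  constructor
  · by_contra hcon
    push Not at hcon
    have h1 : ∑ _e ∈ range E, (m + δ) < ∑ e ∈ range E, φ (e : ℕ) :=
      Finset.sum_lt_sum_of_nonempty (Finset.nonempty_range_iff.mpr hE.ne')
        (fun e _ => hcon (e : ℕ))
    rw [Finset.sum_const, Finset.card_range, nsmul_eq_mul] at h1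
    have h2 : (E : ℝ)⁻¹ * (E * (m + δ)) < (E : ℝ)⁻¹ * ∑ e ∈ range E, φ (e : ℕ) :=
      mul_lt_mul_of_pos_left h1 (by positivity)
    rw [← mul_assoc, inv_mul_cancel₀ hEr.ne', one_mul] at h2
    linarith [h.2]
  · by_contra hcon
    push Not at hcon
    have h1 : ∑ e ∈ range E, φ (e : ℕ) < ∑ _e ∈ range E, (m - δ) :=
      Finset.sum_lt_sum_of_nonempty (Finset.nonempty_range_iff.mpr hE.ne')
        (fun e _ => hcon (e : ℕ))
    rw [Finset.sum_const, Finset.card_range, nsmul_eq_mul] at h1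
    have h2 : (E : ℝ)⁻¹ * ∑ e ∈ range E, φ (e : ℕ) < (E : ℝ)⁻¹ * (E * (m - δ)) :=
      mul_lt_mul_of_pos_left h1 (by positivity)
    rw [← mul_assoc, inv_mul_cancel₀ hEr.ne', one_mul] at h2
    linarith [h.1]

/-- a set of integers stable under the steps in `B` in both directions is stable under
the group generated by `B` -/
theorem stable {B : Set ℤ} {S : Set ℤ} (hS : ∀ k ∈ B, ∀ e, e ∈ S ↔ e + k ∈ S)
    (hB : AddSubgroup.closure B = ⊤) (k e : ℤ) : e ∈ S ↔ e + k ∈ S := by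
  have hk : k ∈ AddSubgroup.closure B := by
    rw [hB]
    exact AddSubgroup.mem_top k
  revert e
  induction hk using AddSubgroup.closure_induction with
  | mem x hx => exact hS x hx
  | zero => intro e; rw [add_zero]
  | add x y _ _ h1 h2 =>
    intro e
    have h3 := h2 (e + x)
    rw [add_assoc] at h3
    exact (h1 e).trans h3
  | neg x _ h1 =>
    intro e
    have h3 := h1 (e + -x)
    rw [neg_add_cancel_right] at h3
    exact h3.symm

end IVZ_

open IVZ_ in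
theorem p_IVZ : T_GNR → T_UME → T_IVZ := by
  intro hG hU ι _ z ρ ε F H f h hρ hε hz hF hH hf0 hf1 hh0 hh1 hf hh
  have hex : ∀ e : ℤ, ∃ φ : ℝ, UM (6 * ε) φ (fun a => F a * H (a + e)) := by
    intro e
    obtain ⟨φ, -, -, h3⟩ := hU ι z ρ (2 * ε) (fun a => F a * H (a + e)) hρ (by linarith)
      (prod_AZ hF hH e)
    refine ⟨φ, ?_⟩
    have : 3 * (2 * ε) = 6 * ε := by ring
    rwa [this] at h3
  choose φ hφ using hex
  obtain ⟨E, hE, hmean⟩ := mean_close hε hF hh0 hh1 hf hh hφ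
  obtain ⟨⟨e1, he1⟩, ⟨e2, he2⟩⟩ := exists_le_mean E hE φ _ _ hmean
  by_contra hcon
  have hfar : ∀ e, 13 * ε < |φ e - f * h| := by
    intro e
    by_contra hle
    push Not at hle
    apply hcon
    refine ⟨e, ?_⟩
    obtain ⟨N0, hN0⟩ := hφ e
    refine ⟨N0, fun N hN s => ?_⟩
    have h1 := hN0 N hN s
    rw [abs_le] at h1 hle ⊢
    constructor <;> linarith [h1.1, h1.2, hle.1, hle.2]
  have hlt : ∀ e, φ e < f * h → φ e < f * h - 13 * ε := by
    intro e he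
    have := hfar e
    rw [abs_of_neg (by linarith)] at this
    linarith
  have hgt : ∀ e, ¬ φ e < f * h → f * h + 13 * ε < φ e := by
    intro e he
    have := hfar e
    rw [abs_of_nonneg (by linarith)] at this
    linarith
  have hS : ∀ k ∈ BZ z ρ, ∀ e, e ∈ {e : ℤ | φ e < f * h} ↔ e + k ∈ {e : ℤ | φ e < f * h} := by
    intro k hk e
    have h1 := step hε hF hH hφ e k hk
    rw [abs_le] at h1
    show φ e < f * h ↔ φ (e + k) < f * h
    constructor
    · intro h2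
      have := hlt e h2
      linarith [h1.2]
    · intro h2
      by_contra h3
      have := hgt e h3
      linarith [h1.1]
  have hst := stable hS (hG ι z ρ hρ hz) (e2 - e1) e1
  have hm1 : e1 ∈ {e : ℤ | φ e < f * h} := by
    show φ e1 < f * h
    by_contra h3
    have := hgt e1 h3
    linarith
  have hm2 : ¬ e2 ∈ {e : ℤ | φ e < f * h} := by
    intro h3
    have := hlt e2 h3
    linarith
  apply hm2
  have := hst.mp hm1
  rwa [add_sub_cancel] at this

end Pool.Agent.LSQ
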