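import Pool.Agent.LSQ.Targets

set_option autoImplicit false

/-!
# LSQ, target KIL: torsion of a finitely generated group of circle elements
-/

open Finset

namespace Pool.Agent.LSQ

namespace KIL_

variable {ι : Type} [Fintype ι]

/-- the monomial -/
noncomputable def mo (z : ι → Circle) (n : ι → ℤ) : Circle := ∏ l, z l ^ n l

theorem mo_zero (z : ι → Circle) : mo z 0 = 1 := by simp [mo]

theorem mo_add (z : ι → Circle) (a b : ι → ℤ) : mo z (a + b) = mo z a * mo z b := by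
  unfold mo
  rw [← Finset.prod_mul_distrib]
  exact Finset.prod_congr rfl fun l _ => zpow_add (z l) (a l) (b l)

theorem mo_neg (z : ι → Circle) (a : ι → ℤ) : mo z (-a) = (mo z a)⁻¹ := by
  have h := mo_add z a (-a)
  rw [add_neg_cancel, mo_zero] at h
  exact (inv_eq_of_mul_eq_one_right h.symm).symm

theorem mo_smul (z : ι → Circle) (c : ℤ) (a : ι → ℤ) : mo z (c • a) = mo z a ^ c := by
  unfold mo
  rw [← Finset.prod_zpow]
  refine Finset.prod_congr rfl fun l _ => ?_
  rw [← zpow_mul, Pi.smul_apply, smul_eq_mul, mul_comm]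

/-- the torsion exponents -/
noncomputable def tor (z : ι → Circle) : Submodule ℤ (ι → ℤ) where
  carrier := {n | ∃ m : ℕ, 1 ≤ m ∧ mo z n ^ m = 1}
  zero_mem' := ⟨1, le_rfl, by rw [mo_zero, one_pow]⟩
  add_mem' := by
    rintro a b ⟨m, hm, ha⟩ ⟨m', hm', hb⟩
    refine ⟨m * m', Nat.mul_pos hm hm', ?_⟩
    rw [mo_add, mul_pow, pow_mul, ha, one_pow, one_mul, mul_comm m m', pow_mul, hb, one_pow]
  smul_mem' := by
    rintro c a ⟨m, hm, ha⟩
    refine ⟨m, hm, ?_⟩
    rw [mo_smul, ← zpow_natCast, ← zpow_mul, mul_comm, zpow_mul, zpow_natCast, ha, one_zpow]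

theorem first (z : ι → Circle) : ∃ k : ℕ, 1 ≤ k ∧ Kil z k := by
  obtain ⟨S, hS⟩ := (IsNoetherian.noetherian (tor z) : (tor z).FG)
  have hmem : ∀ s ∈ S, ∃ m : ℕ, 1 ≤ m ∧ mo z s ^ m = 1 := by
    intro s hs
    have : s ∈ tor z := by rw [← hS]; exact Submodule.subset_span hs
    exact this
  choose! e he1 he2 using hmem
  have hpos : 0 < ∏ s ∈ S, e s := Finset.prod_pos fun s hs => he1 s hs
  refine ⟨∏ s ∈ S, e s, hpos, ?_⟩
  intro n m hm hn
  have hn' : n ∈ Submodule.span ℤ (S : Set (ι → ℤ)) := by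
    rw [hS]
    exact ⟨m, hm, hn⟩
  clear hn hm
  change mo z n ^ (∏ s ∈ S, e s) = 1
  induction hn' using Submodule.span_induction with
  | mem x hx =>
    obtain ⟨c, hc⟩ := Finset.dvd_prod_of_mem e (Finset.mem_coe.1 hx)
    rw [hc, pow_mul, he2 x hx, one_pow]
  | zero => rw [mo_zero, one_pow]
  | add x y _ _ hx hy => rw [mo_add, mul_pow, hx, hy, one_mul]
  | smul a x _ hx =>
    rw [mo_smul, ← zpow_natCast, ← zpow_mul, mul_comm, zpow_mul, zpow_natCast, hx, one_zpow]

end KIL_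

theorem p_KIL : T_KIL := by
  intro ι _ z
  refine ⟨KIL_.first z, ?_, ?_⟩
  · intro k c h n m hm hn
    rw [pow_mul, h n m hm hn, one_pow]
  · intro k hk h n m hm hn
    have e1 : ∏ l, (z l ^ k) ^ n l = (∏ l, z l ^ n l) ^ k := by
      rw [← Finset.prod_pow]
      refine Finset.prod_congr rfl fun l _ => ?_
      rw [← zpow_natCast, ← zpow_natCast, ← zpow_mul, ← zpow_mul, mul_comm]
    change (∏ l, (z l ^ k) ^ n l) ^ m = 1 at hn
    change ∏ l, (z l ^ k) ^ n l = 1
    rw [e1, ← pow_mul] at hn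
    rw [e1]
    exact h n (k * m) (Nat.mul_pos hk hm) hn

end Pool.Agent.LSQ
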