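import Pool.Agent.LSQ.Targets

/-!
# LSQ: target LSF, both cases
-/

set_option autoImplicit false

open MeasureTheory Filter Topology Finset

namespace Pool.Agent.LSQ

open Pool.Agent.FSP Pool.Agent.Ind3

universe u

theorem p_LSF : T_PJN.{u} → T_MAL.{u} → T_LSF.{u} := by
  intro hP hM Ω _ μ _ Q Q' hQ hQ' h1 h2 A hA hA0 hor
  rcases hor with h | ⟨θ, hθ, hB⟩
  · have hBig : Big μ Q A ((3 * μ.real A - 1) / 2) := by
      intro N₀
      have hlim : Tendsto (fun N : ℕ => (N : ℝ)⁻¹ * ∑ n ∈ range N, ∑ l,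
          μ.real (A ∩ (Q l)^[n] ⁻¹' A)) atTop
          (𝓝 (∑ l, ∫ x in A, ce μ (Q l) 1 (one A) x ∂μ)) := by
        have h3 : (fun N : ℕ => (N : ℝ)⁻¹ * ∑ n ∈ range N, ∑ l,
            μ.real (A ∩ (Q l)^[n] ⁻¹' A)) = fun N : ℕ => ∑ l, (N : ℝ)⁻¹ * ∑ n ∈ range N,
              μ.real (A ∩ (Q l)^[n] ⁻¹' A) := by
          funext N
          rw [Finset.sum_comm, Finset.mul_sum]
        rw [h3]
        exact tendsto_finsetSum _ fun l _ => (hP Ω μ (Q l) (hQ l) A hA).2.1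
      have hge : 3 * μ.real A ^ 2 ≤ ∑ l, ∫ x in A, ce μ (Q l) 1 (one A) x ∂μ := by
        rw [Fin.sum_univ_three]
        have h4 := fun l => (hP Ω μ (Q l) (hQ l) A hA).2.2.2
        linarith [h4 0, h4 1, h4 2]
      have hlt : (1 + (3 * μ.real A - 1) / 2) * μ.real A <
          ∑ l, ∫ x in A, ce μ (Q l) 1 (one A) x ∂μ := by
        refine lt_of_lt_of_le ?_ hge
        nlinarith
      obtain ⟨N, hN, hN0⟩ := ((hlim.eventually (lt_mem_nhds hlt)).and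
        (eventually_ge_atTop N₀)).exists
      exact ⟨N, hN0, hN.le⟩
    exact hM Ω μ Q Q' hQ hQ' h1 h2 A hA hA0 _ (by linarith) hBig
  · exact hM Ω μ Q Q' hQ hQ' h1 h2 A hA hA0 θ hθ hB

end Pool.Agent.LSQ
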