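import Pool.Agent.LSQ.Targets
import Pool.Agent.Ind3.Final

set_option autoImplicit false

/-!
# LSQ, MAL: the final inequality
-/

open MeasureTheory Filter Topology Finset

namespace Pool.Agent.LSQ

open Pool.Agent.FSP Pool.Agent.Ind3

universe u

namespace MAL_

theorem pt (C0 C1 C2 P0 P1 P2 : ℝ) (hC0 : 0 ≤ C0) (hC0' : C0 ≤ 1) (hC1 : 0 ≤ C1)
    (hC1' : C1 ≤ 1) (hP1 : 0 ≤ P1) (hP1' : P1 ≤ 1) (hP2 : 0 ≤ P2) (hP2' : P2 ≤ 1) :
    P0 * P1 * P2 - (|C0 - P0| + |C1 - P1| + |C2 - P2|) ≤ C0 * C1 * C2 := by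
  have e2 : P0 * P1 * P2 - C0 * C1 * C2 =
      (P0 - C0) * (P1 * P2) + (P1 - C1) * (C0 * P2) + (P2 - C2) * (C0 * C1) := by ring
  have key : ∀ d w : ℝ, 0 ≤ w → w ≤ 1 → d * w ≤ |d| := by
    intro d w hw hw1
    calc d * w ≤ |d| * w := mul_le_mul_of_nonneg_right (le_abs_self d) hw
      _ ≤ |d| * 1 := mul_le_mul_of_nonneg_left hw1 (abs_nonneg d)
      _ = |d| := mul_one _
  have f0 := key (P0 - C0) (P1 * P2) (mul_nonneg hP1 hP2) (mul_le_one₀ hP1' hP2 hP2')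
  have f1 := key (P1 - C1) (C0 * P2) (mul_nonneg hC0 hP2) (mul_le_one₀ hC0' hP2 hP2')
  have f2 := key (P2 - C2) (C0 * C1) (mul_nonneg hC0 hC1) (mul_le_one₀ hC0' hC1 hC1')
  rw [abs_sub_comm] at f0 f1 f2
  linarith

theorem lin {Ω : Type u} [MeasurableSpace Ω] {ν : Measure Ω}
    {t1 t2 t3 w e0 e1 e2 : Ω → ℝ} (h1 : Integrable t1 ν) (h2 : Integrable t2 ν)
    (h3 : Integrable t3 ν) (hw : Integrable w ν) (k0 : Integrable e0 ν) (k1 : Integrable e1 ν)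
    (k2 : Integrable e2 ν) :
    ∫ x, (t1 x + t2 x + t3 x + (w x + (-1) * (e0 x + e1 x + e2 x))) ∂ν
      = ∫ x, t1 x ∂ν + ∫ x, t2 x ∂ν + ∫ x, t3 x ∂ν
        + (∫ x, w x ∂ν + (-1) * (∫ x, e0 x ∂ν + ∫ x, e1 x ∂ν + ∫ x, e2 x ∂ν)) := by
  have a2 : Integrable (fun x => t1 x + t2 x) ν := h1.add h2
  have a3 : Integrable (fun x => t1 x + t2 x + t3 x) ν := a2.add h3
  have b1 : Integrable (fun x => e0 x + e1 x) ν := k0.add k1
  have b2 : Integrable (fun x => e0 x + e1 x + e2 x) ν := b1.add k2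
  have b3 : Integrable (fun x => (-1) * (e0 x + e1 x + e2 x)) ν := b2.const_mul (-1)
  have b5 : Integrable (fun x => w x + (-1) * (e0 x + e1 x + e2 x)) ν := hw.add b3
  rw [integral_add a3 b5, integral_add a2 h3, integral_add h1 h2, integral_add hw b3,
    integral_const_mul, integral_add b1 k2, integral_add k0 k1]

/-- the mean of a nonnegative function along the orbits -/
theorem mv {Ω : Type u} [MeasurableSpace Ω] (μ : Measure Ω) [IsProbabilityMeasure μ]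
    (Q : Ω → Ω) (hQ : MeasurePreserving Q μ μ) (h : Ω → ℝ) (hm : Measurable h)
    (h0 : ∀ x, 0 ≤ h x) (h1 : ∀ x, h x ≤ 1) (X : Set Ω) (N : ℕ) (n : (Fin 3 → ℕ) → ℕ) :
    ∫ x in X, (avg3 N fun y => h (Q^[n y] x)) ∂μ ≤ ∫ x, h x ∂μ := by
  have hi : Integrable h μ := Integrable.of_bound hm.aestronglyMeasurable 1
    (ae_of_all _ fun x => by rw [Real.norm_eq_abs, abs_of_nonneg (h0 x)]; exact h1 x)
  have hI : ∀ y : Fin 3 → ℕ, Integrable (fun x => h (Q^[n y] x)) μ := fun y =>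
    (hQ.iterate (n y)).integrable_comp_of_integrable hi
  have hv : ∀ y : Fin 3 → ℕ, ∫ x, h (Q^[n y] x) ∂μ = ∫ x, h x ∂μ := by
    intro y
    have h3 := (hQ.iterate (n y)).map_eq
    conv_rhs => rw [← h3]
    rw [integral_map (hQ.iterate (n y)).measurable.aemeasurable hm.aestronglyMeasurable]
  have hn : 0 ≤ ∫ x, h x ∂μ := integral_nonneg h0
  have hAI : Integrable (fun x => avg3 N fun y => h (Q^[n y] x)) μ :=
    MAI_int μ N (fun y x => h (Q^[n y] x)) (fun y => hm.comp (hQ.iterate _).measurable) 1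
      zero_le_one (fun y x => by rw [abs_of_nonneg (h0 _)]; exact h1 _)
  have hA0 : ∀ x, 0 ≤ avg3 N fun y => h (Q^[n y] x) := by
    intro x
    rw [MAI_avg]
    exact Finset.sum_nonneg fun p _ => mul_nonneg (MAI_k N) (h0 _)
  refine (setIntegral_le_integral hAI (ae_of_all _ hA0)).trans ?_
  simp only [MAI_avg]
  rw [integral_finsetSum _ fun p _ => (hI _).const_mul _]
  simp only [integral_const_mul, hv]
  rw [Finset.sum_const]
  have h2 : (MAI_P N).card = N * (N * N) := by simp [MAI_P]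
  rw [h2, nsmul_eq_mul]
  rcases Nat.eq_zero_or_pos N with h3 | h3
  · subst h3
    simpa using hn
  · have h4 : (N : ℝ) ≠ 0 := by
      have : (0 : ℝ) < N := by exact_mod_cast h3
      exact this.ne'
    apply le_of_eq
    push_cast
    field_simp

end MAL_

open MAL_ in
theorem p_MAL : T_SLC.{u} → T_GTL.{u} → T_MAL.{u} := by
  intro hSLC hGTL Ω _ μ _ Q Q' hQ hQ' hinv hinv' A hA hμA θ hθ hbig
  obtain ⟨c, g, hc, hg, hc01, hg1, hsum, hgw, η, c₀, hη, hc₀, hS⟩ :=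
    hSLC Ω μ Q Q' hQ hQ' hinv hinv' A hA hμA θ hθ hbig
  set ε : ℝ := η * c₀ / 12 with hε
  have hε0 : 0 < ε := by positivity
  obtain ⟨P, q, X, hq, hX, hXA, hcX, hP, hP01, hcP, hlow⟩ := hS ε hε0
  by_contra hcon
  push Not at hcon
  have hone0 : ∀ x, 0 ≤ one A x := fun x => Set.indicator_nonneg (fun _ _ => zero_le_one) x
  have hone1 : ∀ x, one A x ≤ 1 := fun x => Set.indicator_le_self' (fun _ _ => zero_le_one) x
  have honem : Measurable (one A) := measurable_const.indicator hA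
  have hoa : ∀ x, |one A x| ≤ 1 := fun x => abs_le.2 ⟨by linarith [hone0 x], hone1 x⟩
  have hQi : ∀ l k, Measurable ((Q l)^[k]) := fun l k => (hQ l).measurable.iterate k
  have hca : ∀ l x, |c l x| ≤ 1 := fun l x =>
    abs_le.2 ⟨by linarith [(hc01 l x).1], (hc01 l x).2⟩
  have hPa : ∀ l x, |P l x| ≤ 1 := fun l x =>
    abs_le.2 ⟨by linarith [(hP01 l x).1], (hP01 l x).2⟩
  have mc : ∀ p : Fin 3 → Prop, p 0 ∧ p 1 ∧ p 2 → ∀ l, p l := by
    intro p h l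
    fin_cases l
    · exact h.1
    · exact h.2.1
    · exact h.2.2
  set F2 : Fin 3 → Ω → ℝ := ![one A, one A, g 2] with hF2
  set F0 : Fin 3 → Ω → ℝ := ![g 0, one A, c 2] with hF0
  set F1 : Fin 3 → Ω → ℝ := ![c 0, g 1, c 2] with hF1
  have mF2 : ∀ l, Measurable (F2 l) := mc _ ⟨honem, honem, hg 2⟩
  have mF0 : ∀ l, Measurable (F0 l) := mc _ ⟨hg 0, honem, hc 2⟩
  have mF1 : ∀ l, Measurable (F1 l) := mc _ ⟨hc 0, hg 1, hc 2⟩
  have bF2 : ∀ l x, |F2 l x| ≤ 1 := mc _ ⟨hoa, hoa, hg1 2⟩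
  have bF0 : ∀ l x, |F0 l x| ≤ 1 := mc _ ⟨hg1 0, hoa, hca 2⟩
  have bF1 : ∀ l x, |F1 l x| ≤ 1 := mc _ ⟨hca 0, hg1 1, hca 2⟩
  obtain ⟨H2, hH2, L2, hL2⟩ := hGTL Ω μ Q Q' hQ hQ' hinv hinv' X hX q hq F2 mF2 bF2 2 (hgw 2)
    ε hε0
  obtain ⟨H0, hH0, L0, hL0⟩ := hGTL Ω μ Q Q' hQ hQ' hinv hinv' X hX q hq F0 mF0 bF0 0 (hgw 0)
    ε hε0
  obtain ⟨H1, hH1, L1, hL1⟩ := hGTL Ω μ Q Q' hQ hQ' hinv hinv' X hX q hq F1 mF1 bF1 1 (hgw 1)
    ε hε0
  have hPpm : ∀ y : Fin 3 → ℕ, Measurable fun x => ∏ l, P l ((Q l)^[q * tm l y] x) := fun y =>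
    Finset.measurable_fun_prod _ fun l _ => (hP l).comp (hQi l _)
  have hPp1 : ∀ (y : Fin 3 → ℕ) x, |∏ l, P l ((Q l)^[q * tm l y] x)| ≤ 1 := by
    intro y x
    rw [Finset.abs_prod]
    exact Finset.prod_le_one (fun l _ => abs_nonneg _) (fun l _ => hPa l _)
  obtain ⟨NW, hNW⟩ := f_LSU Ω μ
    (fun N x => -avg3 N (fun y => ∏ l, P l ((Q l)^[q * tm l y] x))) 1 (fun _ => -η) X
    (fun N => (MAI_meas N (fun y x => ∏ l, P l ((Q l)^[q * tm l y] x)) hPpm).neg)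
    (fun N x => by
      rw [abs_neg]
      exact MAI_bd N _ _ zero_le_one fun y => hPp1 y x)
    (integrable_const _) hX
    (by
      filter_upwards [hlow] with x hx hxX ε' hε'
      obtain ⟨N₀, hN₀⟩ := hx hxX
      refine ⟨N₀, fun N hN => ?_⟩
      have h1 := hN₀ N hN
      linarith) ε hε0
  obtain ⟨L, hL⟩ : ∃ L, L = NW + L2 + L0 + L1 + 1 := ⟨_, rfl⟩
  obtain ⟨N, hN⟩ : ∃ N, N = H2 * (H0 * H1 * L) := ⟨_, rfl⟩
  have e1 : L ≤ H0 * H1 * L := Nat.le_mul_of_pos_left _ (Nat.mul_pos hH0 hH1)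
  have e2 : L ≤ H2 * H1 * L := Nat.le_mul_of_pos_left _ (Nat.mul_pos hH2 hH1)
  have e3 : L ≤ H2 * H0 * L := Nat.le_mul_of_pos_left _ (Nat.mul_pos hH2 hH0)
  have hLN : L ≤ N := by
    rw [hN]
    exact e1.trans (Nat.le_mul_of_pos_left _ hH2)
  have hN' : N = H0 * (H2 * H1 * L) := by rw [hN]; ring
  have hN'' : N = H1 * (H2 * H0 * L) := by rw [hN]; ring
  have hNpos : 0 < N := by omega
  have T2 := hL2 (H0 * H1 * L) (by omega)
  have T0 := hL0 (H2 * H1 * L) (by omega)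
  have T1 := hL1 (H2 * H0 * L) (by omega)
  rw [← hN] at T2
  rw [← hN'] at T0
  rw [← hN''] at T1
  have lW := hNW N (by omega)
  rw [integral_neg, setIntegral_const, smul_eq_mul] at lW
  -- integrability
  have iF : ∀ f : Fin 3 → Ω → ℝ, (∀ l, Measurable (f l)) → (∀ l x, |f l x| ≤ 1) →
      Integrable (fun x => avg3 N (fun y => ∏ l, f l ((Q l)^[q * tm l y] x))) μ := by
    intro f hf hf1
    refine MAI_int μ N (fun y x => ∏ l, f l ((Q l)^[q * tm l y] x))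
      (fun y => Finset.measurable_fun_prod _ fun l _ => (hf l).comp (hQi l _)) 1 zero_le_one
      (fun y x => ?_)
    rw [Finset.abs_prod]
    exact Finset.prod_le_one (fun l _ => abs_nonneg _) (fun l _ => hf1 l _)
  have hdm : ∀ l, Measurable fun x => |c l x - P l x| := fun l => ((hc l).sub (hP l)).abs
  have hd1 : ∀ l x, |c l x - P l x| ≤ 1 := by
    intro l x
    refine abs_le.2 ⟨?_, ?_⟩
    · linarith [(hc01 l x).1, (hP01 l x).2]
    · linarith [(hc01 l x).2, (hP01 l x).1]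
  have iE : ∀ l, Integrable (fun x => avg3 N fun y =>
      |c l ((Q l)^[q * tm l y] x) - P l ((Q l)^[q * tm l y] x)|) μ := by
    intro l
    refine MAI_int μ N (fun y x =>
      |c l ((Q l)^[q * tm l y] x) - P l ((Q l)^[q * tm l y] x)|)
      (fun y => (hdm l).comp (hQi l _)) 1 zero_le_one (fun y x => ?_)
    rw [abs_abs]
    exact hd1 _ _
  have uE : ∀ l, ∫ x in X, (avg3 N fun y =>
      |c l ((Q l)^[q * tm l y] x) - P l ((Q l)^[q * tm l y] x)|) ∂μ ≤ ε := fun l =>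
    (mv μ (Q l) (hQ l) (fun x => |c l x - P l x|) (hdm l) (fun x => abs_nonneg _) (hd1 l) X N
      fun y => q * tm l y).trans (hcP l)
  -- almost everywhere
  have hae : ∀ᵐ x ∂μ, ∀ y : Fin 3 → ℕ, MAI_W N y →
      ¬ (x ∈ A ∧ ∀ l, (Q l)^[q * tm l y] x ∈ A) := by
    rw [ae_all_iff]
    intro y
    by_cases hy : MAI_W N y
    · obtain ⟨⟨hy0, hy0'⟩, hy1, hy2, hy2'⟩ := hy
      have t0 : tm 0 y = 2 * y 2 - y 1 := rfl
      have t1 : tm 1 y = y 0 + y 2 := rfl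
      have t2 : tm 2 y = 2 * y 0 + y 1 := rfl
      obtain ⟨d, hd⟩ : ∃ d, d = y 2 - y 0 - y 1 := ⟨_, rfl⟩
      have hd1 : 1 ≤ d := by omega
      have h1 := hcon (q * tm 2 y) (q * d)
        (by rw [t2]; exact Nat.mul_pos hq (by omega)) (Nat.mul_pos hq hd1)
      have k1 : q * tm 2 y + q * d = q * tm 1 y := by
        rw [← Nat.mul_add]
        congr 1
        rw [t1, t2]
        omega
      have k2 : q * tm 2 y + 2 * (q * d) = q * tm 0 y := by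
        have : 2 * (q * d) = q * (2 * d) := by ring
        rw [this, ← Nat.mul_add]
        congr 1
        rw [t0, t2]
        omega
      rw [k1, k2] at h1
      have h2 := measure_eq_zero_iff_ae_notMem.1 h1
      filter_upwards [h2] with x hx _ hx2
      exact hx ⟨hx2.1, hx2.2 2, hx2.2 1, hx2.2 0⟩
    · exact ae_of_all _ fun x h => absurd h hy
  have hpw : ∀ᵐ x ∂(μ.restrict X),
      (avg3 N fun y => ∏ l, F2 l ((Q l)^[q * tm l y] x)) +
      (avg3 N fun y => ∏ l, F0 l ((Q l)^[q * tm l y] x)) +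
      (avg3 N fun y => ∏ l, F1 l ((Q l)^[q * tm l y] x)) +
      ((avg3 N fun y => ∏ l, P l ((Q l)^[q * tm l y] x)) + (-1) *
        ((avg3 N fun y => |c 0 ((Q 0)^[q * tm 0 y] x) - P 0 ((Q 0)^[q * tm 0 y] x)|) +
        (avg3 N fun y => |c 1 ((Q 1)^[q * tm 1 y] x) - P 1 ((Q 1)^[q * tm 1 y] x)|) +
        (avg3 N fun y => |c 2 ((Q 2)^[q * tm 2 y] x) - P 2 ((Q 2)^[q * tm 2 y] x)|))) ≤ 0 := by
    filter_upwards [ae_restrict_of_ae hae, ae_restrict_mem hX] with x hx hxX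
    rw [← MAI_add, ← MAI_add, ← MAI_add, ← MAI_add, ← MAI_mul, ← MAI_add, ← MAI_add]
    have hz : avg3 N (fun _ => (0 : ℝ)) = 0 := by
      rw [MAI_avg]
      simp
    rw [← hz]
    refine MAI_mono N fun y hy => ?_
    have hxy := hx y hy
    have hzero : one A ((Q 0)^[q * tm 0 y] x) * one A ((Q 1)^[q * tm 1 y] x) *
        one A ((Q 2)^[q * tm 2 y] x) = 0 := by
      by_contra hne
      apply hxy
      refine ⟨hXA hxX, ?_⟩
      have g2 : one A ((Q 2)^[q * tm 2 y] x) ≠ 0 := right_ne_zero_of_mul hne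
      have g3 := left_ne_zero_of_mul hne
      have g1 : one A ((Q 1)^[q * tm 1 y] x) ≠ 0 := right_ne_zero_of_mul g3
      have g0 : one A ((Q 0)^[q * tm 0 y] x) ≠ 0 := left_ne_zero_of_mul g3
      have hmem : ∀ z, one A z ≠ 0 → z ∈ A := by
        intro z hz'
        by_contra hz2
        exact hz' (Set.indicator_of_notMem hz2 _)
      exact mc _ ⟨hmem _ g0, hmem _ g1, hmem _ g2⟩
    have hpt := pt (c 0 ((Q 0)^[q * tm 0 y] x)) (c 1 ((Q 1)^[q * tm 1 y] x))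
      (c 2 ((Q 2)^[q * tm 2 y] x)) (P 0 ((Q 0)^[q * tm 0 y] x)) (P 1 ((Q 1)^[q * tm 1 y] x))
      (P 2 ((Q 2)^[q * tm 2 y] x)) (hc01 _ _).1 (hc01 _ _).2 (hc01 _ _).1 (hc01 _ _).2
      (hP01 _ _).1 (hP01 _ _).2 (hP01 _ _).1 (hP01 _ _).2
    rw [Fin.prod_univ_three, Fin.prod_univ_three, Fin.prod_univ_three, Fin.prod_univ_three]
    have f0 := hsum 0 ((Q 0)^[q * tm 0 y] x)
    have f1 := hsum 1 ((Q 1)^[q * tm 1 y] x)
    have f2 := hsum 2 ((Q 2)^[q * tm 2 y] x)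
    have e5 : one A ((Q 0)^[q * tm 0 y] x) * one A ((Q 1)^[q * tm 1 y] x) *
        g 2 ((Q 2)^[q * tm 2 y] x) + g 0 ((Q 0)^[q * tm 0 y] x) *
        one A ((Q 1)^[q * tm 1 y] x) * c 2 ((Q 2)^[q * tm 2 y] x) +
        c 0 ((Q 0)^[q * tm 0 y] x) * g 1 ((Q 1)^[q * tm 1 y] x) * c 2 ((Q 2)^[q * tm 2 y] x) +
        c 0 ((Q 0)^[q * tm 0 y] x) * c 1 ((Q 1)^[q * tm 1 y] x) * c 2 ((Q 2)^[q * tm 2 y] x) =
        one A ((Q 0)^[q * tm 0 y] x) * one A ((Q 1)^[q * tm 1 y] x) *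
        one A ((Q 2)^[q * tm 2 y] x) := by
      rw [f0, f1, f2]
      ring
    rw [hzero] at e5
    show one A ((Q 0)^[q * tm 0 y] x) * one A ((Q 1)^[q * tm 1 y] x) *
        g 2 ((Q 2)^[q * tm 2 y] x) + g 0 ((Q 0)^[q * tm 0 y] x) *
        one A ((Q 1)^[q * tm 1 y] x) * c 2 ((Q 2)^[q * tm 2 y] x) +
        c 0 ((Q 0)^[q * tm 0 y] x) * g 1 ((Q 1)^[q * tm 1 y] x) *
        c 2 ((Q 2)^[q * tm 2 y] x) + (P 0 ((Q 0)^[q * tm 0 y] x) *
        P 1 ((Q 1)^[q * tm 1 y] x) * P 2 ((Q 2)^[q * tm 2 y] x) + (-1) *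
        (|c 0 ((Q 0)^[q * tm 0 y] x) - P 0 ((Q 0)^[q * tm 0 y] x)| +
        |c 1 ((Q 1)^[q * tm 1 y] x) - P 1 ((Q 1)^[q * tm 1 y] x)| +
        |c 2 ((Q 2)^[q * tm 2 y] x) - P 2 ((Q 2)^[q * tm 2 y] x)|)) ≤ 0
    linarith
  have hfin := integral_nonpos_of_ae hpw
  rw [lin (iF F2 mF2 bF2).restrict (iF F0 mF0 bF0).restrict (iF F1 mF1 bF1).restrict
    (iF P hP hPa).restrict (iE 0).restrict (iE 1).restrict (iE 2).restrict] at hfin
  have n2 := (abs_le.1 T2).1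
  have n0 := (abs_le.1 T0).1
  have n1 := (abs_le.1 T1).1
  have u0 := uE 0
  have u1 := uE 1
  have u2 := uE 2
  have v1 : η * c₀ ≤ μ.real X * η := by
    rw [mul_comm]
    exact mul_le_mul_of_nonneg_right hcX hη.le
  have v2 : η * c₀ = 12 * ε := by rw [hε]; ring
  linarith

end Pool.Agent.LSQ
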