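import Pool.Agent.LSQ.Targets
import Pool.Agent.FSP.Final

set_option autoImplicit false

/-!
# LSQ, target PJN: facts on conditional expectations
-/

open MeasureTheory Filter Topology Finset

namespace Pool.Agent.LSQ

open Pool.Agent.FSP

universe u

namespace PJN_

variable {Ω : Type u} [MeasurableSpace Ω] {μ : Measure Ω} [IsProbabilityMeasure μ]

omit [MeasurableSpace Ω] in
theorem one_nonneg (A : Set Ω) (x : Ω) : 0 ≤ one A x :=
  Set.indicator_nonneg (fun _ _ => zero_le_one) x

omit [MeasurableSpace Ω] in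
theorem one_le (A : Set Ω) (x : Ω) : one A x ≤ 1 :=
  Set.indicator_le_self' (fun _ _ => zero_le_one) x

theorem meas_one {A : Set Ω} (hA : MeasurableSet A) : Measurable (one A) :=
  measurable_const.indicator hA

theorem memLp_one {A : Set Ω} (hA : MeasurableSet A) : MemLp (one A) 2 μ :=
  MemLp.of_bound (meas_one hA).aestronglyMeasurable 1 (ae_of_all _ fun x => by
    rw [Real.norm_eq_abs, abs_of_nonneg (one_nonneg A x)]; exact one_le A x)

theorem memLp_ce {A : Set Ω} (hA : MeasurableSet A) (Q : Ω → Ω) (j : ℕ) :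
    MemLp (ce μ Q j (one A)) 2 μ := (memLp_one hA).condExp (by norm_num)

theorem int_one {A : Set Ω} (hA : MeasurableSet A) : Integrable (one A) μ :=
  (memLp_one hA).integrable (by norm_num)

/-- pull out -/
theorem pull {A : Set Ω} (hA : MeasurableSet A) (Q : Ω → Ω) (j : ℕ) (h : Ω → ℝ)
    (hm : StronglyMeasurable[MeasurableSpace.invariants Q^[j]] h) (h2 : MemLp h 2 μ) :
    ∫ x in A, h x ∂μ = ∫ x, h x * ce μ Q j (one A) x ∂μ := by
  have hI := MeasurableSpace.invariants_le (Q^[j])
  have hint : Integrable (h * one A) μ := h2.integrable_mul (memLp_one hA)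
  have e1 := condExp_mul_of_stronglyMeasurable_left hm hint (int_one (μ := μ) hA)
  have e2 : ∫ x, (μ[h * one A | MeasurableSpace.invariants Q^[j]]) x ∂μ = ∫ x, (h * one A) x ∂μ :=
    integral_condExp hI
  have e3 : ∫ x in A, h x ∂μ = ∫ x, (h * one A) x ∂μ := by
    rw [← integral_indicator hA]
    congr 1
    funext x
    by_cases hx : x ∈ A
    · simp [one, hx]
    · simp [one, hx]
  rw [e3, ← e2]
  apply integral_congr_ae
  filter_upwards [e1] with x hx
  rw [hx]
  rfl

omit [IsProbabilityMeasure μ] in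
theorem meas_ce (A : Set Ω) (Q : Ω → Ω) (i j : ℕ)
    (h : MeasurableSpace.invariants Q^[i] ≤ MeasurableSpace.invariants Q^[j]) :
    StronglyMeasurable[MeasurableSpace.invariants Q^[j]] (ce μ Q i (one A)) :=
  stronglyMeasurable_condExp.mono h

theorem inv_one_le (Q : Ω → Ω) (j : ℕ) :
    MeasurableSpace.invariants Q^[1] ≤ MeasurableSpace.invariants Q^[j] := by
  rw [Function.iterate_one]
  exact MeasurableSpace.le_invariants_iterate Q j

theorem sq_eq {A : Set Ω} (hA : MeasurableSet A) (Q : Ω → Ω) (j : ℕ) :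
    ∫ x in A, ce μ Q j (one A) x ∂μ = ∫ x, ce μ Q j (one A) x ^ 2 ∂μ := by
  rw [pull hA Q j _ (meas_ce A Q j j le_rfl) (memLp_ce hA Q j)]
  congr 1
  funext x
  ring

end PJN_

open PJN_ in
theorem p_PJN : T_PJN.{u} := by
  intro Ω _ μ _ Q hQ A hA
  have hint : ∀ j, Integrable (ce μ Q j (one A)) μ := fun j => integrable_condExp
  have htot : ∀ j, ∫ x, ce μ Q j (one A) x ∂μ = μ.real A := by
    intro j
    have e1 : ∫ x, ce μ Q j (one A) x ∂μ = ∫ x, one A x ∂μ :=
      integral_condExp (MeasurableSpace.invariants_le _)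
    rw [e1]
    unfold one
    rw [integral_indicator hA]
    simp
  refine ⟨?_, ?_, ?_, ?_⟩
  · intro j
    have h1 := sq_eq (μ := μ) hA Q 1
    have h2 := sq_eq (μ := μ) hA Q j
    have h3 := pull (μ := μ) hA Q j _ (meas_ce A Q 1 j (inv_one_le Q j)) (memLp_ce hA Q 1)
    have m1 := memLp_ce (μ := μ) hA Q 1
    have mj := memLp_ce (μ := μ) hA Q j
    have h4 : 0 ≤ ∫ x, (ce μ Q j (one A) x - ce μ Q 1 (one A) x) ^ 2 ∂μ :=
      integral_nonneg fun x => sq_nonneg _
    have h5 : ∫ x, (ce μ Q j (one A) x - ce μ Q 1 (one A) x) ^ 2 ∂μ =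
        ∫ x, ce μ Q j (one A) x ^ 2 ∂μ - 2 * ∫ x, ce μ Q 1 (one A) x * ce μ Q j (one A) x ∂μ +
          ∫ x, ce μ Q 1 (one A) x ^ 2 ∂μ := by
      have i1 : Integrable (fun x => 2 * (ce μ Q 1 (one A) x * ce μ Q j (one A) x)) μ :=
        (m1.integrable_mul mj).const_mul 2
      have i2 : Integrable (fun x => ce μ Q j (one A) x ^ 2 -
          2 * (ce μ Q 1 (one A) x * ce μ Q j (one A) x)) μ := mj.integrable_sq.sub i1
      rw [← integral_const_mul, ← integral_sub mj.integrable_sq i1, ← integral_add i2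
        m1.integrable_sq]
      congr 1
      funext x
      ring
    rw [← h1, ← h2, ← h3] at h5
    linarith
  · rw [Metric.tendsto_atTop]
    intro ε hε
    obtain ⟨N₀, hN₀⟩ := f_ERG Ω μ Q hQ (one A) 1 (meas_one hA) (fun x => by
      rw [abs_of_nonneg (one_nonneg A x)]; exact one_le A x) (ε / 2) (half_pos hε)
    refine ⟨N₀, fun N hN => ?_⟩
    have h1 := hN₀ N hN
    have hQm : ∀ n, Measurable (Q^[n]) := fun n => hQ.measurable.iterate n
    have hi : ∀ n, Integrable (fun x => one A (Q^[n] x)) μ := by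
      intro n
      refine Integrable.mono' (integrable_const (1 : ℝ))
        ((meas_one hA).comp (hQm n)).aestronglyMeasurable (ae_of_all _ fun x => ?_)
      rw [Real.norm_eq_abs, abs_of_nonneg (one_nonneg A _)]
      exact one_le A _
    have hs : Integrable (fun x => (N : ℝ)⁻¹ * ∑ n ∈ range N, one A (Q^[n] x)) μ :=
      (integrable_finsetSum _ fun n _ => hi n).const_mul _
    have e1 : (N : ℝ)⁻¹ * ∑ n ∈ range N, μ.real (A ∩ Q^[n] ⁻¹' A) =
        ∫ x in A, (N : ℝ)⁻¹ * ∑ n ∈ range N, one A (Q^[n] x) ∂μ := by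
      rw [integral_const_mul, integral_finsetSum _ fun n _ => (hi n).integrableOn]
      congr 1
      apply Finset.sum_congr rfl
      intro n _
      have e2 : (fun x => one A (Q^[n] x)) = (Q^[n] ⁻¹' A).indicator (fun _ => (1 : ℝ)) := by
        funext x
        unfold one
        by_cases hx : Q^[n] x ∈ A
        · rw [Set.indicator_of_mem hx, Set.indicator_of_mem (show x ∈ Q^[n] ⁻¹' A from hx)]
        · rw [Set.indicator_of_notMem hx,
            Set.indicator_of_notMem (show x ∉ Q^[n] ⁻¹' A from hx)]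
      rw [e2, setIntegral_indicator ((hQm n) hA)]
      simp
    rw [e1, Real.dist_eq, ← integral_sub hs.integrableOn (hint 1).integrableOn]
    have h2 : |∫ x in A, ((N : ℝ)⁻¹ * ∑ n ∈ range N, one A (Q^[n] x) - ce μ Q 1 (one A) x) ∂μ| ≤
        ∫ x in A, |(N : ℝ)⁻¹ * ∑ n ∈ range N, one A (Q^[n] x) - ce μ Q 1 (one A) x| ∂μ :=
      abs_integral_le_integral_abs
    have h3 : ∫ x in A, |(N : ℝ)⁻¹ * ∑ n ∈ range N, one A (Q^[n] x) - ce μ Q 1 (one A) x| ∂μ ≤
        ∫ x, |(N : ℝ)⁻¹ * ∑ n ∈ range N, one A (Q^[n] x) - ce μ Q 1 (one A) x| ∂μ :=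
      setIntegral_le_integral (hs.sub (hint 1)).abs (ae_of_all _ fun x => abs_nonneg _)
    have h4 : ce μ Q 1 (one A) = μ[one A | MeasurableSpace.invariants Q] := by
      unfold ce
      rw [Function.iterate_one]
    rw [h4] at h2 h3 ⊢
    linarith
  · intro j κ hκ
    have hI := MeasurableSpace.invariants_le (Q^[j])
    have ht : MeasurableSet[MeasurableSpace.invariants Q^[j]] {x | ce μ Q j (one A) x < κ} :=
      (meas_ce (μ := μ) A Q j j le_rfl).measurable measurableSet_Iio
    have ht' := hI _ ht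
    have e1 : ∫ x in {x | ce μ Q j (one A) x < κ}, ce μ Q j (one A) x ∂μ =
        ∫ x in {x | ce μ Q j (one A) x < κ}, one A x ∂μ :=
      setIntegral_condExp hI (int_one hA) ht
    have e2 : ∫ x in {x | ce μ Q j (one A) x < κ}, one A x ∂μ =
        μ.real {x | x ∈ A ∧ ce μ Q j (one A) x < κ} := by
      unfold one
      rw [setIntegral_indicator hA]
      simp only [integral_const, smul_eq_mul, mul_one, measureReal_restrict_apply_univ]
      congr 1
      ext x
      constructor
      · rintro ⟨h1, h2⟩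
        exact ⟨h2, h1⟩
      · rintro ⟨h1, h2⟩
        exact ⟨h2, h1⟩
    rw [← e2, ← e1]
    calc ∫ x in {x | ce μ Q j (one A) x < κ}, ce μ Q j (one A) x ∂μ
        ≤ ∫ x in {x | ce μ Q j (one A) x < κ}, κ ∂μ := by
          apply setIntegral_mono_on (hint j).integrableOn (integrable_const κ).integrableOn ht'
          intro x hx
          exact le_of_lt hx
      _ = μ.real {x | ce μ Q j (one A) x < κ} * κ := by
          rw [setIntegral_const, smul_eq_mul]
      _ ≤ 1 * κ := mul_le_mul_of_nonneg_right measureReal_le_one hκ.le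
      _ = κ := one_mul κ
  · have h1 := sq_eq (μ := μ) hA Q 1
    have m1 := memLp_ce (μ := μ) hA Q 1
    have h4 : 0 ≤ ∫ x, (ce μ Q 1 (one A) x - μ.real A) ^ 2 ∂μ :=
      integral_nonneg fun x => sq_nonneg _
    have h5 : ∫ x, (ce μ Q 1 (one A) x - μ.real A) ^ 2 ∂μ =
        ∫ x, ce μ Q 1 (one A) x ^ 2 ∂μ - 2 * μ.real A * ∫ x, ce μ Q 1 (one A) x ∂μ +
          μ.real A ^ 2 := by
      have e0 : μ.real A ^ 2 = ∫ _x, μ.real A ^ 2 ∂μ := by simp
      conv_rhs => rw [e0]
      have i1 : Integrable (fun x => 2 * μ.real A * ce μ Q 1 (one A) x) μ :=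
        (hint 1).const_mul _
      have i2 : Integrable (fun x => ce μ Q 1 (one A) x ^ 2 -
          2 * μ.real A * ce μ Q 1 (one A) x) μ := m1.integrable_sq.sub i1
      rw [← integral_const_mul, ← integral_sub m1.integrable_sq i1,
        ← integral_add i2 (integrable_const _)]
      congr 1
      funext x
      ring
    rw [htot 1] at h5
    rw [h1]
    nlinarith

end Pool.Agent.LSQ
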