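import Pool.Agent.LSQ.Targets

set_option autoImplicit false

/-!
# LSQ: PTW, the lower bound at a point
-/

open MeasureTheory Filter Topology Finset

namespace Pool.Agent.LSQ

open Pool.Agent.FSP Pool.Agent.Ind3 Pool.Agent.CRk

universe u

namespace PTW_

theorem norm_sq_sub_one (w : Circle) (r : ℝ) (h : ‖(w : ℂ) - 1‖ ≤ r / 2) :
    ‖((w ^ (2 : ℕ) : Circle) : ℂ) - 1‖ ≤ r := by
  have h1 : ((w ^ (2 : ℕ) : Circle) : ℂ) - 1 = ((w : ℂ) + 1) * ((w : ℂ) - 1) := by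
    push_cast
    ring
  have h2 : ‖(w : ℂ) + 1‖ ≤ 2 := by
    refine (norm_add_le _ _).trans ?_
    rw [Circle.norm_coe, norm_one]
    norm_num
  rw [h1, norm_mul]
  have h0 : (0 : ℝ) ≤ ‖(w : ℂ) - 1‖ := norm_nonneg _
  nlinarith [norm_nonneg ((w : ℂ) + 1)]

/-- the multiplier as a multiple of `q` -/
theorem jl_eq (q k : ℕ) (l : Fin 3) :
    ∃ c : ℕ, (c = 1 ∨ c = 2) ∧ jl (q * k) l = q * (k * c) := by
  unfold jl
  split_ifs with h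
  · exact ⟨1, Or.inl rfl, by ring⟩
  · exact ⟨2, Or.inr rfl, by ring⟩

theorem norm_pow_le (w : Circle) (r : ℝ) (k c : ℕ) (m : ℤ) (hr : 0 ≤ r) (hc : c = 1 ∨ c = 2)
    (h : ‖(((w ^ k) ^ m : Circle) : ℂ) - 1‖ ≤ r / 2) :
    ‖((w ^ ((k : ℤ) * c * m) : Circle) : ℂ) - 1‖ ≤ r := by
  rcases hc with rfl | rfl
  · have e : w ^ ((k : ℤ) * (1 : ℕ) * m) = (w ^ k) ^ m := by
      rw [Nat.cast_one, mul_one, zpow_mul, zpow_natCast]
    rw [e]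
    linarith
  · have e : w ^ ((k : ℤ) * (2 : ℕ) * m) = ((w ^ k) ^ m) ^ (2 : ℕ) := by
      rw [← zpow_natCast ((w ^ k) ^ m), ← zpow_natCast w k, ← zpow_mul, ← zpow_mul]
      congr 1
      push_cast
      ring
    rw [e]
    exact norm_sq_sub_one _ r h

end PTW_

open PTW_ in
theorem p_PTW (hKIL : T_KIL) (hSEQ : T_SEQ.{u}) (hMEN : T_MEN.{u}) (hUME : T_UME)
    (hDTL : T_DTL) (hAVZ : T_AVZ.{u}) : T_PTW.{u} := by
  intro κ θ hκ hθ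
  obtain ⟨η, ε₁, hη, hε₁, hD⟩ := hDTL (κ / 2) (θ / 2) (by positivity) (by positivity)
  refine ⟨η, min ε₁ (min (κ / 6) (θ / 18)), hη, by positivity, ?_⟩
  intro Ω _ μ _ Q Q' hQ hQ' h1 h2 θs hθm hθi P hPm hP q K k ρ ε hq hk hρ hε hεε hap X hX1 hX2 hX3
  have e1 : ε ≤ ε₁ := hεε.trans (min_le_left _ _)
  have e2 : ε ≤ κ / 6 := hεε.trans ((min_le_right _ _).trans (min_le_left _ _))
  have e3 : ε ≤ θ / 18 := hεε.trans ((min_le_right _ _).trans (min_le_right _ _))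
  have hS : ∀ᵐ x ∂μ, ∀ l : Fin 3, ∀ n k : ℤ,
      (∀ j < K, ‖((θs l j x ^ k : Circle) : ℂ) - 1‖ ≤ ρ) →
      |P l (zit (Q l) (Q' l) (n + q * k) x) - P l (zit (Q l) (Q' l) n x)| ≤ ε :=
    ae_all_iff.2 fun l => hSEQ Ω μ (Q l) (Q' l) (hQ l) (hQ' l) (h1 l) (h2 l) (θs l) (hθi l)
      (P l) q K ρ ε (hap l)
  have hM : ∀ᵐ x ∂μ, ∀ l : Fin 3, ∀ δ f : ℝ,
      UM δ f (fun a : ℤ => P l (zit (Q l) (Q' l) ((jl (q * k) l : ℕ) * a) x)) →
      |f - ce μ (Q l) (jl (q * k) l) (P l) x| ≤ δ :=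
    ae_all_iff.2 fun l => hMEN Ω μ (Q l) (Q' l) (hQ l) (P l) (hPm l) (fun x => (hP l x).1)
      (fun x => (hP l x).2) (jl (q * k) l)
  filter_upwards [hS, hM] with x hxS hxM hxX
  let z : Fin 3 × Fin K → Circle := fun i => (θs i.1 i.2 x) ^ k
  have hTF : TF0 z := (hKIL _ (fun i : Fin 3 × Fin K => θs i.1 i.2 x)).2.2 k hk (hX1 x hxX)
  let s : Fin 3 → ℤ → ℝ := fun l a => P l (zit (Q l) (Q' l) ((jl (q * k) l : ℕ) * a) x)
  have hAZ : ∀ l, AZ (BZ z (ρ / 2)) ε (s l) := by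
    intro l
    refine ⟨fun a => hP l _, fun a m hm => ?_⟩
    obtain ⟨c, hc, hj⟩ := jl_eq q k l
    have h3 := hxS l ((jl (q * k) l : ℕ) * a) ((k : ℤ) * c * m) ?_
    · have e : ((jl (q * k) l : ℕ) : ℤ) * a + q * ((k : ℤ) * c * m) =
          ((jl (q * k) l : ℕ) : ℤ) * (a + m) := by
        rw [hj]
        push_cast
        ring
      rw [e] at h3
      exact h3
    · intro j hjK
      exact norm_pow_le _ ρ k c m hρ.le hc (hm (l, ⟨j, hjK⟩))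
  have hU : ∀ l, ∃ f : ℝ, 0 ≤ f ∧ f ≤ 1 ∧ UM (3 * ε) f (s l) := fun l =>
    hUME _ z (ρ / 2) ε (s l) (by positivity) hε (hAZ l)
  choose f hf0 hf1 hf using hU
  have hc : ∀ l, |f l - ce μ (Q l) (jl (q * k) l) (P l) x| ≤ 3 * ε := fun l =>
    hxM l (3 * ε) (f l) (hf l)
  have hge : ∀ l, ce μ (Q l) (jl (q * k) l) (P l) x - 3 * ε ≤ f l := fun l => by
    have := (abs_le.1 (hc l)).1
    linarith
  have hκl : ∀ l, κ / 2 ≤ f l := fun l => by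
    have := hge l
    have := hX3 x hxX l
    linarith
  have hsum : 1 + θ / 2 ≤ f 2 + f 0 + f 1 := by
    have h4 := hX2 x hxX
    rw [Fin.sum_univ_three] at h4
    have := hge 0
    have := hge 1
    have := hge 2
    linarith
  have hLB : LB η (s 2) (s 0) (s 1) :=
    hD _ z (ρ / 2) ε (s 2) (s 0) (s 1) (f 2) (f 0) (f 1) (by positivity) hε e1 hTF (hAZ 2)
      (hAZ 0) (hAZ 1) (hf 2) (hf 0) (hf 1) (hκl 2) (hf1 2) (hκl 0) (hf1 0) (hκl 1) (hf1 1) hsum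
  exact hAVZ Ω Q Q' P (fun l x => (hP l x).1) (q * k) η x hη.le hLB

end Pool.Agent.LSQ
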