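import Pool.Agent.LSQ.Targets

set_option autoImplicit false

/-!
# SEQ: the orbit sequences on the integers
-/

open MeasureTheory Filter Topology Finset

namespace Pool.Agent.LSQ

open Pool.Agent.FSP Pool.Agent.Ind3 Pool.Agent.CRk

universe u

namespace SEQ_

section

variable {Ω : Type u} {Q Q' : Ω → Ω}

lemma it_inv (h : ∀ x, Q (Q' x) = x) (n : ℕ) (x : Ω) : Q^[n] (Q'^[n] x) = x := by
  induction n generalizing x with
  | zero => rfl
  | succ n ih =>
    rw [Function.iterate_succ_apply' Q', Function.iterate_succ_apply Q, h, ih]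

/-- `zit` at `m` is the iterate `S + m` at the point `Q'^S x` -/
lemma zit_eq (h : ∀ x, Q (Q' x) = x) (m : ℤ) (S : ℕ) (hS : 0 ≤ (S : ℤ) + m) (x : Ω) :
    zit Q Q' m x = Q^[((S : ℤ) + m).toNat] (Q'^[S] x) := by
  cases m with
  | ofNat k =>
    show Q^[k] x = _
    have e1 : ((S : ℤ) + Int.ofNat k).toNat = k + S := by
      simp only [Int.ofNat_eq_natCast]
      omega
    rw [e1, Function.iterate_add_apply, it_inv h]
  | negSucc k =>
    show Q'^[k + 1] x = _
    have h1 : k + 1 ≤ S := by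
      rw [Int.negSucc_eq] at hS
      omega
    obtain ⟨d, rfl⟩ := Nat.exists_eq_add_of_le h1
    have e1 : (((k + 1 + d : ℕ) : ℤ) + Int.negSucc k).toNat = d := by
      rw [Int.negSucc_eq]
      push_cast
      omega
    rw [e1, add_comm (k + 1) d, Function.iterate_add_apply Q' d (k + 1), it_inv h]

end

lemma zpow_norm (w : Circle) (k : ℤ) : ‖((w ^ (-k) : Circle) : ℂ) - 1‖ =
    ‖((w ^ k : Circle) : ℂ) - 1‖ := by
  have h1 : ((w ^ (-k) : Circle) : ℂ) - 1 = -(((w ^ (-k) : Circle) : ℂ) *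
      (((w ^ k : Circle) : ℂ) - 1)) := by
    have h2 : ((w ^ (-k) : Circle) : ℂ) * ((w ^ k : Circle) : ℂ) = 1 := by
      rw [← Circle.coe_mul, ← zpow_add, neg_add_cancel, zpow_zero, Circle.coe_one]
    rw [mul_sub, h2]
    ring
  rw [h1, norm_neg, norm_mul, Circle.norm_coe, one_mul]

end SEQ_

open SEQ_ in
theorem p_SEQ : T_SEQ.{u} := by
  intro Ω _ μ _ Q Q' hQ hQ' hl hr θ hθ p q K ρ ε hyp
  have hall : ∀ᵐ x ∂μ, ∀ S : ℕ, ∀ t h : ℕ,
      (∀ j < K, ‖(θ j (Q'^[S] x) : ℂ) ^ h - 1‖ ≤ ρ) →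
      |p (Q^[t + q * h] (Q'^[S] x)) - p (Q^[t] (Q'^[S] x))| ≤ ε := by
    rw [ae_all_iff]
    intro S
    exact (hQ'.iterate S).quasiMeasurePreserving.ae hyp
  have hinv : ∀ (j S : ℕ) (x : Ω), θ j (Q'^[S] x) = θ j x := by
    intro j S
    induction S with
    | zero => intro x; rfl
    | succ S ih =>
      intro x
      rw [Function.iterate_succ_apply', ← hθ j, hr, ih]
  filter_upwards [hall] with x hx n k hk
  -- the case of a non-negative step
  have key : ∀ (n k : ℤ), 0 ≤ k → (∀ j < K, ‖((θ j x ^ k : Circle) : ℂ) - 1‖ ≤ ρ) →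
      |p (zit Q Q' (n + q * k) x) - p (zit Q Q' n x)| ≤ ε := by
    intro n k hk0 hk
    obtain ⟨h, rfl⟩ := Int.eq_ofNat_of_zero_le hk0
    set S : ℕ := n.natAbs with hS
    have h1 : 0 ≤ (S : ℤ) + n := by omega
    have h2 : 0 ≤ (S : ℤ) + (n + q * h) := by
      have : (0 : ℤ) ≤ (q : ℤ) * h := by positivity
      omega
    rw [zit_eq hr _ S h2, zit_eq hr _ S h1]
    have h3 : ((S : ℤ) + (n + q * h)).toNat = ((S : ℤ) + n).toNat + q * h := by
      have h4 : ((q * h : ℕ) : ℤ) = (q : ℤ) * h := by push_cast; rfl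
      omega
    rw [h3]
    refine hx S _ h fun j hj => ?_
    rw [hinv]
    have h5 := hk j hj
    rwa [zpow_natCast, Circle.coe_pow] at h5
  rcases le_total 0 k with h0 | h0
  · exact key n k h0 hk
  · have h1 := key (n + q * k) (-k) (by omega) (fun j hj => by
      rw [zpow_norm]
      exact hk j hj)
    rw [show n + q * k + q * -k = n by ring, abs_sub_comm] at h1
    exact h1

end Pool.Agent.LSQ
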