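import Pool.Agent.LSQ.Targets
import Pool.Agent.CRk.P_UNI

set_option autoImplicit false

/-!
Selection of all parameters for the lower bound.
-/

open MeasureTheory Filter Topology Finset

namespace Pool.Agent.LSQ

open Pool.Agent.FSP Pool.Agent.Ind3 Pool.Agent.CRk

universe u

namespace SLC_

variable {Ω : Type u} [MeasurableSpace Ω] (μ : Measure Ω) [IsProbabilityMeasure μ]

theorem ce_meas (Q : Ω → Ω) (j : ℕ) (f : Ω → ℝ) : Measurable (ce μ Q j f) := by
  unfold ce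
  exact (stronglyMeasurable_condExp.mono (MeasurableSpace.invariants_le _)).measurable

theorem ce_dist (Q : Ω → Ω) (j : ℕ) {f g : Ω → ℝ} (hf : Integrable f μ) (hg : Integrable g μ) :
    ∫ x, |ce μ Q j f x - ce μ Q j g x| ∂μ ≤ ∫ x, |f x - g x| ∂μ := by
  have h := condExp_sub hf hg (MeasurableSpace.invariants Q^[j])
  have h2 : ∫ x, |ce μ Q j f x - ce μ Q j g x| ∂μ =
      ∫ x, |(μ[f - g | MeasurableSpace.invariants Q^[j]]) x| ∂μ := by
    refine integral_congr_ae ?_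
    filter_upwards [h] with x hx
    simp only [ce]
    rw [hx]
    rfl
  rw [h2]
  exact integral_abs_condExp_le _

theorem int_of_bd {f : Ω → ℝ} (hf : Measurable f) (h : ∀ x, 0 ≤ f x ∧ f x ≤ 1) :
    Integrable f μ := by
  refine Integrable.of_bound hf.aestronglyMeasurable 1 (ae_of_all _ fun x => ?_)
  rw [Real.norm_eq_abs, abs_of_nonneg (h x).1]
  exact (h x).2

theorem jl_pos {q : ℕ} (hq : 1 ≤ q) (l : Fin 3) : 1 ≤ jl q l := by
  unfold jl
  split_ifs <;> omega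

/-- the set where the two conditional expectations differ by at least `τ` -/
theorem dev (Q : Ω → Ω) (j : ℕ) {P c a : Ω → ℝ} (hP : Integrable P μ) (hc : Integrable c μ)
    (hca : ce μ Q j a =ᵐ[μ] ce μ Q j c) {δ τ : ℝ} (hτ : 0 < τ)
    (h : ∫ x, |c x - P x| ∂μ ≤ δ) :
    μ.real {x | τ ≤ |ce μ Q j P x - ce μ Q j a x|} ≤ δ / τ := by
  have hi : Integrable (fun x => |ce μ Q j P x - ce μ Q j a x|) μ := by
    refine Integrable.abs ?_
    refine Integrable.sub ?_ ?_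
    · exact integrable_condExp
    · exact integrable_condExp
  have h1 := mul_meas_ge_le_integral_of_nonneg (ae_of_all _ fun x => abs_nonneg _) hi τ
  have h2 : ∫ x, |ce μ Q j P x - ce μ Q j a x| ∂μ =
      ∫ x, |ce μ Q j P x - ce μ Q j c x| ∂μ := by
    refine integral_congr_ae ?_
    filter_upwards [hca] with x hx
    rw [hx]
  have h3 := ce_dist μ Q j hP hc
  have h4 : ∫ x, |P x - c x| ∂μ = ∫ x, |c x - P x| ∂μ := by
    refine integral_congr_ae (ae_of_all _ fun x => ?_)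
    exact abs_sub_comm _ _
  rw [le_div_iff₀ hτ, mul_comm]
  calc τ * μ.real {x | τ ≤ |ce μ Q j P x - ce μ Q j a x|}
      ≤ ∫ x, |ce μ Q j P x - ce μ Q j a x| ∂μ := h1
    _ ≤ ∫ x, |P x - c x| ∂μ := by rw [h2]; exact h3
    _ ≤ δ := by rw [h4]; exact h

end SLC_

open SLC_ in
/-- **SLC** -/
theorem p_SLC : T_APC.{u} → T_APY.{u} → T_TOR.{u} → T_BGS.{u} → T_PTW.{u} → T_SLC.{u} := by
  intro hAPC hAPY hTOR hBGS hPTW Ω _ μ _ Q Q' hQ hQ' hi1 hi2 A mA hA θ hθ hBig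
  choose c g hcm hgm hc01 hg1 hcg hAPF hRWM hce using
    fun l => hAPC Ω μ (Q l) (hQ l) A mA
  refine ⟨c, g, hcm, hgm, hc01, hg1, hcg, hRWM, ?_⟩
  have ha : 0 < μ.real A := by
    rw [measureReal_def]
    exact ENNReal.toReal_pos hA (measure_ne_top μ A)
  set a : ℝ := μ.real A with hadef
  set κ : ℝ := θ * a / 24 with hκdef
  have hκ : 0 < κ := by rw [hκdef]; positivity
  obtain ⟨η, ε₀, hη, hε₀, hP⟩ := hPTW (κ / 2) (θ / 4) (by positivity) (by positivity)
  refine ⟨η / 2, θ * a / 32, by positivity, by positivity, fun η' hη' => ?_⟩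
  set τ : ℝ := min (κ / 2) (θ / 12) with hτdef
  have hτ : 0 < τ := lt_min (by positivity) (by positivity)
  set δ : ℝ := τ * (θ * a / 96) with hδdef
  have hδ : 0 < δ := by rw [hδdef]; positivity
  choose P hPm hP0 hP1 hPc hPap using fun l => hAPF l (min η' δ) (lt_min hη' hδ)
  have hP01 : ∀ l x, 0 ≤ P l x ∧ P l x ≤ 1 := fun l x => ⟨hP0 l x, hP1 l x⟩
  choose θs hθm hθi hθa using
    fun l => hAPY Ω μ (Q l) (hQ l) ε₀ (P l) (hPap l ε₀ hε₀)
  obtain ⟨q, K, ρ, hq, hρ, hap⟩ := p_UNI Ω μ Q θs P ε₀ hθa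
  obtain ⟨k, hk, X₁, mX₁, hX₁, hKil⟩ := hTOR Ω μ (Fin 3 × Fin K)
    (fun i => θs i.1 i.2) (fun i => hθm i.1 i.2) (θ * a / 32) (by positivity)
  have hqk : 1 ≤ q * k := Nat.mul_pos hq hk
  set X₂ : Set Ω := {x | x ∈ A ∧
    1 + θ / 2 ≤ ∑ l, ce μ (Q l) (jl (q * k) l) (one A) x ∧
      ∀ l, κ ≤ ce μ (Q l) (jl (q * k) l) (one A) x} with hX₂def
  have hX₂ : θ * a / 8 ≤ μ.real X₂ := by
    have h := hBGS Ω μ Q hQ A mA θ κ hθ hκ hBig (fun l => jl (q * k) l)
    refine le_trans (le_of_eq ?_) h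
    rw [hκdef, hadef]
    ring
  have mX₂ : MeasurableSet X₂ := by
    have m1 : MeasurableSet {x | 1 + θ / 2 ≤ ∑ l, ce μ (Q l) (jl (q * k) l) (one A) x} :=
      measurableSet_le measurable_const
        (Finset.measurable_sum _ fun l _ => ce_meas μ (Q l) _ _)
    have m2 : MeasurableSet {x | ∀ l, κ ≤ ce μ (Q l) (jl (q * k) l) (one A) x} := by
      rw [Set.setOf_forall]
      exact MeasurableSet.iInter fun l =>
        measurableSet_le measurable_const (ce_meas μ (Q l) _ _)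
    exact mA.inter (m1.inter m2)
  set D : Fin 3 → Set Ω := fun l =>
    {x | τ ≤ |ce μ (Q l) (jl (q * k) l) (P l) x - ce μ (Q l) (jl (q * k) l) (one A) x|} with hDdef
  have mD : ∀ l, MeasurableSet (D l) := fun l =>
    measurableSet_le measurable_const
      ((ce_meas μ (Q l) _ _).sub (ce_meas μ (Q l) _ _)).abs
  have hD : ∀ l, μ.real (D l) ≤ θ * a / 96 := by
    intro l
    have h := dev μ (Q l) (jl (q * k) l) (int_of_bd μ (hPm l) (hP01 l))
      (int_of_bd μ (hcm l) (hc01 l)) (hce l _ (jl_pos hqk l)) hτ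
      ((hPc l).trans (min_le_right _ _))
    refine h.trans (le_of_eq ?_)
    rw [hδdef, mul_div_assoc, mul_comm, div_mul_cancel₀]
    exact hτ.ne'
  have mU : MeasurableSet (⋃ l, D l) := MeasurableSet.iUnion mD
  have hU : μ.real (⋃ l, D l) ≤ θ * a / 32 := by
    have h := measureReal_iUnion_fintype_le (μ := μ) D
    refine h.trans ?_
    rw [Fin.sum_univ_three]
    have h0 := hD 0
    have h1 := hD 1
    have h2 := hD 2
    linarith
  refine ⟨P, q * k, (X₂ ∩ X₁) \ ⋃ l, D l, hqk, (mX₂.inter mX₁).diff mU,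
    fun x hx => hx.1.1.1, ?_, hPm, hP01, fun l => (hPc l).trans (min_le_left _ _), ?_⟩
  · have hsub : X₂ ⊆ ((X₂ ∩ X₁) \ ⋃ l, D l) ∪ (X₁ᶜ ∪ ⋃ l, D l) := by
      intro x hx
      by_cases h1 : x ∈ X₁
      · by_cases h2 : x ∈ ⋃ l, D l
        · exact Or.inr (Or.inr h2)
        · exact Or.inl ⟨⟨hx, h1⟩, h2⟩
      · exact Or.inr (Or.inl h1)
    have h1 : μ.real X₂ ≤ μ.real (((X₂ ∩ X₁) \ ⋃ l, D l) ∪ (X₁ᶜ ∪ ⋃ l, D l)) :=
      measureReal_mono hsub
    have h2 := measureReal_union_le (μ := μ) ((X₂ ∩ X₁) \ ⋃ l, D l) (X₁ᶜ ∪ ⋃ l, D l)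
    have h3 := measureReal_union_le (μ := μ) X₁ᶜ (⋃ l, D l)
    have h4 : 0 < θ * a := mul_pos hθ ha
    linarith
  · refine hP Ω μ Q Q' hQ hQ' hi1 hi2 θs hθm hθi P hPm hP01 q K k ρ ε₀ hq hk hρ hε₀
      (le_refl _) hap _ ?_ ?_ ?_
    · intro x hx
      exact hKil x hx.1.2
    · intro x hx
      have hx2 : ∀ l, |ce μ (Q l) (jl (q * k) l) (P l) x -
          ce μ (Q l) (jl (q * k) l) (one A) x| < τ := by
        intro l
        by_contra hcon
        exact hx.2 (Set.mem_iUnion.2 ⟨l, not_lt.1 hcon⟩)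
      have h0 := (abs_lt.1 (hx2 0)).1
      have h1 := (abs_lt.1 (hx2 1)).1
      have h2 := (abs_lt.1 (hx2 2)).1
      have h3 := hx.1.1.2.1
      have hτ2 : τ ≤ θ / 12 := min_le_right _ _
      rw [Fin.sum_univ_three] at h3 ⊢
      linarith
    · intro x hx l
      have hx2 : |ce μ (Q l) (jl (q * k) l) (P l) x -
          ce μ (Q l) (jl (q * k) l) (one A) x| < τ := by
        by_contra hcon
        exact hx.2 (Set.mem_iUnion.2 ⟨l, not_lt.1 hcon⟩)
      have h0 := (abs_lt.1 hx2).1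
      have h3 := hx.1.1.2.2 l
      have hτ2 : τ ≤ κ / 2 := min_le_left _ _
      linarith

end Pool.Agent.LSQ
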