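import Pool.Agent.LSQ.Targets

set_option autoImplicit false

/-! TOR: a bounded exponent kills the torsion off a small set. -/

open MeasureTheory Filter Topology Finset

namespace Pool.Agent.LSQ

universe u

namespace TOR_

theorem meas {Ω : Type u} [MeasurableSpace Ω] {ι : Type} [Fintype ι] (φ : ι → Ω → Circle)
    (hφ : ∀ i, Measurable (φ i)) (k : ℕ) : MeasurableSet {x | Kil (fun i => φ i x) k} := by
  have h1 : ∀ n : ι → ℤ, Measurable fun x => ∏ l, φ l x ^ n l := by
    intro n
    have hc : Continuous fun z : ι → Circle => ∏ l, z l ^ n l :=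
      continuous_finsetProd _ fun l _ => (continuous_apply l).zpow (n l)
    exact hc.measurable.comp (measurable_pi_lambda _ hφ)
  have h2 : ∀ (n : ι → ℤ) (j : ℕ), MeasurableSet {x | (∏ l, φ l x ^ n l) ^ j = 1} := by
    intro n j
    exact measurableSet_eq_fun ((h1 n).pow_const j) measurable_const
  have h3 : {x | Kil (fun i => φ i x) k} = ⋂ n : ι → ℤ, ⋂ m : ℕ, ⋂ _ : 1 ≤ m,
      ({x | (∏ l, φ l x ^ n l) ^ m = 1}ᶜ ∪ {x | (∏ l, φ l x ^ n l) ^ k = 1}) := by
    ext x
    simp only [Set.mem_setOf_eq, Set.mem_iInter, Set.mem_union, Set.mem_compl_iff]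
    constructor
    · intro h n m hm
      by_cases h' : (∏ l, φ l x ^ n l) ^ m = 1
      · exact Or.inr (h n m hm h')
      · exact Or.inl h'
    · intro h n m hm h'
      rcases h n m hm with h'' | h''
      · exact absurd h' h''
      · exact h''
  rw [h3]
  exact MeasurableSet.iInter fun n => MeasurableSet.iInter fun m => MeasurableSet.iInter fun _ =>
    (h2 n m).compl.union (h2 n k)

end TOR_

theorem p_TOR (hK : T_KIL) : T_TOR.{u} := by
  intro Ω _ μ _ ι _ φ hφ δ hδ
  have hm : ∀ k : ℕ, MeasurableSet {x | Kil (fun i => φ i x) (Nat.factorial k)} :=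
    fun k => TOR_.meas φ hφ _
  have hmono : Monotone fun k : ℕ => {x | Kil (fun i => φ i x) (Nat.factorial k)} := by
    intro k k' hkk x hx
    obtain ⟨c, hc⟩ := Nat.factorial_dvd_factorial hkk
    have := (hK ι (fun i => φ i x)).2.1 _ c hx
    rw [← hc] at this
    exact this
  have hU : (⋃ k : ℕ, {x | Kil (fun i => φ i x) (Nat.factorial k)}) = Set.univ := by
    rw [Set.eq_univ_iff_forall]
    intro x
    obtain ⟨k, hk1, hk⟩ := (hK ι (fun i => φ i x)).1
    obtain ⟨c, hc⟩ := Nat.dvd_factorial hk1 le_rfl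
    have := (hK ι (fun i => φ i x)).2.1 _ c hk
    rw [← hc] at this
    exact Set.mem_iUnion.2 ⟨k, this⟩
  have ht := tendsto_measure_iUnion_atTop (μ := μ) hmono
  rw [hU, measure_univ] at ht
  have ht' : Tendsto (fun k : ℕ => μ.real {x | Kil (fun i => φ i x) (Nat.factorial k)}) atTop
      (𝓝 1) := by
    have := (ENNReal.tendsto_toReal ENNReal.one_ne_top).comp ht
    simpa [Measure.real, Function.comp_def] using this
  obtain ⟨k, hk⟩ := (ht'.eventually (lt_mem_nhds (show 1 - δ < 1 by linarith))).exists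
  refine ⟨Nat.factorial k, Nat.factorial_pos k, _, hm k, ?_, fun x hx => hx⟩
  rw [probReal_compl_eq_one_sub (hm k)]
  linarith

end Pool.Agent.LSQ
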