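import Pool.Agent.LSQ.Targets

set_option autoImplicit false

/-!
# UME: uniform means of an almost periodic sequence
-/

open MeasureTheory Filter Topology Finset

namespace Pool.Agent.LSQ

open Pool.Agent.FSP Pool.Agent.Ind3 Pool.Agent.CRk

namespace UME_

theorem shift_one (F : ℤ → ℝ) (hF : ∀ a, 0 ≤ F a ∧ F a ≤ 1) (N : ℕ) (s : ℤ) :
    |mz N (s + 1) F - mz N s F| ≤ 1 / (N : ℝ) := by
  have h1 : ∑ n ∈ range N, F (s + 1 + n) + F s = ∑ n ∈ range N, F (s + n) + F (s + N) := by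
    have h2 := Finset.sum_range_succ' (fun n : ℕ => F (s + n)) N
    have h3 := Finset.sum_range_succ (fun n : ℕ => F (s + n)) N
    rw [h2] at h3
    simp only [Nat.cast_add, Nat.cast_one, Nat.cast_zero, add_zero] at h3
    rw [← h3]
    congr 1
    refine Finset.sum_congr rfl fun n _ => ?_
    congr 1
    ring
  have h4 : mz N (s + 1) F - mz N s F = (N : ℝ)⁻¹ * (F (s + N) - F s) := by
    unfold mz
    rw [← mul_sub]
    congr 1
    linarith
  rw [h4, abs_mul, abs_of_nonneg (by positivity : (0 : ℝ) ≤ (N : ℝ)⁻¹), one_div]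
  have h5 : |F (s + N) - F s| ≤ 1 := by
    rw [abs_le]
    have a1 := hF (s + N)
    have a2 := hF s
    constructor <;> linarith [a1.1, a1.2, a2.1, a2.2]
  calc (N : ℝ)⁻¹ * |F (s + N) - F s| ≤ (N : ℝ)⁻¹ * 1 :=
        mul_le_mul_of_nonneg_left h5 (by positivity)
    _ = (N : ℝ)⁻¹ := mul_one _

theorem shift_nat (F : ℤ → ℝ) (hF : ∀ a, 0 ≤ F a ∧ F a ≤ 1) (N : ℕ) (s : ℤ) (t : ℕ) :
    |mz N (s + t) F - mz N s F| ≤ (t : ℝ) / (N : ℝ) := by
  induction t with
  | zero => simp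
  | succ t ih =>
    have h1 := shift_one F hF N (s + t)
    have h2 : s + ((t + 1 : ℕ) : ℤ) = s + t + 1 := by push_cast; ring
    rw [h2]
    have h3 : mz N (s + t + 1) F - mz N s F
        = (mz N (s + t + 1) F - mz N (s + t) F) + (mz N (s + t) F - mz N s F) := by ring
    rw [h3]
    refine (abs_add_le _ _).trans ?_
    have h4 : ((t + 1 : ℕ) : ℝ) / (N : ℝ) = 1 / (N : ℝ) + (t : ℝ) / (N : ℝ) := by
      push_cast
      ring
    rw [h4]
    exact add_le_add h1 ih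

theorem shift_int (F : ℤ → ℝ) (hF : ∀ a, 0 ≤ F a ∧ F a ≤ 1) (N : ℕ) (s t : ℤ) (L : ℕ)
    (ht : |t| ≤ (L : ℤ)) : |mz N (s + t) F - mz N s F| ≤ (L : ℝ) / (N : ℝ) := by
  have hm : (t.natAbs : ℝ) ≤ (L : ℝ) := by
    have h1 : (t.natAbs : ℤ) ≤ (L : ℤ) := by
      rw [Int.natCast_natAbs]
      exact ht
    exact_mod_cast h1
  have h0 : (t.natAbs : ℝ) / (N : ℝ) ≤ (L : ℝ) / (N : ℝ) :=
    div_le_div_of_nonneg_right hm (by positivity)
  rcases Int.natAbs_eq t with h | h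
  · rw [h]
    exact (shift_nat F hF N s t.natAbs).trans h0
  · have h1 := shift_nat F hF N (s + t) t.natAbs
    have h2 : s + t + (t.natAbs : ℤ) = s := by
      have : (t.natAbs : ℤ) = -t := by omega
      rw [this]
      ring
    rw [h2, abs_sub_comm] at h1
    exact h1.trans h0

theorem mean_le (N : ℕ) (c : ℝ) (hc : 0 ≤ c) (G : ℕ → ℝ) (hG : ∀ n < N, |G n| ≤ c) :
    |(N : ℝ)⁻¹ * ∑ n ∈ range N, G n| ≤ c := by
  rcases Nat.eq_zero_or_pos N with h | h
  · subst h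
    simpa using hc
  · have hN : (0 : ℝ) < N := by exact_mod_cast h
    rw [abs_mul, abs_of_nonneg (by positivity : (0 : ℝ) ≤ (N : ℝ)⁻¹)]
    have h1 : |∑ n ∈ range N, G n| ≤ N * c := by
      refine (Finset.abs_sum_le_sum_abs _ _).trans ?_
      have h2 := Finset.sum_le_sum fun n (hn : n ∈ range N) => hG n (Finset.mem_range.1 hn)
      simpa using h2
    calc (N : ℝ)⁻¹ * |∑ n ∈ range N, G n| ≤ (N : ℝ)⁻¹ * (N * c) :=
          mul_le_mul_of_nonneg_left h1 (by positivity)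
      _ = c := by field_simp

theorem shift_bohr {B : Set ℤ} {ε : ℝ} {F : ℤ → ℝ} (hε : 0 ≤ ε) (hF : AZ B ε F) (N : ℕ)
    (s k : ℤ) (hk : k ∈ B) : |mz N (s + k) F - mz N s F| ≤ ε := by
  have h1 : mz N (s + k) F - mz N s F
      = (N : ℝ)⁻¹ * ∑ n ∈ range N, (F (s + k + n) - F (s + n)) := by
    unfold mz
    rw [Finset.sum_sub_distrib, mul_sub]
  rw [h1]
  refine mean_le N ε hε _ fun n _ => ?_
  have h2 := hF.2 (s + n) k hk
  have h3 : s + n + k = s + k + n := by ring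
  rwa [h3] at h2

theorem window {B : Set ℤ} {ε : ℝ} {F : ℤ → ℝ} (hε : 0 ≤ ε) (hF : AZ B ε F) (L : ℕ)
    (hL : ∀ n : ℤ, ∃ k ∈ B, |n - k| ≤ (L : ℤ)) (N : ℕ) (s s' : ℤ) :
    |mz N s' F - mz N s F| ≤ ε + (L : ℝ) / (N : ℝ) := by
  obtain ⟨k, hk, hkL⟩ := hL (s' - s)
  have h1 := shift_int F hF.1 N (s + k) (s' - s - k) L hkL
  have h2 := shift_bohr hε hF N s k hk
  have h3 : s + k + (s' - s - k) = s' := by ring
  rw [h3] at h1
  have h4 : mz N s' F - mz N s F
      = (mz N (s + k) F - mz N s F) + (mz N s' F - mz N (s + k) F) := by ring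
  rw [h4]
  exact (abs_add_le _ _).trans (add_le_add h2 h1)

theorem block (F : ℤ → ℝ) (N N' : ℕ) (hN : 1 ≤ N) (s : ℤ) :
    mz (N * N') s F = (N' : ℝ)⁻¹ * ∑ j ∈ range N', mz N (s + (N * j : ℕ)) F := by
  have h1 : ∀ M : ℕ, ∑ n ∈ range (N * M), F (s + n)
      = ∑ j ∈ range M, ∑ n ∈ range N, F (s + (N * j : ℕ) + n) := by
    intro M
    induction M with
    | zero => simp
    | succ M ih =>
      rw [Nat.mul_succ, Finset.sum_range_add, ih, Finset.sum_range_succ]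
      congr 1
      refine Finset.sum_congr rfl fun n _ => ?_
      congr 1
      push_cast
      ring
  unfold mz
  rw [h1 N', ← Finset.mul_sum, ← mul_assoc]
  congr 1
  push_cast
  rw [mul_inv, mul_comm]

theorem block_le {B : Set ℤ} {ε : ℝ} {F : ℤ → ℝ} (hε : 0 ≤ ε) (hF : AZ B ε F) (L : ℕ)
    (hL : ∀ n : ℤ, ∃ k ∈ B, |n - k| ≤ (L : ℤ)) (N N' : ℕ) (hN : 1 ≤ N) (hN' : 1 ≤ N')
    (s s' : ℤ) : |mz (N * N') s F - mz N s' F| ≤ ε + (L : ℝ) / (N : ℝ) := by
  have hN'0 : (0 : ℝ) < N' := by exact_mod_cast hN'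
  have h1 : mz (N * N') s F - mz N s' F
      = (N' : ℝ)⁻¹ * ∑ j ∈ range N', (mz N (s + (N * j : ℕ)) F - mz N s' F) := by
    rw [block F N N' hN s, Finset.sum_sub_distrib, mul_sub]
    congr 1
    simp only [Finset.sum_const, Finset.card_range, nsmul_eq_mul]
    field_simp
  rw [h1]
  exact mean_le N' _ (by positivity) _ fun j _ => window hε hF L hL N _ _

end UME_

/-- Uniform means of an almost periodic sequence. -/
theorem p_UME : T_GAP → T_UME := by
  intro hGAP ι _ z ρ ε F hρ hε hF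
  obtain ⟨L, hL⟩ := hGAP ι z ρ hρ
  obtain ⟨M, hM⟩ := exists_nat_gt (2 * (L : ℝ) / ε)
  set K : ℕ := M + 1 with hK
  have hK1 : 1 ≤ K := by omega
  have hK0 : (0 : ℝ) < K := by exact_mod_cast hK1
  have hbd : ∀ N : ℕ, K ≤ N → (L : ℝ) / (N : ℝ) ≤ ε / 2 := by
    intro N hN
    have hN0 : (K : ℝ) ≤ N := by exact_mod_cast hN
    have h1 : 2 * (L : ℝ) / ε ≤ N := by
      have : (M : ℝ) ≤ K := by rw [hK]; push_cast; linarith
      linarith
    rw [div_le_iff₀ hε] at h1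
    rw [div_le_iff₀ (by linarith)]
    nlinarith
  have hcol : ∀ N s, 0 ≤ mz N s F ∧ mz N s F ≤ 1 := by
    intro N s
    constructor
    · unfold mz
      exact mul_nonneg (by positivity) (Finset.sum_nonneg fun n _ => (hF.1 _).1)
    · have := UME_.mean_le N 1 zero_le_one (fun n => F (s + n)) fun n _ => by
        rw [abs_of_nonneg (hF.1 _).1]
        exact (hF.1 _).2
      exact (le_abs_self _).trans this
  refine ⟨mz K 0 F, (hcol K 0).1, (hcol K 0).2, K, fun N hN s => ?_⟩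
  have hN1 : 1 ≤ N := hK1.trans hN
  have h1 := UME_.block_le hε.le hF L hL N K hN1 hK1 0 s
  have h2 := UME_.block_le hε.le hF L hL K N hK1 hN1 0 0
  rw [mul_comm K N] at h2
  have h3 := hbd N hN
  have h4 := hbd K le_rfl
  have h5 : mz N s F - mz K 0 F
      = (mz (N * K) 0 F - mz K 0 F) - (mz (N * K) 0 F - mz N s F) := by ring
  rw [h5]
  refine (abs_sub _ _).trans ?_
  linarith

end Pool.Agent.LSQ
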