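import Pool.Agent.LSQ.Targets

set_option autoImplicit false

/-!
# LSQ: the double means do not depend on the windows
-/

open MeasureTheory Filter Topology Finset

namespace Pool.Agent.LSQ

namespace UWN_

theorem succ_le (N : ℕ) (s : ℤ) (F : ℤ → ℝ) (h : ∀ a, 0 ≤ F a ∧ F a ≤ 1) :
    |mz N (s + 1) F - mz N s F| ≤ (N : ℝ)⁻¹ := by
  have e : ∑ n ∈ range N, F (s + 1 + n) - ∑ n ∈ range N, F (s + n) = F (s + N) - F s := by
    have h1 := Finset.sum_range_sub (fun n : ℕ => F (s + n)) N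
    rw [← Finset.sum_sub_distrib]
    simp only [Nat.cast_add, Nat.cast_one, Nat.cast_zero, add_zero] at h1
    rw [← h1]
    apply Finset.sum_congr rfl
    intro n _
    rw [add_assoc s 1 (n : ℤ), add_comm (1 : ℤ) n]
  unfold mz
  rw [← mul_sub, e, abs_mul, abs_of_nonneg (inv_nonneg.mpr (Nat.cast_nonneg N))]
  have h2 : |F (s + N) - F s| ≤ 1 := by
    rw [abs_le]
    have h3 := h (s + N)
    have h4 := h s
    constructor <;> linarith [h3.1, h3.2, h4.1, h4.2]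
  have h5 : (0 : ℝ) ≤ (N : ℝ)⁻¹ := inv_nonneg.mpr (Nat.cast_nonneg N)
  nlinarith

theorem nat_le (N : ℕ) (s : ℤ) (F : ℤ → ℝ) (h : ∀ a, 0 ≤ F a ∧ F a ≤ 1) (l : ℕ) :
    |mz N (s + l) F - mz N s F| ≤ l * (N : ℝ)⁻¹ := by
  induction l with
  | zero => simp
  | succ l ih =>
    have h1 := succ_le N (s + l) F h
    have h2 : s + ((l + 1 : ℕ) : ℤ) = s + l + 1 := by push_cast; ring
    rw [h2]
    have h3 := abs_sub_le (mz N (s + l + 1) F) (mz N (s + l) F) (mz N s F)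
    push_cast
    linarith

theorem int_le (N : ℕ) (s t : ℤ) (F : ℤ → ℝ) (h : ∀ a, 0 ≤ F a ∧ F a ≤ 1) (L : ℕ)
    (hL : |t - s| ≤ (L : ℤ)) : |mz N s F - mz N t F| ≤ L * (N : ℝ)⁻¹ := by
  have h5 : (0 : ℝ) ≤ (N : ℝ)⁻¹ := inv_nonneg.mpr (Nat.cast_nonneg N)
  rcases le_total s t with hst | hst
  · obtain ⟨l, hl⟩ := Int.le.dest hst
    rw [← hl, abs_sub_comm]
    refine (nat_le N s F h l).trans (mul_le_mul_of_nonneg_right ?_ h5)
    have h6 : t - s = l := by omega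
    rw [h6] at hL
    have h7 : l ≤ L := by
      rw [Nat.abs_cast] at hL
      exact_mod_cast hL
    exact_mod_cast h7
  · obtain ⟨l, hl⟩ := Int.le.dest hst
    rw [← hl]
    refine (nat_le N t F h l).trans (mul_le_mul_of_nonneg_right ?_ h5)
    have h6 : t - s = -l := by omega
    rw [h6, abs_neg] at hL
    have h7 : l ≤ L := by
      rw [Nat.abs_cast] at hL
      exact_mod_cast hL
    exact_mod_cast h7

theorem bd (N : ℕ) (s : ℤ) (F G : ℤ → ℝ) (δ : ℝ) (hδ : 0 ≤ δ) (h : ∀ a, |F a - G a| ≤ δ) :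
    |mz N s F - mz N s G| ≤ δ := by
  unfold mz
  rw [← mul_sub, ← Finset.sum_sub_distrib, abs_mul,
    abs_of_nonneg (inv_nonneg.mpr (Nat.cast_nonneg N))]
  have h1 : |∑ n ∈ range N, (F (s + n) - G (s + n))| ≤ N * δ := by
    refine (Finset.abs_sum_le_sum_abs _ _).trans ?_
    have h2 : ∑ n ∈ range N, |F (s + n) - G (s + n)| ≤ ∑ _n ∈ range N, δ :=
      Finset.sum_le_sum (fun n _ => h (s + n))
    rw [Finset.sum_const, Finset.card_range, nsmul_eq_mul] at h2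
    exact h2
  rcases Nat.eq_zero_or_pos N with hN | hN
  · subst hN
    simpa using hδ
  · have hN0 : (0 : ℝ) < N := by exact_mod_cast hN
    calc (N : ℝ)⁻¹ * |∑ n ∈ range N, (F (s + n) - G (s + n))| ≤ (N : ℝ)⁻¹ * (N * δ) :=
          mul_le_mul_of_nonneg_left h1 (inv_nonneg.mpr hN0.le)
      _ = δ := by rw [← mul_assoc, inv_mul_cancel₀ hN0.ne', one_mul]

theorem mem (N : ℕ) (s : ℤ) (F : ℤ → ℝ) (h : ∀ a, 0 ≤ F a ∧ F a ≤ 1) :
    0 ≤ mz N s F ∧ mz N s F ≤ 1 := by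
  have h5 : (0 : ℝ) ≤ (N : ℝ)⁻¹ := inv_nonneg.mpr (Nat.cast_nonneg N)
  constructor
  · exact mul_nonneg h5 (Finset.sum_nonneg (fun n _ => (h _).1))
  · have h1 := bd N s F (fun _ => 0) 1 zero_le_one (fun a => by
      rw [sub_zero, abs_of_nonneg (h a).1]
      exact (h a).2)
    have h2 : mz N s (fun _ => 0) = 0 := by
      unfold mz
      simp
    rw [h2, sub_zero] at h1
    exact (le_abs_self _).trans h1

theorem shift (N : ℕ) (s k : ℤ) (F : ℤ → ℝ) : mz N (s + k) F = mz N s (fun a => F (a + k)) := by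
  unfold mz
  congr 1
  apply Finset.sum_congr rfl
  intro n _
  congr 1
  ring

theorem prod3 {a b c a' b' c' x y w : ℝ} (ha : 0 ≤ a ∧ a ≤ 1) (hb : 0 ≤ b ∧ b ≤ 1)
    (hc' : 0 ≤ c' ∧ c' ≤ 1) (ha' : 0 ≤ a' ∧ a' ≤ 1)
    (hx : |a' - a| ≤ x) (hy : |b' - b| ≤ y) (hw : |c' - c| ≤ w) :
    |a' * b' * c' - a * b * c| ≤ x + y + w := by
  have e : a' * b' * c' - a * b * c =
      (a' - a) * (b * c') + a' * c' * (b' - b) + a * b * (c' - c) := by
    ring
  have h1 : |(a' - a) * (b * c')| ≤ x := by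
    rw [abs_mul, abs_of_nonneg (mul_nonneg hb.1 hc'.1)]
    have h2 : b * c' ≤ 1 := mul_le_one₀ hb.2 hc'.1 hc'.2
    have h3 := abs_nonneg (a' - a)
    have h4 := mul_nonneg hb.1 hc'.1
    nlinarith
  have h2 : |a' * c' * (b' - b)| ≤ y := by
    rw [abs_mul, abs_of_nonneg (mul_nonneg ha'.1 hc'.1)]
    have h2 : a' * c' ≤ 1 := mul_le_one₀ ha'.2 hc'.1 hc'.2
    have h3 := abs_nonneg (b' - b)
    have h4 := mul_nonneg ha'.1 hc'.1
    nlinarith
  have h3 : |a * b * (c' - c)| ≤ w := by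
    rw [abs_mul, abs_of_nonneg (mul_nonneg ha.1 hb.1)]
    have h2 : a * b ≤ 1 := mul_le_one₀ ha.2 hb.1 hb.2
    have h3 := abs_nonneg (c' - c)
    have h4 := mul_nonneg ha.1 hb.1
    nlinarith
  rw [e]
  have h4 := abs_add_le ((a' - a) * (b * c') + a' * c' * (b' - b)) (a * b * (c' - c))
  have h5 := abs_add_le ((a' - a) * (b * c')) (a' * c' * (b' - b))
  linarith

theorem prod_mem {a b c : ℝ} (ha : 0 ≤ a ∧ a ≤ 1) (hb : 0 ≤ b ∧ b ≤ 1) (hc : 0 ≤ c ∧ c ≤ 1) :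
    0 ≤ a * b * c ∧ a * b * c ≤ 1 :=
  ⟨mul_nonneg (mul_nonneg ha.1 hb.1) hc.1,
    mul_le_one₀ (mul_le_one₀ ha.2 hb.1 hb.2) hc.1 hc.2⟩

end UWN_

theorem p_UWN (hGAP : T_GAP) : T_UWN := by
  intro ι _ z ρ ε F H G hρ hε hF hH hG
  obtain ⟨L, hL⟩ := hGAP ι z ρ hρ
  refine ⟨⌈2 * (L : ℝ) / ε⌉₊ + 1, fun N hN s s' t t' => ?_⟩
  have hN0 : (0 : ℝ) < N := by
    have : 0 < N := by omega
    exact_mod_cast this
  have hNL : 2 * (L : ℝ) ≤ ε * N := by
    have h1 : 2 * (L : ℝ) / ε ≤ ⌈2 * (L : ℝ) / ε⌉₊ := Nat.le_ceil _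
    have h2 : (⌈2 * (L : ℝ) / ε⌉₊ : ℝ) ≤ N := by
      have : ⌈2 * (L : ℝ) / ε⌉₊ ≤ N := by omega
      exact_mod_cast this
    have h3 := h1.trans h2
    rw [div_le_iff₀ hε] at h3
    linarith
  obtain ⟨k, hk, hkL⟩ := hL (t - s)
  obtain ⟨k', hk', hkL'⟩ := hL (t' - s')
  have hmem : ∀ a c, 0 ≤ F a * H c * G (a + c) ∧ F a * H c * G (a + c) ≤ 1 :=
    fun a c => UWN_.prod_mem (hF.1 a) (hH.1 c) (hG.1 (a + c))
  have h1 : |dz N s s' F H G - dz N (s + k) (s' + k') F H G| ≤ 4 * ε := by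
    have e : dz N (s + k) (s' + k') F H G = mz N s (fun a => mz N s' (fun c =>
        F (a + k) * H (c + k') * G (a + k + (c + k')))) := by
      unfold dz
      rw [UWN_.shift]
      congr 1
      ext a
      rw [UWN_.shift]
    rw [e]
    unfold dz
    refine UWN_.bd N s _ _ _ (by linarith) (fun a => ?_)
    refine UWN_.bd N s' _ _ _ (by linarith) (fun c => ?_)
    rw [abs_sub_comm]
    have hG2 : |G (a + k + (c + k')) - G (a + c)| ≤ 2 * ε := by
      have g1 := hG.2 (a + c + k) k' hk'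
      have g2 := hG.2 (a + c) k hk
      have g3 : a + k + (c + k') = a + c + k + k' := by ring
      rw [g3]
      have g4 := abs_sub_le (G (a + c + k + k')) (G (a + c + k)) (G (a + c))
      linarith
    have h2 := UWN_.prod3 (hF.1 a) (hH.1 c) (hG.1 (a + k + (c + k'))) (hF.1 (a + k))
      (hF.2 a k hk) (hH.2 c k' hk') hG2
    linarith
  have h2 : |dz N (s + k) (s' + k') F H G - dz N t (s' + k') F H G| ≤ L * (N : ℝ)⁻¹ := by
    unfold dz
    refine UWN_.int_le N (s + k) t _ (fun a => UWN_.mem N _ _ (fun c => hmem a c)) L ?_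
    have : t - (s + k) = t - s - k := by ring
    rw [this]
    exact hkL
  have h3 : |dz N t (s' + k') F H G - dz N t t' F H G| ≤ L * (N : ℝ)⁻¹ := by
    unfold dz
    refine UWN_.bd N t _ _ _ (by positivity) (fun a => ?_)
    refine UWN_.int_le N (s' + k') t' _ (fun c => hmem a c) L ?_
    have : t' - (s' + k') = t' - s' - k' := by ring
    rw [this]
    exact hkL'
  have h4 : 2 * ((L : ℝ) * (N : ℝ)⁻¹) ≤ ε := by
    rw [← mul_assoc, ← div_eq_mul_inv, div_le_iff₀ hN0]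
    exact hNL
  have h5 := abs_sub_le (dz N s s' F H G) (dz N (s + k) (s' + k') F H G) (dz N t t' F H G)
  have h6 := abs_sub_le (dz N (s + k) (s' + k') F H G) (dz N t (s' + k') F H G)
    (dz N t t' F H G)
  linarith

end Pool.Agent.LSQ
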