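import Pool.Agent.LSQ.P_APC
import Pool.Agent.LSQ.P_APY
import Pool.Agent.LSQ.P_AVZ
import Pool.Agent.LSQ.P_BGS
import Pool.Agent.LSQ.P_DTI
import Pool.Agent.LSQ.P_DTL
import Pool.Agent.LSQ.P_ETZ
import Pool.Agent.LSQ.P_FZE
import Pool.Agent.LSQ.P_GAP
import Pool.Agent.LSQ.P_GNR
import Pool.Agent.LSQ.P_GTL
import Pool.Agent.LSQ.P_IVZ
import Pool.Agent.LSQ.P_KIL
import Pool.Agent.LSQ.P_LSF
import Pool.Agent.LSQ.P_MAL
import Pool.Agent.LSQ.P_MEN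
import Pool.Agent.LSQ.P_PJN
import Pool.Agent.LSQ.P_PTW
import Pool.Agent.LSQ.P_SEQ
import Pool.Agent.LSQ.P_SLC
import Pool.Agent.LSQ.P_TOR
import Pool.Agent.LSQ.P_UME
import Pool.Agent.LSQ.P_UWN

set_option autoImplicit false

/-! The blocks of the project LSQ put together. -/

namespace Pool.Agent.LSQ

universe u

theorem f_GAP : T_GAP := p_GAP
theorem f_GNR : T_GNR := p_GNR f_GAP
theorem f_UME : T_UME := p_UME f_GAP
theorem f_UWN : T_UWN := p_UWN f_GAP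
theorem f_ETZ : T_ETZ := p_ETZ f_UWN
theorem f_IVZ : T_IVZ := p_IVZ f_GNR f_UME
theorem f_FZE : T_FZE := p_FZE
theorem f_DTI : T_DTI := p_DTI f_UME f_IVZ f_ETZ f_FZE
theorem f_DTL : T_DTL := p_DTL f_DTI
theorem f_KIL : T_KIL := p_KIL
theorem f_AVZ : T_AVZ.{u} := p_AVZ
theorem f_SEQ : T_SEQ.{u} := p_SEQ
theorem f_MEN : T_MEN.{u} := p_MEN
theorem f_TOR : T_TOR.{u} := p_TOR f_KIL
theorem f_APC : T_APC.{u} := p_APC
theorem f_APY : T_APY.{u} := p_APY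
theorem f_PJN : T_PJN.{u} := p_PJN
theorem f_BGS : T_BGS.{u} := p_BGS f_PJN
theorem f_PTW : T_PTW.{u} := p_PTW f_KIL f_SEQ f_MEN f_UME f_DTL f_AVZ
theorem f_GTL : T_GTL.{u} := p_GTL
theorem f_SLC : T_SLC.{u} := p_SLC f_APC f_APY f_TOR f_BGS f_PTW
theorem f_MAL : T_MAL.{u} := p_MAL f_SLC f_GTL
theorem f_LSF : T_LSF.{u} := p_LSF f_PJN f_MAL

end Pool.Agent.LSQ
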