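import Pool.Agent.LSQ.Targets
import Pool.Agent.Ind3.Final
import Pool.Agent.CRk.P_OAG

set_option autoImplicit false

/-!
# LSQ, APC: decomposition of the indicator function
-/

open MeasureTheory Filter Topology Finset

namespace Pool.Agent.LSQ

open Pool.Agent.FSP Pool.Agent.Ind3 Pool.Agent.CRk

universe u

namespace APC_

variable {Ω : Type u} [MeasurableSpace Ω] {μ : Measure Ω} {Q : Ω → Ω}

omit [MeasurableSpace Ω] in
theorem mem_iter {j : ℕ} {t : Set Ω} (ht : Q^[j] ⁻¹' t = t) (n : ℕ) (x : Ω) :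
    Q^[j * n] x ∈ t ↔ x ∈ t := by
  induction n generalizing x with
  | zero => simp
  | succ n ih =>
    rw [Nat.mul_succ, Function.iterate_add_apply, ih]
    exact Set.ext_iff.1 ht x

theorem ap_ind {j : ℕ} (hj : 1 ≤ j) {t : Set Ω} (ht : Q^[j] ⁻¹' t = t)
    (F : Set (Ω → Circle)) {ε : ℝ} (hε : 0 < ε) : AP μ Q F ε (t.indicator fun _ => (1 : ℝ)) := by
  refine ⟨j, hj, 1, one_pos, 0, fun l => l.elim0, fun l => l.elim0, fun n => ?_⟩
  refine Eventually.of_forall fun x _ => ?_
  have h := mem_iter ht n x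
  by_cases hx : x ∈ t
  · rw [Set.indicator_of_mem (h.2 hx), Set.indicator_of_mem hx, sub_self, abs_zero]
    exact hε.le
  · rw [Set.indicator_of_notMem (fun h' => hx (h.1 h')), Set.indicator_of_notMem hx, sub_self,
      abs_zero]
    exact hε.le

theorem ce_zero [IsProbabilityMeasure μ] {g : Ω → ℝ} (hg : Measurable g)
    (hg1 : ∀ x, |g x| ≤ 1) (hO : OrtAP μ Q (FA Q) Set.univ g) {j : ℕ} (hj : 1 ≤ j) :
    ce μ Q j g =ᵐ[μ] 0 := by
  have hgi : Integrable g μ :=
    Integrable.of_bound hg.aestronglyMeasurable 1 (Eventually.of_forall fun x => by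
      rw [Real.norm_eq_abs]; exact hg1 x)
  have h := ae_eq_condExp_of_forall_setIntegral_eq (μ := μ)
    (MeasurableSpace.invariants_le Q^[j]) (f := g) (g := fun _ => (0 : ℝ)) hgi
    (fun s _ _ => integrableOn_zero) (fun s hs _ => ?_) aestronglyMeasurable_const
  · exact h.symm
  · rw [MeasurableSpace.measurableSet_invariants] at hs
    obtain ⟨hsm, hs⟩ := hs
    have h1 := hO (s.indicator fun _ => (1 : ℝ)) (measurable_const.indicator hsm)
      ⟨1, fun x => by
        by_cases hx : x ∈ s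
        · rw [Set.indicator_of_mem hx, abs_one]
        · rw [Set.indicator_of_notMem hx, abs_zero]; exact zero_le_one⟩
      (fun x hx => absurd (Set.mem_univ x) hx) fun ε hε => ap_ind hj hs _ hε
    have h2 : (fun x => g x * s.indicator (fun _ => (1 : ℝ)) x) = s.indicator g := by
      funext x
      by_cases hx : x ∈ s
      · rw [Set.indicator_of_mem hx, Set.indicator_of_mem hx, mul_one]
      · rw [Set.indicator_of_notMem hx, Set.indicator_of_notMem hx, mul_zero]
    rw [h2, integral_indicator hsm] at h1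
    rw [h1, integral_zero]

end APC_

theorem p_APC : T_APC.{u} := by
  intro Ω _ μ _ Q hQ A hA
  obtain ⟨c, g, hc, hg, hc0, hc1, hg1, hA1, hap, hort, -⟩ :=
    f_DCP Ω μ Q hQ (FA Q) (fun φ hφ => hφ) A hA
  refine ⟨c, g, hc, hg, fun x => ⟨hc0 x, hc1 x⟩, hg1, hA1, hap, p_OAG Ω μ Q hQ g hg hg1 hort,
    fun j hj => ?_⟩
  have hgi : Integrable g μ :=
    Integrable.of_bound hg.aestronglyMeasurable 1 (Eventually.of_forall fun x => by
      rw [Real.norm_eq_abs]; exact hg1 x)
  have hci : Integrable c μ :=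
    Integrable.of_bound hc.aestronglyMeasurable 1 (Eventually.of_forall fun x => by
      rw [Real.norm_eq_abs, abs_of_nonneg (hc0 x)]; exact hc1 x)
  have h1 : one A = c + g := funext hA1
  have h2 := condExp_add hci hgi (MeasurableSpace.invariants Q^[j])
  have h3 := APC_.ce_zero (Q := Q) hg hg1 hort hj
  unfold ce at h3 ⊢
  rw [h1]
  filter_upwards [h2, h3] with x hx hx'
  rw [hx, Pi.add_apply, hx', Pi.zero_apply, add_zero]

end Pool.Agent.LSQ
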