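import Pool.Agent.LSQ.Targets
import Pool.Agent.FSP.P_ERG

/-!
# T_MEN: the uniform mean of an orbit sequence
-/

set_option autoImplicit false

open MeasureTheory Filter Topology Finset

namespace Pool.Agent.LSQ

open Pool.Agent.FSP Pool.Agent.Ind3 Pool.Agent.CRk

universe u

namespace MEN_

theorem zit_nat {Ω : Type u} (Q Q' : Ω → Ω) (j n : ℕ) (x : Ω) :
    zit Q Q' (((j : ℕ) : ℤ) * (0 + (n : ℤ))) x = (Q^[j])^[n] x := by
  have h : (((j : ℕ) : ℤ) * (0 + (n : ℤ))) = Int.ofNat (j * n) := by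
    rw [zero_add]
    exact (Int.natCast_mul j n).symm
  rw [h, ← Function.iterate_mul]
  rfl

end MEN_

/-- MEN -/
theorem p_MEN : T_MEN.{u} := by
  intro Ω _ μ _ Q Q' hQ p hp h0 h1 j
  set S : Ω → Ω := Q^[j] with hS
  have hSm : MeasurePreserving S μ μ := hQ.iterate j
  have hb : ∀ x, |p x| ≤ 1 := fun x => abs_le.2 ⟨by linarith [h0 x], h1 x⟩
  have hE := p_ERG Ω μ S hSm p 1 hp hb
  set E : Ω → ℝ := μ[p | MeasurableSpace.invariants S] with hEd
  have hEi : Integrable E μ := integrable_condExp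
  set A : ℕ → Ω → ℝ := fun N x => (N : ℝ)⁻¹ * ∑ i ∈ range N, p (S^[i] x) with hA
  have hAm : ∀ N, Measurable (A N) := by
    intro N
    refine measurable_const.mul (Finset.measurable_fun_sum _ fun i _ => ?_)
    exact hp.comp (hSm.iterate i).measurable
  have hAb : ∀ N x, |A N x| ≤ 1 := by
    intro N x
    simp only [hA]
    rcases Nat.eq_zero_or_pos N with rfl | hN
    · simp
    · have hN' : (0 : ℝ) < N := by exact_mod_cast hN
      rw [abs_mul, abs_of_nonneg (inv_nonneg.2 hN'.le), inv_mul_le_iff₀ hN', mul_one]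
      refine (Finset.abs_sum_le_sum_abs _ _).trans ?_
      refine (Finset.sum_le_sum fun i _ => hb _).trans ?_
      simp
  have hAi : ∀ N, Integrable (A N) μ := by
    intro N
    refine Integrable.of_bound (hAm N).aestronglyMeasurable 1 ?_
    exact Eventually.of_forall fun x => by rw [Real.norm_eq_abs]; exact hAb N x
  -- convergence in mean
  have hL : Tendsto (fun N => ∫ x, ‖(A N - E) x‖ ∂μ) atTop (𝓝 0) := by
    rw [Metric.tendsto_atTop]
    intro ε hε
    obtain ⟨N₀, hN₀⟩ := hE (ε / 2) (by positivity)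
    refine ⟨N₀, fun N hN => ?_⟩
    have h2 := hN₀ N hN
    have h3 : 0 ≤ ∫ x, ‖(A N - E) x‖ ∂μ := integral_nonneg fun x => norm_nonneg _
    rw [Real.dist_eq, sub_zero, abs_of_nonneg h3]
    have h4 : ∫ x, ‖(A N - E) x‖ ∂μ ≤ ε / 2 := h2
    linarith
  have hLp : Tendsto (fun N => eLpNorm (A N - E) 1 μ) atTop (𝓝 0) := by
    have h2 : ∀ N, eLpNorm (A N - E) 1 μ = ENNReal.ofReal (∫ x, ‖(A N - E) x‖ ∂μ) := by
      intro N
      rw [eLpNorm_one_eq_lintegral_enorm, ofReal_integral_norm_eq_lintegral_enorm]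
      exact (hAi N).sub hEi
    simp_rw [h2]
    have h3 := ENNReal.tendsto_ofReal hL
    rwa [ENNReal.ofReal_zero] at h3
  have hTM : TendstoInMeasure μ A atTop E :=
    tendstoInMeasure_of_tendsto_eLpNorm one_ne_zero (fun N => (hAm N).aestronglyMeasurable)
      hEi.aestronglyMeasurable hLp
  obtain ⟨ns, hns, hae⟩ := hTM.exists_seq_tendsto_ae
  filter_upwards [hae] with x hx δ f hUM
  obtain ⟨N₁, hN₁⟩ := hUM
  have h5 : Tendsto (fun i => |f - A (ns i) x|) atTop (𝓝 |f - E x|) :=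
    (tendsto_const_nhds.sub hx).abs
  refine le_of_tendsto h5 ?_
  filter_upwards [hns.tendsto_atTop.eventually_ge_atTop N₁] with i hi
  have h6 := hN₁ (ns i) hi 0
  have h7 : mz (ns i) 0 (fun a : ℤ => p (zit Q Q' ((j : ℕ) * a) x)) = A (ns i) x := by
    unfold mz
    simp only [hA]
    congr 1
    apply Finset.sum_congr rfl
    intro n _
    show p (zit Q Q' (((j : ℕ) : ℤ) * (0 + (n : ℤ))) x) = _
    rw [MEN_.zit_nat]
  rw [h7] at h6
  rw [abs_sub_comm]
  exact h6

end Pool.Agent.LSQ
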