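import Pool.Agent.LSQ.Defs
import Pool.Agent.CRk.Targets

set_option autoImplicit false

/-!
# LSQ targets (MP_cfac66_an, large sets). Every target has its proof in the docstring.
Facts of FSP, Ind3 and CRk are available (`Pool.Agent.FSP.f_ERG`, `Pool.Agent.Ind3.f_DE1`,
`f_DCP`, `f_APX`, `f_LSU`, `f_GVQ`, `f_ORD`, `Pool.Agent.CRk.p_OAG`, `p_UNI`, `p_GTM`, ..).
-/

open MeasureTheory Filter Topology Finset

namespace Pool.Agent.LSQ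

open Pool.Agent.FSP Pool.Agent.Ind3 Pool.Agent.CRk

universe u

/-! ## A. Sequences on `ℤ` (no measure) -/

/-- GAP. Bohr sets have bounded gaps. PROOF. `ι → Circle` is compact: cover it by finitely many
balls of radius `ρ/2`; for every ball which contains a point ` (z l ^ n)_l` choose such an `n`, call
it `n_i`. For every `n` the point ` (z l ^ n)_l` is in such a ball, so `‖z l ^ n - z l ^ n_i‖ ≤ ρ` and
`k = n - n_i ∈ BZ z ρ` (multiply by the unimodular `z l ^ (-n_i)`). `L` = maximum of the `|n_i|`. -/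
def T_GAP : Prop := ∀ (ι : Type) [Fintype ι] (z : ι → Circle) (ρ : ℝ), 0 < ρ →
  ∃ L : ℕ, ∀ n : ℤ, ∃ k ∈ BZ z ρ, |n - k| ≤ (L : ℤ)

/-- GNR. Without torsion the Bohr sets generate `ℤ`. PROOF. `H = closure (BZ z ρ)` is the group of
the multiples of some `m : ℕ` (`Int.subgroup_cyclic`, `AddSubgroup.zmultiples`); `m ≠ 0` as `BZ z ρ`
is not contained in `{0}` (GAP). Suppose `m ≥ 2`, `χ = Circle.exp (2 π / m)`: `χ^k = 1` iff `m ∣ k`.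
`χ` is not in the subgroup generated by the `z l`: otherwise `χ = ∏ z l ^ n l`, `χ^m = 1`, so `χ = 1`
by `TF0`, contradiction. Let `φ y = max 0 (1 - (2/ρ) * sup_l ‖z l ^ y - 1‖)` for `y : ℕ` (for empty
`ι`: then `BZ = univ`, trivial). `|φ (y + h) - φ y| ≤ (2/ρ) sup_l ‖z l ^ h - 1‖`. `φ y ≠ 0` implies
`y ∈ BZ z ρ`, so `m ∣ y` and `χ^y = 1`. So the means of `χ^y φ y` and of `φ y` are the same; the first
is `≤ 2 ε'` for large `N` and every `ε' > 0` by Ind3.f_DE1 (`q = 1`, `τ` the image of `z`, radius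
`ρ ε' / 2`), the second is bounded below: `φ ≥ 1/2` on `BZ z (ρ/4)`, which meets every interval of
length `2 L + 1` (GAP). Contradiction. -/
def T_GNR : Prop := ∀ (ι : Type) [Fintype ι] (z : ι → Circle) (ρ : ℝ), 0 < ρ → TF0 z →
  AddSubgroup.closure (BZ z ρ) = ⊤

/-- UME. Uniform means. PROOF. `L` from GAP. For `s, s'` there is `k ∈ BZ z ρ` with
`|s' - s - k| ≤ L`, so `|mz N s' F - mz N s F| ≤ ε + 2 L / N`. `mz (N * N') s F` is the mean of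
`mz N (s + j N) F` over `j < N'`; so `|mz N s F - mz N' s' F| ≤ 2 ε + 2 L / N + 2 L / N'` for all
`N, N' ≥ 1`, `s, s'`. Take `f = mz N* 0 F` for one `N*` with `2 L / N* ≤ ε / 4`. -/
def T_UME : Prop := ∀ (ι : Type) [Fintype ι] (z : ι → Circle) (ρ ε : ℝ) (F : ℤ → ℝ), 0 < ρ →
  0 < ε → AZ (BZ z ρ) ε F → ∃ f : ℝ, 0 ≤ f ∧ f ≤ 1 ∧ UM (3 * ε) f F

/-- UWN. The double means do not depend on the windows. PROOF. `L` from GAP. Choose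
`k, k' ∈ BZ z ρ` with `|t - s - k| ≤ L`, `|t' - s' - k'| ≤ L`. Moving ` (a, c)` to
` (a + k, c + k')` changes `F a * H c * G (a + c)` by at most `ε + ε + 2 ε` (two steps for `G`), and
the remaining shifts of the windows cost `2 L / N` each: `4 ε + 4 L / N ≤ 5 ε` for large `N`. -/
def T_UWN : Prop := ∀ (ι : Type) [Fintype ι] (z : ι → Circle) (ρ ε : ℝ) (F H G : ℤ → ℝ),
  0 < ρ → 0 < ε → AZ (BZ z ρ) ε F → AZ (BZ z ρ) ε H → AZ (BZ z ρ) ε G →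
  ∃ N₀ : ℕ, ∀ N ≥ N₀, ∀ s s' t t' : ℤ, |dz N s s' F H G - dz N t t' F H G| ≤ 5 * ε

/-- ETZ. The e-transform. PROOF. With `F' a = F a + H (a+e) - F a * H (a+e)` and
`H' c = H c * F (c-e)`: `F' a * H' c * G (a+c) ≤ F a * H c * G (a+c) + H (a+e) * F (c-e) * G (a+c)`
(`F, H, G ∈ [0,1]`). The double mean of the last term over the windows `s, s'` is, after exchanging
the sums and substituting `a' = c - e`, `c' = a + e`, equal to `dz N (s' - e) (s + e) F H G`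
(`a' + c' = a + c`), which is `≤ dz N s s' F H G + 5 ε` by UWN. -/
def T_ETZ : Prop := ∀ (ι : Type) [Fintype ι] (z : ι → Circle) (ρ ε : ℝ) (F H G : ℤ → ℝ)
  (e : ℤ) (η : ℝ), 0 < ρ → 0 < ε → AZ (BZ z ρ) ε F → AZ (BZ z ρ) ε H → AZ (BZ z ρ) ε G →
  LB η (fun a => F a + H (a + e) - F a * H (a + e)) (fun c => H c * F (c - e)) G →
  LB ((η - 5 * ε) / 2) F H G

/-- IVZ. Intermediate values. PROOF. For every `e` the product `a ↦ F a * H (a + e)` is in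
`AZ (BZ z ρ) (2 ε)`: UME gives `φ e` with `UM (6 ε)`. For `k ∈ BZ z ρ`:
`|F a * H (a+e+k) - F a * H (a+e)| ≤ ε`, so `|φ (e+k) - φ e| ≤ 13 ε`. Let `E` be large for `UM (3 ε) h
H`: the mean over `e ∈ [0, E)` of `mz N 0 (F * H (· + e))` is `mz N 0 (fun a => F a * mz E a H)`, within
`3 ε + 3 ε` of `f h` for `N` large; so the mean of `φ e` over `e < E` is within `12 ε` of `f h` and
there are `e₁, e₂` with `φ e₁ ≤ f h + 12 ε`, `φ e₂ ≥ f h - 12 ε`. Suppose `|φ e - f h| > 13 ε` for all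
`e`; then `S = {e | φ e < f h}` and its complement are stable under adding elements of `BZ z ρ`
(steps `≤ 13 ε`), hence under adding elements of `AddSubgroup.closure (BZ z ρ) = ⊤` (GNR; `BZ` is
symmetric), so `S` is empty or everything; but `e₁ ∈ S` and `e₂ ∉ S`. So some `e` has
`|φ e - f h| ≤ 13 ε`, and `6 ε + 13 ε ≤ 20 ε`. -/
def T_IVZ : Prop := ∀ (ι : Type) [Fintype ι] (z : ι → Circle) (ρ ε : ℝ) (F H : ℤ → ℝ)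
  (f h : ℝ), 0 < ρ → 0 < ε → TF0 z → AZ (BZ z ρ) ε F → AZ (BZ z ρ) ε H → 0 ≤ f → f ≤ 1 →
  0 ≤ h → h ≤ 1 → UM (3 * ε) f F → UM (3 * ε) h H →
  ∃ e : ℤ, UM (20 * ε) (f * h) (fun a => F a * H (a + e))

/-- FZE. PROOF. `F a * G b ≥ F a + G b - 1`. Exchange the sums: `dz N s s' F H G` is the mean over
`c` of `H c * mz N s (fun a => F a * G (a + c))`, and the inner mean is at least
` (f - δ) + (g - δ) - 1 ≥ 0` (`mz N s (fun a => G (a + c)) = mz N (s + c) G`); `mz N s' H ≥ h - δ`. -/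
def T_FZE : Prop := ∀ (F H G : ℤ → ℝ) (δ f h g : ℝ), 0 ≤ δ → (∀ a, 0 ≤ F a ∧ F a ≤ 1) →
  (∀ a, 0 ≤ H a ∧ H a ≤ 1) → (∀ a, 0 ≤ G a ∧ G a ≤ 1) → UM δ f F → UM δ h H → UM δ g G →
  δ ≤ h → 0 ≤ f + g - 1 - 2 * δ → LB ((h - δ) * (f + g - 1 - 2 * δ)) F H G

/-- DTI. The iteration. PROOF. Induction on `n` (for all `φ, ω, θ`). If `1 - f ≤ κ/2` (in
particular for `n = 0`) then `f + g - 1 ≥ κ/2` and FZE with `δ = 3 ε` gives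
`LB ((ω/2) * (κ/4))` if `3 ε ≤ ω/2`, `6 ε ≤ κ/4`. If `h ≤ θ₀/2` then `f + g - 1 ≥ θ - h ≥ θ₀/2` and FZE
gives `LB ((ω/2) * (θ₀/4))` if `3 ε ≤ ω/2`, `6 ε ≤ θ₀/4`. Otherwise `h > θ₀/2`, `1 - f > κ/2`, `n = n' +
1`. Let `e` be from IVZ, `F' a = F a + H (a+e) - F a * H (a+e)`, `H' c = H c * F (c-e)`: both are in
`AZ (BZ z ρ) (2 ε)`, UME gives `f', h' ∈ [0,1]` with `UM (6 ε)`. As `H' (c + e) = F c * H (c+e)`,
`|h' - f h| ≤ 26 ε`, and `|f' - (f + h - f h)| ≤ 6 ε + 26 ε`. So for small `ε` (depending on `κ, θ₀, φ,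
ω, θ` only): `f' ≥ f - 32 ε ≥ φ/2`, `h' ≥ φ ω / 2`, `f' + h' + g ≥ 1 + θ - 58 ε ≥ 1 + (θ + θ₀)/2`,
`1 - f' ≤ (1-f)(1-h) + 32 ε ≤ (1-f)(1 - θ₀/2) + 32 ε ≤ (1-f)(1 - θ₀/4)` (as ` (1-f) θ₀/4 ≥ κ θ₀/8`).
The induction hypothesis for `n'`, `φ/2`, `φ ω/2`, ` (θ+θ₀)/2`, with `2 ε` instead of `ε`, gives
`LB η' F' H' G`, and ETZ gives `LB (η'/4) F H G` if `5 ε ≤ η'/2` (`LB` is monotone in `η`). -/
def T_DTI : Prop := ∀ κ θ₀ : ℝ, 0 < κ → κ ≤ 1 → 0 < θ₀ → θ₀ ≤ 1 → ∀ (n : ℕ) (φ ω θ : ℝ),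
  0 < φ → 0 < ω → θ₀ < θ → ∃ η ε₀ : ℝ, 0 < η ∧ 0 < ε₀ ∧
  ∀ (ι : Type) [Fintype ι] (z : ι → Circle) (ρ ε : ℝ) (F H G : ℤ → ℝ) (f h g : ℝ), 0 < ρ →
  0 < ε → ε ≤ ε₀ → TF0 z → AZ (BZ z ρ) ε F → AZ (BZ z ρ) ε H → AZ (BZ z ρ) ε G →
  UM (3 * ε) f F → UM (3 * ε) h H → UM (3 * ε) g G → φ ≤ f → f ≤ 1 → ω ≤ h → h ≤ 1 → κ ≤ g →
  g ≤ 1 → 1 + θ ≤ f + h + g → (1 - f) * (1 - θ₀ / 4) ^ n ≤ κ / 2 → LB η F H G

/-- DTL. PROOF. DTI with `κ' = min κ 1`, `θ₀ = min θ 1 / 2`, `φ = ω = κ'`, and `n` such that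
` (1 - θ₀/4)^n ≤ κ'/2` (`1 - f ≤ 1`). -/
def T_DTL : Prop := ∀ κ θ : ℝ, 0 < κ → 0 < θ → ∃ η ε₀ : ℝ, 0 < η ∧ 0 < ε₀ ∧
  ∀ (ι : Type) [Fintype ι] (z : ι → Circle) (ρ ε : ℝ) (F H G : ℤ → ℝ) (f h g : ℝ), 0 < ρ →
  0 < ε → ε ≤ ε₀ → TF0 z → AZ (BZ z ρ) ε F → AZ (BZ z ρ) ε H → AZ (BZ z ρ) ε G →
  UM (3 * ε) f F → UM (3 * ε) h H → UM (3 * ε) g G → κ ≤ f → f ≤ 1 → κ ≤ h → h ≤ 1 → κ ≤ g →
  g ≤ 1 → 1 + θ ≤ f + h + g → LB η F H G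

/-- KIL. Torsion. PROOF. First part: `{n : ι → ℤ | ∃ m ≥ 1, (∏ z l ^ n l)^m = 1}` is a subgroup of
the Noetherian `ℤ`-module `ι → ℤ`; `k` = product of exponents of finitely many generators. Second
part: ` (∏ z^n)^(k c) = ((∏ z^n)^k)^c`. Third part: if ` (∏ (z l^k)^(n l))^m = 1` then
` (∏ z l^(n l))^(k m) = 1`, `k m ≥ 1`, so ` (∏ z l^(n l))^k = 1`. -/
def T_KIL : Prop := ∀ (ι : Type) [Fintype ι] (z : ι → Circle),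
  (∃ k : ℕ, 1 ≤ k ∧ Kil z k) ∧ (∀ k c : ℕ, Kil z k → Kil z (k * c)) ∧
  ∀ k : ℕ, 1 ≤ k → Kil z k → TF0 fun l => z l ^ k

/-- AVZ. The triple mean is at least half of the double mean. PROOF. ORD (or directly) with `y 1`
outermost. For even `y 1 = 2 e < N` the mean over `y 0 ∈ [N,2N)`, `y 2 ∈ [3N,4N)` is
`dz N (N + e) (3 N - e) ..`: put `a = y 0 + e`, `c = y 2 - e`; `q (2 y 0 + 2 e) = 2 q a`,
`q (2 y 2 - 2 e) = 2 q c`, `q (y 0 + y 2) = q (a + c)` (natural numbers, `zit` at a non-negative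
integer is the iterate). At least `N/2` of the numbers `y 1 < N` are even, the other terms are
`≥ 0`. -/
def T_AVZ : Prop := ∀ (Ω : Type u) (Q Q' : Fin 3 → Ω → Ω) (P : Fin 3 → Ω → ℝ),
  (∀ l x, 0 ≤ P l x) → ∀ (q : ℕ) (η : ℝ) (x : Ω), 0 ≤ η →
  LB η (fun a => P 2 (zit (Q 2) (Q' 2) ((2 * q : ℕ) * a) x))
    (fun c => P 0 (zit (Q 0) (Q' 0) ((2 * q : ℕ) * c) x))
    (fun b => P 1 (zit (Q 1) (Q' 1) ((q : ℕ) * b) x)) →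
  ∃ N₀ : ℕ, ∀ N ≥ N₀, η / 2 ≤ avg3 N (fun y => ∏ l, P l ((Q l)^[q * tm l y] x))

/-! ## B. Measure theory -/

/-- SEQ. The orbit sequences on `ℤ`. PROOF. For a.e. `x` the hypothesis holds at all the points
`Q'^[S] x`, `S : ℕ`, and `θ j (Q'^[S] x) = θ j x`. Given `n, k` choose `S` with `S + n ≥ 0` and
`S + n + q k ≥ 0`; for `S + m ≥ 0` one has `zit Q Q' m x = Q^[(S + m).toNat] (Q'^[S] x)`. If
`k ≥ 0`: `t = (S + n).toNat`, `h = k.toNat`. If `k < 0`: exchange the two points,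
`‖z^(-k) - 1‖ = ‖z^k - 1‖`. -/
def T_SEQ : Prop := ∀ (Ω : Type u) [MeasurableSpace Ω] (μ : Measure Ω) [IsProbabilityMeasure μ]
  (Q Q' : Ω → Ω), MeasurePreserving Q μ μ → MeasurePreserving Q' μ μ → (∀ x, Q' (Q x) = x) →
  (∀ x, Q (Q' x) = x) → ∀ (θ : ℕ → Ω → Circle), (∀ j x, θ j (Q x) = θ j x) →
  ∀ (p : Ω → ℝ) (q K : ℕ) (ρ ε : ℝ),
  (∀ᵐ x ∂μ, ∀ t h : ℕ, (∀ j < K, ‖(θ j x : ℂ) ^ h - 1‖ ≤ ρ) →
    |p (Q^[t + q * h] x) - p (Q^[t] x)| ≤ ε) →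
  ∀ᵐ x ∂μ, ∀ n k : ℤ, (∀ j < K, ‖((θ j x ^ k : Circle) : ℂ) - 1‖ ≤ ρ) →
    |p (zit Q Q' (n + q * k) x) - p (zit Q Q' n x)| ≤ ε

/-- MEN. The uniform mean of an orbit sequence is close to the conditional expectation. PROOF.
FSP.f_ERG for the map `Q^[j]`: ` (1/N) ∑_{n<N} p ((Q^[j])^[n] x) → ce μ Q j p x` in `L¹`, so a.e. along
a sequence `N_i → ∞` (`tendstoInMeasure` / `exists_seq_tendsto_ae`). The sum is
`mz N 0 (fun a => p (zit Q Q' (j * a) x))`, which is within `δ` of `f` for large `N`. -/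
def T_MEN : Prop := ∀ (Ω : Type u) [MeasurableSpace Ω] (μ : Measure Ω) [IsProbabilityMeasure μ]
  (Q Q' : Ω → Ω), MeasurePreserving Q μ μ → ∀ p : Ω → ℝ, Measurable p → (∀ x, 0 ≤ p x) →
  (∀ x, p x ≤ 1) → ∀ j : ℕ, ∀ᵐ x ∂μ, ∀ δ f : ℝ,
    UM δ f (fun a : ℤ => p (zit Q Q' ((j : ℕ) * a) x)) → |f - ce μ Q j p x| ≤ δ

/-- TOR. A bounded exponent kills the torsion off a small set. PROOF. `X k = {x | Kil (φ · x)
(k !)}` is measurable (countable intersection over `n, m`), increasing in `k` (KIL), with union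
everything (KIL, `k ∣ k !`). -/
def T_TOR : Prop := ∀ (Ω : Type u) [MeasurableSpace Ω] (μ : Measure Ω) [IsProbabilityMeasure μ]
  (ι : Type) [Fintype ι] (φ : ι → Ω → Circle), (∀ i, Measurable (φ i)) → ∀ δ : ℝ, 0 < δ →
  ∃ k : ℕ, 1 ≤ k ∧ ∃ X : Set Ω, MeasurableSet X ∧ μ.real Xᶜ ≤ δ ∧
    ∀ x ∈ X, Kil (fun i => φ i x) k

/-- APC. Decomposition. PROOF. Ind3.f_DCP for `F = FA Q`; CRk.p_OAG for `RWM`. For a measurable set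
`t` with `(Q^[j])⁻¹ t = t`, `j ≥ 1`, the indicator `1_t` satisfies `AP μ Q (FA Q) ε` for every
`ε > 0` (with `q = j`, `d = 0`), so `∫_t g = 0`; hence `μ[g | invariants Q^[j]] = 0` a.e. and
`ce μ Q j (one A) = ce μ Q j c` a.e. -/
def T_APC : Prop := ∀ (Ω : Type u) [MeasurableSpace Ω] (μ : Measure Ω) [IsProbabilityMeasure μ]
  (Q : Ω → Ω), MeasurePreserving Q μ μ → ∀ A : Set Ω, MeasurableSet A →
  ∃ c g : Ω → ℝ, Measurable c ∧ Measurable g ∧ (∀ x, 0 ≤ c x ∧ c x ≤ 1) ∧ (∀ x, |g x| ≤ 1) ∧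
    (∀ x, one A x = c x + g x) ∧ APF μ Q (FA Q) c ∧ RWM μ Q g ∧
    ∀ j : ℕ, 1 ≤ j → ce μ Q j (one A) =ᵐ[μ] ce μ Q j c

/-- APY. Lists. PROOF. `AP` gives `q, ρ, d, τ`; `θ j = τ j` for `j < d`, else the constant `1`
(measurable, invariant); so `AP μ Q (FF θ) ε p`, and Ind3.f_APX. -/
def T_APY : Prop := ∀ (Ω : Type u) [MeasurableSpace Ω] (μ : Measure Ω) [IsProbabilityMeasure μ]
  (Q : Ω → Ω), MeasurePreserving Q μ μ → ∀ (ε : ℝ) (p : Ω → ℝ), AP μ Q (FA Q) ε p →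
  ∃ θ : ℕ → Ω → Circle, (∀ j, Measurable (θ j)) ∧ (∀ j x, θ j (Q x) = θ j x) ∧ APP μ Q θ ε p

/-- PJN. Facts on `ce μ Q j (one A)`. PROOF. ` (1)` with `p j = ce μ Q j (one A)` one has
`∫_A p j = ∫ p j ²` (pull out, `condExp_mul_of_stronglyMeasurable_left` and `integral_condExp`),
`p 1 = μ[p j | invariants Q]` (tower: invariant sets of `Q` are invariant sets of `Q^[j]`), so
`∫ p 1 ² = ∫ p 1 p j ≤ (∫ p 1 ²)^(1/2) (∫ p j ²)^(1/2)` or `∫ (p j - p 1)² ≥ 0`. (2) FSP.f_ERG for `Q`,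
`F = one A`, integrated over `A`: ` (1/N) ∑ μ (A ∩ Q^{-n} A) → ∫_A p 1`. (3) `{p j < κ}` is an
invariant set `t` of `Q^[j]`, `μ (A ∩ t) = ∫_t p j ≤ κ`. (4) ` (∫ p 1)² ≤ ∫ p 1 ²`, `∫ p 1 = μ A`. -/
def T_PJN : Prop := ∀ (Ω : Type u) [MeasurableSpace Ω] (μ : Measure Ω) [IsProbabilityMeasure μ]
  (Q : Ω → Ω), MeasurePreserving Q μ μ → ∀ A : Set Ω, MeasurableSet A →
  (∀ j : ℕ, ∫ x in A, ce μ Q 1 (one A) x ∂μ ≤ ∫ x in A, ce μ Q j (one A) x ∂μ) ∧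
  Tendsto (fun N : ℕ => (N : ℝ)⁻¹ * ∑ n ∈ range N, μ.real (A ∩ Q^[n] ⁻¹' A)) atTop
    (𝓝 (∫ x in A, ce μ Q 1 (one A) x ∂μ)) ∧
  (∀ (j : ℕ) (κ : ℝ), 0 < κ → μ.real {x | x ∈ A ∧ ce μ Q j (one A) x < κ} ≤ κ) ∧
  (μ.real A) ^ 2 ≤ ∫ x in A, ce μ Q 1 (one A) x ∂μ

/-- BGS. The set where the conditional densities are large. PROOF. By PJN and `Big`,
`∑_l ∫_A ce μ (Q l) (j l) (one A) ≥ (1 + θ) μ A`. With `s` the sum of the three conditional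
expectations (`0 ≤ s ≤ 3` a.e.): `θ μ A ≤ ∫_A (s - 1) ≤ 2 μ {x ∈ A | 1 + θ/2 ≤ s} + (θ/2) μ A`. Remove
the three sets of PJN (3). -/
def T_BGS : Prop := ∀ (Ω : Type u) [MeasurableSpace Ω] (μ : Measure Ω) [IsProbabilityMeasure μ]
  (Q : Fin 3 → Ω → Ω), (∀ l, MeasurePreserving (Q l) μ μ) → ∀ A : Set Ω, MeasurableSet A →
  ∀ θ κ : ℝ, 0 < θ → 0 < κ → Big μ Q A θ → ∀ j : Fin 3 → ℕ,
  θ * μ.real A / 4 - 3 * κ ≤ μ.real {x | x ∈ A ∧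
    1 + θ / 2 ≤ ∑ l, ce μ (Q l) (j l) (one A) x ∧ ∀ l, κ ≤ ce μ (Q l) (j l) (one A) x}

/-- PTW. The lower bound at a point. PROOF. `η, ε₀` from DTL for `κ/2, θ/2`, decreased so that
`3 ε₀ ≤ κ/2`, `9 ε₀ ≤ θ/2`. For a.e. `x ∈ X`: `z i = (θs i.1 i.2 x)^k`, `i : Fin 3 × Fin K`, satisfies
`TF0` (KIL). Sequences `F a = P 2 (zit .. (2 q k * a) x)`, `H` the same for role `0`,
`G b = P 1 (zit .. (q k * b) x)`. They are in `AZ (BZ z (ρ/2)) ε`: if `‖(θ^k)^k' - 1‖ ≤ ρ/2` then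
`‖θ^(2 k k') - 1‖ ≤ ρ`, and SEQ for ` (n, 2 k k')`, ` (n, k k')`. UME gives `f, h, g ∈ [0,1]` with
`UM (3 ε)`, MEN gives `|f - ce ..| ≤ 3 ε` etc. (`jl (q k) 2 = 2 q k = jl (q k) 0`, `jl (q k) 1 = q k`),
so DTL applies and AVZ gives the claim. -/
def T_PTW : Prop := ∀ κ θ : ℝ, 0 < κ → 0 < θ → ∃ η ε₀ : ℝ, 0 < η ∧ 0 < ε₀ ∧
  ∀ (Ω : Type u) [MeasurableSpace Ω] (μ : Measure Ω) [IsProbabilityMeasure μ]
  (Q Q' : Fin 3 → Ω → Ω), (∀ l, MeasurePreserving (Q l) μ μ) →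
  (∀ l, MeasurePreserving (Q' l) μ μ) → (∀ l x, Q' l (Q l x) = x) →
  (∀ l x, Q l (Q' l x) = x) → ∀ (θs : Fin 3 → ℕ → Ω → Circle), (∀ l j, Measurable (θs l j)) →
  (∀ l j x, θs l j (Q l x) = θs l j x) → ∀ (P : Fin 3 → Ω → ℝ), (∀ l, Measurable (P l)) →
  (∀ l x, 0 ≤ P l x ∧ P l x ≤ 1) → ∀ (q K k : ℕ) (ρ ε : ℝ), 1 ≤ q → 1 ≤ k → 0 < ρ → 0 < ε →
  ε ≤ ε₀ → (∀ l, ∀ᵐ x ∂μ, ∀ t h : ℕ, (∀ j < K, ‖(θs l j x : ℂ) ^ h - 1‖ ≤ ρ) →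
    |P l ((Q l)^[t + q * h] x) - P l ((Q l)^[t] x)| ≤ ε) →
  ∀ X : Set Ω, (∀ x ∈ X, Kil (fun i : Fin 3 × Fin K => θs i.1 i.2 x) k) →
  (∀ x ∈ X, 1 + θ ≤ ∑ l, ce μ (Q l) (jl (q * k) l) (P l) x) →
  (∀ x ∈ X, ∀ l, κ ≤ ce μ (Q l) (jl (q * k) l) (P l) x) →
  ∀ᵐ x ∂μ, x ∈ X → ∃ N₀ : ℕ, ∀ N ≥ N₀,
    η / 2 ≤ avg3 N (fun y => ∏ l, P l ((Q l)^[q * k * tm l y] x))

/-- GTL. A relatively weakly mixing function does not contribute. PROOF. As CRk.p_GTF (copy it)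
without weights, for the maps ` (Q l)^[q]`: CRk.T_GTM for `Q = (Q l)^[q]`, `B^[q]`, `P^[q]`, where
role `2`: `i = 0`, `j = 1`, `B = Q ∘ Q`, `P = Q`; role `0`: `i = 2`, `j = 1`, `B = Q ∘ Q`, `P = Q'`;
role `1`: `i = 0`, `j = 2`, `B = P = Q`. `GV μ B^[q] P^[q] g` follows from `GV μ B P g` (Ind3.f_GVQ)
with `q * q'` in place of `q'`. ` ((Q l)^[q])^[n] = (Q l)^[q * n]`. -/
def T_GTL : Prop := ∀ (Ω : Type u) [MeasurableSpace Ω] (μ : Measure Ω) [IsProbabilityMeasure μ]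
  (Q Q' : Fin 3 → Ω → Ω), (∀ l, MeasurePreserving (Q l) μ μ) →
  (∀ l, MeasurePreserving (Q' l) μ μ) → (∀ l x, Q' l (Q l x) = x) →
  (∀ l x, Q l (Q' l x) = x) → ∀ (X : Set Ω), MeasurableSet X → ∀ q : ℕ, 1 ≤ q →
  ∀ (f : Fin 3 → Ω → ℝ), (∀ l, Measurable (f l)) → (∀ l x, |f l x| ≤ 1) →
  ∀ l : Fin 3, RWM μ (Q l) (f l) → ∀ ε : ℝ, 0 < ε → ∃ H : ℕ, 0 < H ∧ ∃ L₀ : ℕ, ∀ L ≥ L₀,
    |∫ x in X, avg3 (H * L) (fun y => ∏ l', f l' ((Q l')^[q * tm l' y] x)) ∂μ| ≤ ε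

/-- SLC. Selection. PROOF. `c l, g l` from APC. `κ = θ μ A / 24`; `η, ε₀` from PTW for `κ/2`, `θ/4`;
`c₀ = θ μ A / 32`. Given `η'` let `δ > 0` be small and `P l` from `APF` with
`∫ |c l - P l| ≤ min η' δ`, almost periodic with error `ε₀`; APY and CRk.T_UNI: `θs, q, K, ρ`. TOR for
`φ i = θs i.1 i.2`, `i : Fin 3 × Fin K`: `k` and `X₁` with `μ X₁ᶜ ≤ θ μ A / 32`. `j l = jl (q k) l`. BGS:
the set `X₂` there has measure `≥ θ μ A / 4 - 3 κ = θ μ A / 8`. `∫ |ce .. (P l) - ce .. (one A)| ≤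
∫ |P l - c l| ≤ δ` (`ce (one A) = ce c` a.e., `integral_abs_condExp_le`), so off a set of measure
`≤ 3 δ / min (κ/2) (θ/12)` all three differences are at most `min (κ/2) (θ/12)`: choose `δ` such that
this is `≤ θ μ A / 32`. `X` = the intersection (a measurable set), `μ X ≥ θ μ A / 16 ≥ c₀`; on `X`
(off a null set, which can be removed) `∑ ce (P l) ≥ 1 + θ/4`, `ce (P l) ≥ κ/2`: PTW with the
number `q * k`. -/
def T_SLC : Prop := ∀ (Ω : Type u) [MeasurableSpace Ω] (μ : Measure Ω) [IsProbabilityMeasure μ]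
  (Q Q' : Fin 3 → Ω → Ω), (∀ l, MeasurePreserving (Q l) μ μ) →
  (∀ l, MeasurePreserving (Q' l) μ μ) → (∀ l x, Q' l (Q l x) = x) →
  (∀ l x, Q l (Q' l x) = x) → ∀ A : Set Ω, MeasurableSet A → μ A ≠ 0 → ∀ θ : ℝ, 0 < θ →
  Big μ Q A θ → ∃ c g : Fin 3 → Ω → ℝ, (∀ l, Measurable (c l)) ∧ (∀ l, Measurable (g l)) ∧
    (∀ l x, 0 ≤ c l x ∧ c l x ≤ 1) ∧ (∀ l x, |g l x| ≤ 1) ∧ (∀ l x, one A x = c l x + g l x) ∧
    (∀ l, RWM μ (Q l) (g l)) ∧ ∃ η c₀ : ℝ, 0 < η ∧ 0 < c₀ ∧ ∀ η' : ℝ, 0 < η' →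
    ∃ (P : Fin 3 → Ω → ℝ) (q : ℕ) (X : Set Ω), 1 ≤ q ∧ MeasurableSet X ∧ X ⊆ A ∧
      c₀ ≤ μ.real X ∧ (∀ l, Measurable (P l)) ∧ (∀ l x, 0 ≤ P l x ∧ P l x ≤ 1) ∧
      (∀ l, ∫ x, |c l x - P l x| ∂μ ≤ η') ∧
      ∀ᵐ x ∂μ, x ∈ X → ∃ N₀ : ℕ, ∀ N ≥ N₀,
        η ≤ avg3 N (fun y => ∏ l, P l ((Q l)^[q * tm l y] x))

/-- MAL. The final inequality. PROOF. SLC with `η' = η c₀ / 12`. Suppose the conclusion fails. For
`N > 0` and `y` in the windows, `m = q * tm 2 y ≥ 1`, `q * tm 1 y = m + n`, `q * tm 0 y = m + 2 n` with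
`n = q (y 2 - y 0 - y 1) ≥ 1`, so `one A x * ∏ l, one A (moved) = 0` for a.e. `x`; `X ⊆ A`, so
`∫_X avg3 N (∏ one A (moved)) = 0`. `f2 f0 f1 = g2 f0 f1 + c2 g0 f1 + c2 c0 g1 + c2 c0 c1`; `N = H L`
with `H` the product of the three numbers of GTL: the first three are `≤ ε` in absolute value.
`c2 c0 c1 ≥ P2 P0 P1 - ∑ |c l - P l| (moved)` and `∫_X avg3 |c l - P l| (moved) ≤ ∫ |c l - P l| ≤ η'`
(measure preserving). `∫_X avg3 (∏ P l) ≥ η μ X - ε` for large `N` (Ind3.f_LSU for the negative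
function). So `0 ≥ η c₀ - 4 ε - 3 η'`, a contradiction for `ε = η c₀ / 12`. -/
def T_MAL : Prop := ∀ (Ω : Type u) [MeasurableSpace Ω] (μ : Measure Ω) [IsProbabilityMeasure μ]
  (Q Q' : Fin 3 → Ω → Ω), (∀ l, MeasurePreserving (Q l) μ μ) →
  (∀ l, MeasurePreserving (Q' l) μ μ) → (∀ l x, Q' l (Q l x) = x) →
  (∀ l x, Q l (Q' l x) = x) → ∀ A : Set Ω, MeasurableSet A → μ A ≠ 0 → ∀ θ : ℝ, 0 < θ →
  Big μ Q A θ → ∃ m n : ℕ, 1 ≤ m ∧ 1 ≤ n ∧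
    μ {x | x ∈ A ∧ (Q 2)^[m] x ∈ A ∧ (Q 1)^[m + n] x ∈ A ∧ (Q 0)^[m + 2 * n] x ∈ A} ≠ 0

/-- LSF. Both cases. PROOF. If `1/3 < μ A`: by PJN (2), (4) the limit of the sum over `l` of the
averages is at least `3 (μ A)² > μ A`; so `Big` holds with some `θ > 0` (`1 + θ` between `1` and
`3 μ A`). MAL. -/
def T_LSF : Prop := ∀ (Ω : Type u) [MeasurableSpace Ω] (μ : Measure Ω) [IsProbabilityMeasure μ]
  (Q Q' : Fin 3 → Ω → Ω), (∀ l, MeasurePreserving (Q l) μ μ) →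
  (∀ l, MeasurePreserving (Q' l) μ μ) → (∀ l x, Q' l (Q l x) = x) →
  (∀ l x, Q l (Q' l x) = x) → ∀ A : Set Ω, MeasurableSet A → μ A ≠ 0 →
  (1 / 3 < μ.real A ∨ ∃ θ : ℝ, 0 < θ ∧ Big μ Q A θ) → ∃ m n : ℕ, 1 ≤ m ∧ 1 ≤ n ∧
    μ {x | x ∈ A ∧ (Q 2)^[m] x ∈ A ∧ (Q 1)^[m + n] x ∈ A ∧ (Q 0)^[m + 2 * n] x ∈ A} ≠ 0

end Pool.Agent.LSQ
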